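import Pool.Agent.Q112.ML.Stm

/-!
# Project ML, second theorem: the almost sure order of the error for moduli of every size

Law of the iterated logarithm for all classes and all moduli: for `q ≤ x^{1-δ}` the almost sure maximal error is
`(1 + o(1)) dv`, `dv = (2 κ (x/q) log x (2 log q + loglog x))^{1/2}`, and this is attained for infinitely many `x` for
moduli `q ≈ f(x)`, for EVERY function `f`.
-/

set_option autoImplicit false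

namespace Pool.Agent.Q112.ML

open Finset Filter MeasureTheory ProbabilityTheory Pool.Agent.Q120.GM Pool.Agent.Q112.LE
open scoped Topology

/-- The normaliser `(2 κ (x/q) log x (2 log q + loglog x))^{1/2}`, `κ = kap Q q`. -/
noncomputable def dv (Q x q : ℕ) : ℝ :=
  √(2 * (kap Q q * ((x : ℝ) / q)) * Real.log x * (2 * Real.log q + Real.log (Real.log x)))

/-- The deviation of `psi` from its mean over `(y, x]`. -/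
noncomputable def incr (S : Set ℕ) (Q y x q a : ℕ) : ℝ :=
  psi S x q a - psi S y q a - kap Q q * (((x : ℝ) - y) / q)

/-- JOB T2U (from `S_RT` and the conclusion of `S_UP`). PROOF. `y = kap Q q x/q ≥ x^δ`, `B = 2 log q + loglog x`,
`L = log x`, so `dv² = 2 y L B`. Upper side: `u = (1+ε) dv/y`, which is `≤ ε` for `x` large (`u² = (1+ε)² 2 L B/y`), so by
(7) of `S_RT`, `y rate u ≥ y u²/(2+u) = (1+ε)² L B · 2/(2+u) ≥ (1+ε) ... ≥ (1+ε/2) B L` if `ε ≤ 1` (in general apply with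
`min ε 1`); `S_UP` with `ε/2`. Lower side: `rate (-u) ≥ u²/2`. (`kap (x/q) = y`, `(1 ± u) y = y ± (1+ε) dv`.) -/
def S_T2U : Prop :=
  ∀ (Ω : Type) [MeasurableSpace Ω] (μ : Measure Ω) [IsProbabilityMeasure μ] (A : Ω → Set ℕ) (Q : ℕ), 1 ≤ Q →
    IsModel μ (level Q) A → ∀ δ ε : ℝ, 0 < δ → δ < 1 → 0 < ε → ∀ᵐ ω ∂μ, ∀ᶠ x : ℕ in atTop, ∀ q a : ℕ, 1 ≤ q →
      (q : ℝ) ≤ (x : ℝ) ^ (1 - δ) → Nat.gcd a (Nat.gcd q Q) = 1 →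
      |psi (A ω) x q a - kap Q q * ((x : ℝ) / q)| ≤ (1 + ε) * dv Q x q

/-- JOB T2C (moderate deviations of one class in `(X/2^R, X]`, from `S_TL`, `S_MN`, `S_RT`).
PROOF. `W` = the elements of `cls X q a \ cls (X/2^R) q a` coprime to `Q`, `m = #W`, `K = qq Q`, `M = K m`,
`|M - kap (X - X/2^R)/q| ≤ 2C` (`S_MN`, second inequality, used twice); the other elements of the class have probability `0` of lying in `A`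
(almost surely `psi X - psi (X/2^R) = sm W`). `L = log X`, `B = 2 log q + loglog X`, `dv² = 2 κ (X/q) L B`.
Apply `S_TL` with `1/2` for `ε`, `η1` small for `η`, `c1 = (R+1) log 2` (then no element of `W` has `log n < L - c1`), and
`r = σ (1 - ε + 2η) dv/M`, which tends to `0` uniformly because `X/q ≥ X^ε`. `M r² ≥ c L B ≥ L0 L` for large `X`
(`B → ∞`). The result: with probability `≥ (1/2) exp (-(1+6η1)(M/L) rate r)`,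
`σ (S - M) ≥ (1-η1)(1-ε+2η) dv`, so `σ · incr ≥ (1-ε+η) dv` (`2C` is small against `η dv/2`). Cost:
`rate r ≤ (1 + small) r²/2` (for `r < 0`: `rate (-v) ≤ v²/2 · (1 + v)` for small `v`, or use (5) and (1)-(4) of `S_RT`; simplest:
`rate (-v) = (1-v) log (1-v) + v ≤ v²/2 + v³`), so
`(M/L) rate r ≤ (1+small) (1-ε+2η)² dv²/(2 L M) = (1+small)(1-ε+2η)² κ (X/q) B/M ≤ (1+small)(1-ε+2η)²/(1-2^{-R}) B`, and
this is `≤ (1-ε) B - log 2` if `2^{-R} ≤ ε/2`, `η`, `η1` small and `X` large, as `(1-ε)² < (1-ε)(1-ε/2)`. -/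
def S_T2C : Prop :=
  ∀ Q : ℕ, 1 ≤ Q → ∀ ε : ℝ, 0 < ε → ε ≤ 1 / 2 → ∃ R0 : ℕ, ∀ R : ℕ, R0 ≤ R → ∃ η : ℝ, 0 < η ∧ ∀ᶠ X : ℕ in atTop,
    2 ^ R ∣ X → ∀ q a : ℕ, 1 ≤ q → (q : ℝ) ≤ (X : ℝ) ^ (1 - ε) → Nat.gcd a (Nat.gcd q Q) = 1 →
    ∀ (Ω : Type) [MeasurableSpace Ω] (μ : Measure Ω) [IsProbabilityMeasure μ] (A : Ω → Set ℕ),
      IsModel μ (level Q) A → ∀ σ : ℝ, (σ = 1 ∨ σ = -1) →
      Real.exp (-((1 - ε) * (2 * Real.log q + Real.log (Real.log X)))) ≤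
        μ.real {ω | (1 - ε + η) * dv Q X q ≤ σ * incr (A ω) Q (X / 2 ^ R) X q a}

/-- JOB SE2 (second moment, lower bound for a union of rare events). PROOF. `Z = ∑_{i ∈ I} 1_{E_i}/P(E_i)`,
`E Z = #I`, `E Z² ≤ ∑_i 1/P(E_i) + ∑_{i ≠ j} R ≤ #I/π0 + #I² R`, and `(E Z)² ≤ E Z² · P(Z > 0)` (Cauchy-Schwarz). -/
def S_SE2 : Prop :=
  ∀ (Ω : Type) [MeasurableSpace Ω] (μ : Measure Ω) [IsProbabilityMeasure μ] (ι : Type) [DecidableEq ι]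
    (I : Finset ι) (E : ι → Set Ω) (π0 R : ℝ), I.Nonempty → (∀ i ∈ I, MeasurableSet (E i)) →
    0 < π0 → 1 ≤ R → (∀ i ∈ I, π0 ≤ μ.real (E i)) →
    (∀ i ∈ I, ∀ j ∈ I, i ≠ j → μ.real (E i ∩ E j) ≤ R * (μ.real (E i) * μ.real (E j))) →
    1 / (R + 1 / (I.card * π0)) ≤ μ.real {ω | ∃ i ∈ I, ω ∈ E i}

/-- JOB SM2 (assembly of `S_PA`, `S_PI`, `S_SE2`; the proof of `S_SM` with `S_SE2` in place of `S_SE`). -/
def S_SM2 : Prop :=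
  ∀ (Ω : Type) [MeasurableSpace Ω] (μ : Measure Ω) [IsProbabilityMeasure μ] (p : ℕ → ℝ) (A : Ω → Set ℕ),
    IsModel μ p A → ∀ (ι : Type) [DecidableEq ι] (I : Finset ι) (W : ι → Finset ℕ) (w : ℕ → ℝ) (T H : ι → ℝ)
      (Δ τ π0 : ℝ) (N : ℕ), I.Nonempty → 0 ≤ Δ → 0 ≤ τ → τ ≤ 1 / 2 → 0 < π0 → π0 ≤ 1 →
      1 ≤ N → (∀ i ∈ I, 2 * Δ * N ≤ H i) → (∀ i ∈ I, π0 ≤ μ.real {ω | T i + H i ≤ sm (A ω) w (W i)}) →
      (∀ i ∈ I, ∀ j ∈ I, i ≠ j → ∃ c : ℝ, μ.real {ω | Δ < |sm (A ω) w (W i ∩ W j) - c|} ≤ τ) →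
      1 / (π0 ^ (-(2 / (N : ℝ))) / (1 - τ) ^ 2 + τ / π0 ^ 2 + 1 / (I.card * π0)) ≤
        μ.real {ω | ∃ i ∈ I, T i ≤ sm (A ω) w (W i)}

/-- JOB T2X (many classes in `(X/2^R, X]`, from `S_T2C`, `S_SM2`, `S_CH`, `S_RT`, `S_ID`).
PROOF. `L = log X`, `l = loglog X`, `B = log (Q 2^k) + l`, `π0 = exp (-(1-ε)(2 log (Q 2^k) + l))`, `I = idx Q k`,
`W i = cls X q a \ cls (X/2^R) q a` (`q = Q i.1`, `a = 1 + Q i.2`), `w n = σ log n`, `T i = (1-ε) dv + σ kap (X - X/2^R)/q`,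
`H i = η dv` (`η` from `S_T2C`). `P(T i + H i ≤ sm w (W i)) ≥ π0` by `S_T2C`, as `q ≤ Q 2^k`.
`k → ∞` with `X` (uniformly), so `S_ID` applies. Two windows have at most `X/(Q l l') + 1 ≤ 64X/4^k + 1` common elements
(`S_ID`, last part, as `W i ⊆ win Q X i`); `Λ = K (64X/4^k + 1)`, `Δ = 40 B L + 10 √(B L Λ)`, `c = E S_C`: by `S_CH`
as in the proof of `S_SX`, `P(|S_C - c| > Δ) ≤ 2 exp (-Δ²/(L (2Λ + Δ))) ≤ τ := 2 exp (-20 B)` (if `2Λ ≤ Δ` then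
`Δ²/(2Λ+Δ) ≥ Δ/2 ≥ 20 B L`, otherwise `≥ Δ²/(4Λ) ≥ 25 B L`), and `τ/π0² ≤ 2 exp (-16 B) → 0`.
`2 log q + l ≥ B` (as `q ≥ Q 2^k/8` and `k` is large), so `H i ≥ η √(2 (X/(Q 2^k)) L B)`, and
`H i/(2Δ) ≥ c min (√(X/(2^k L B)), 2^{k/2}, √(X/2^k)) ≥ c' min (2^{k/2}, X^{ε/3})`: `N = ⌊c' min (2^{k/2}, X^{ε/3})⌋`;
`2^k ≥ L^ε`, so `(k + l)/N → 0` and `π0^{-2/N} → 1`. So for large `X` the sum in `S_SM2` is at most `2 + 1/(#I π0)`, and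
`#I π0 ≥ 4^k/(64k) (Q 2^k)^{-2(1-ε)} L^{-(1-ε)} ≥ L^{-(1-ε)}` (as `4^{kε} ≥ 64 k Q²` for large `k`). Finally
`1/(2 + L^{1-ε}) ≥ L^{-(1-ε/2)}`. -/
def S_T2X : Prop :=
  ∀ Q : ℕ, 1 ≤ Q → ∀ ε : ℝ, 0 < ε → ε ≤ 1 / 2 → ∃ R0 : ℕ, ∀ R : ℕ, R0 ≤ R → ∀ᶠ X : ℕ in atTop,
    2 ^ R ∣ X → ∀ k : ℕ, Real.log X ^ ε ≤ 2 ^ k → (Q : ℝ) * 2 ^ k ≤ (X : ℝ) ^ (1 - ε) →
    ∀ (Ω : Type) [MeasurableSpace Ω] (μ : Measure Ω) [IsProbabilityMeasure μ] (A : Ω → Set ℕ),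
      IsModel μ (level Q) A → ∀ σ : ℝ, (σ = 1 ∨ σ = -1) →
      Real.log X ^ (-(1 - ε / 2)) ≤
        μ.real {ω | ∃ i ∈ idx Q k, (1 - ε) * dv Q X (Q * i.1) ≤
          σ * incr (A ω) Q (X / 2 ^ R) X (Q * i.1) (1 + Q * i.2)}

/-- JOB T2L (the lower bound for every size of the moduli, from `S_T2U`, `S_T2C`, `S_T2X`, `S_ID`).
PROOF. It is enough to treat small `ε` (`ε ≤ δ/4`, `ε ≤ 1/2`). Let `ε1 = ε/8`, `ε2 = ε1/8`. Take `R` large: `R ≥ R0` of `S_T2C`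
for `ε1` and of `S_T2X` for `ε2`, and `2^{-R/2} ≤ ε/8`. `X_j = 2^{R j}`, `L_j = log X_j`. Event `B_j`: if
`f(X_j) ≥ 2 Q L_j^{ε2}`, define `k` by `Q 2^k ≤ f(X_j) < Q 2^{k+1}` (then `2^k ≥ L_j^{ε2}`, `Q 2^k ≤ X_j^{1-δ} ≤ X_j^{1-ε2}`)
and let `B_j` be the event of `S_T2X` for `ε2`, `X_j`, `k`, of probability `≥ L_j^{-(1-ε2/2)}`; otherwise
let `q = f(X_j)`, `a = 1`, and `B_j` the event `(1-ε1) dv ≤ σ incr (A ω) Q X_{j-1} X_j q 1`, whose probability is by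
`S_T2C` for `ε1` at least `exp (-(1-ε1)(2 log (2 Q L_j^{ε2}) + loglog X_j)) = (2Q)^{-2(1-ε1)} L_j^{-(1-ε1)(1+2ε2)} ≥ L_j^{-(1-ε1/2)}`
for large `j`. In both cases
`P(B_j) ≥ c j^{-(1 - c')}`, not summable; `B_j` depends only on the elements of `A` in `(X_{j-1}, X_j]`; so almost surely infinitely many
`B_j` occur (`Pool.Agent.Q120.GM.often`, file `Q120/GM/Often.lean`). If `B_j` occurs, `j` large, with `q`, `a`: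
`σ (psi X_j - kap X_j/q) = σ incr + σ (psi X_{j-1} - kap X_{j-1}/q) ≥ (1-ε1) dv Q X_j q - 2 dv Q X_{j-1} q` by `S_T2U`
(for `δ/2`, `ε = 1`; `q ≤ X_j^{1-δ} ≤ X_{j-1}^{1-δ/2}`), and `dv Q X_{j-1} q ≤ 2^{-R/2} dv Q X_j q`. Here
`q ∈ [f/16, f]`: `q = Q l > Q 2^k/8 ≥ f/16`. -/
def S_T2L : Prop :=
  ∀ (Ω : Type) [MeasurableSpace Ω] (μ : Measure Ω) [IsProbabilityMeasure μ] (A : Ω → Set ℕ) (Q : ℕ), 1 ≤ Q →
    IsModel μ (level Q) A → ∀ (δ : ℝ) (f : ℕ → ℕ), 0 < δ → δ < 1 → (∀ x, 1 ≤ f x) →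
      (∀ᶠ x : ℕ in atTop, (f x : ℝ) ≤ (x : ℝ) ^ (1 - δ)) → ∀ (ε σ : ℝ), 0 < ε → (σ = 1 ∨ σ = -1) →
      ∀ᵐ ω ∂μ, ∃ᶠ x : ℕ in atTop, ∃ q a : ℕ, f x ≤ 16 * q ∧ q ≤ f x ∧ a ≤ q ∧ Nat.Coprime a q ∧
        (1 - ε) * dv Q x q ≤ σ * (psi (A ω) x q a - kap Q q * ((x : ℝ) / q))

end Pool.Agent.Q112.ML
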