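import Pool.Agent.Q65.ML.PA
import Pool.Agent.Q112.ML.Stm2

/-!
# Project ML: second moment lower bounds for unions (jobs SE2, SM2)
-/

set_option autoImplicit false

namespace Pool.Agent.Q112.ML

open Finset Filter MeasureTheory ProbabilityTheory Pool.Agent.Q120.GM Pool.Agent.Q112.LE
open Pool.Agent.Q65.ML

theorem se2 : S_SE2 := by
  classical
  intro Ω _ μ _ ι _ I E π0 R hI hE hπ hR hp hdep
  obtain ⟨c, hc⟩ : ∃ c : ι → ℝ, c = fun i => 1 / μ.real (E i) := ⟨_, rfl⟩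
  have hP : ∀ i ∈ I, 0 < μ.real (E i) := fun i hi => hπ.trans_le (hp i hi)
  have hcP : ∀ i ∈ I, c i * μ.real (E i) = 1 := by
    intro i hi
    rw [hc]
    exact one_div_mul_cancel (hP i hi).ne'
  have hc0 : ∀ i ∈ I, 0 < c i := by
    intro i hi
    rw [hc]
    exact one_div_pos.2 (hP i hi)
  have hcle : ∀ i ∈ I, c i ≤ 1 / π0 := by
    intro i hi
    rw [hc]
    exact one_div_le_one_div_of_le hπ (hp i hi)
  obtain ⟨m, hm⟩ : ∃ m : ℝ, m = (I.card : ℝ) := ⟨_, rfl⟩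
  have hm0 : 0 < m := by rw [hm]; exact_mod_cast hI.card_pos
  obtain ⟨Z, hZ⟩ : ∃ Z : Ω → ℝ, Z = fun ω => ∑ i ∈ I, c i * (E i).indicator (fun _ => (1 : ℝ)) ω :=
    ⟨_, rfl⟩
  have hint1 : ∀ i ∈ I, Integrable (fun ω => c i * (E i).indicator (fun _ => (1 : ℝ)) ω) μ := fun i hi =>
    ((integrable_const (1 : ℝ)).indicator (hE i hi)).const_mul _
  have hEZ : ∫ ω, Z ω ∂μ = m := by
    rw [hZ, integral_finsetSum _ hint1]
    have e : ∀ i ∈ I, ∫ ω, c i * (E i).indicator (fun _ => (1 : ℝ)) ω ∂μ = 1 := by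
      intro i hi
      rw [integral_const_mul, integral_indicator_const _ (hE i hi), smul_eq_mul, mul_one, hcP i hi]
    rw [sum_congr rfl e, sum_const, nsmul_eq_mul, mul_one, hm]
  have hZ2 : ∀ ω, Z ω ^ 2 = ∑ i ∈ I, ∑ j ∈ I, c i * c j * (E i ∩ E j).indicator (fun _ => (1 : ℝ)) ω := by
    intro ω
    rw [hZ, sq, Finset.sum_mul_sum]
    refine sum_congr rfl fun i _ => sum_congr rfl fun j _ => ?_
    have e : (E i ∩ E j).indicator (fun _ => (1 : ℝ)) ω =
        (E i).indicator (fun _ => (1 : ℝ)) ω * (E j).indicator (fun _ => (1 : ℝ)) ω := by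
      by_cases h1 : ω ∈ E i
      · by_cases h2 : ω ∈ E j
        · rw [Set.indicator_of_mem h1, Set.indicator_of_mem h2,
            Set.indicator_of_mem (show ω ∈ E i ∩ E j from ⟨h1, h2⟩), mul_one]
        · rw [Set.indicator_of_notMem h2, Set.indicator_of_notMem (fun h => h2 h.2), mul_zero]
      · rw [Set.indicator_of_notMem h1, Set.indicator_of_notMem (fun h => h1 h.1), zero_mul]
    rw [e]
    ring
  have hint2 : ∀ i ∈ I, ∀ j ∈ I,
      Integrable (fun ω => c i * c j * (E i ∩ E j).indicator (fun _ => (1 : ℝ)) ω) μ := fun i hi j hj =>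
    ((integrable_const (1 : ℝ)).indicator ((hE i hi).inter (hE j hj))).const_mul _
  have hZ2' : (fun ω => Z ω ^ 2) = fun ω => ∑ i ∈ I, ∑ j ∈ I,
      c i * c j * (E i ∩ E j).indicator (fun _ => (1 : ℝ)) ω := funext hZ2
  have hEZ2 : ∫ ω, Z ω ^ 2 ∂μ = ∑ i ∈ I, ∑ j ∈ I, c i * c j * μ.real (E i ∩ E j) := by
    rw [hZ2', integral_finsetSum _ fun i hi => integrable_finsetSum _ (hint2 i hi)]
    refine sum_congr rfl fun i hi => ?_
    rw [integral_finsetSum _ (hint2 i hi)]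
    refine sum_congr rfl fun j hj => ?_
    rw [integral_const_mul, integral_indicator_const _ ((hE i hi).inter (hE j hj)), smul_eq_mul,
      mul_one]
  obtain ⟨B, hB⟩ : ∃ B : ℝ, B = m ^ 2 * R + m / π0 := ⟨_, rfl⟩
  have hB0 : 0 < B := by rw [hB]; positivity
  have hb : ∑ i ∈ I, ∑ j ∈ I, c i * c j * μ.real (E i ∩ E j) ≤ B := by
    have h1 : ∀ i ∈ I, ∀ j ∈ I, c i * c j * μ.real (E i ∩ E j) ≤ R + (if i = j then 1 / π0 else 0) := by
      intro i hi j hj
      by_cases hij : i = j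
      · subst hij
        rw [if_pos rfl, Set.inter_self, mul_assoc, hcP i hi, mul_one]
        have h2 := hcle i hi
        linarith
      · rw [if_neg hij]
        have h2 : 0 ≤ c i * c j := mul_nonneg (hc0 i hi).le (hc0 j hj).le
        have h3 : c i * c j * (μ.real (E i) * μ.real (E j)) = 1 := by
          calc c i * c j * (μ.real (E i) * μ.real (E j)) =
              (c i * μ.real (E i)) * (c j * μ.real (E j)) := by ring
            _ = 1 := by rw [hcP i hi, hcP j hj, mul_one]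
        have h4 := mul_le_mul_of_nonneg_left (hdep i hi j hj hij) h2
        have h5 : c i * c j * (R * (μ.real (E i) * μ.real (E j))) = R := by
          calc c i * c j * (R * (μ.real (E i) * μ.real (E j))) =
              R * (c i * c j * (μ.real (E i) * μ.real (E j))) := by ring
            _ = R := by rw [h3, mul_one]
        linarith
    refine (sum_le_sum fun i hi => sum_le_sum (h1 i hi)).trans ?_
    simp only [sum_add_distrib, sum_const, nsmul_eq_mul]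
    have h2 : ∑ i ∈ I, ∑ j ∈ I, (if i = j then 1 / π0 else 0) = m / π0 := by
      have e : ∀ i ∈ I, ∑ j ∈ I, (if i = j then 1 / π0 else 0) = 1 / π0 := by
        intro i hi
        rw [Finset.sum_ite_eq, if_pos hi]
      rw [sum_congr rfl e, sum_const, nsmul_eq_mul, ← hm]
      ring
    rw [h2, ← hm, hB]
    apply le_of_eq
    ring
  obtain ⟨G, hG⟩ : ∃ G : Set Ω, G = {ω | ∃ i ∈ I, ω ∈ E i} := ⟨_, rfl⟩
  have hGm : MeasurableSet G := by
    have e : G = ⋃ i ∈ I, E i := by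
      rw [hG]
      ext ω
      simp
    rw [e]
    exact Finset.measurableSet_biUnion I fun i hi => hE i hi
  have hintZ : Integrable Z μ := by
    rw [hZ]
    exact integrable_finsetSum _ hint1
  have hintZ2 : Integrable (fun ω => Z ω ^ 2) μ := by
    rw [hZ2']
    exact integrable_finsetSum _ fun i hi => integrable_finsetSum _ (hint2 i hi)
  obtain ⟨t, ht⟩ : ∃ t : ℝ, t = m / B := ⟨_, rfl⟩
  have ht0 : 0 < t := by rw [ht]; positivity
  have hpt : ∀ ω, Z ω ≤ t / 2 * Z ω ^ 2 + 1 / (2 * t) * G.indicator (fun _ => (1 : ℝ)) ω := by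
    intro ω
    by_cases hω : ω ∈ G
    · rw [Set.indicator_of_mem hω, mul_one]
      have h1 : 0 ≤ (t * Z ω - 1) ^ 2 / (2 * t) := by positivity
      have h2 : (t * Z ω - 1) ^ 2 / (2 * t) = t / 2 * Z ω ^ 2 + 1 / (2 * t) - Z ω := by
        field_simp
        ring
      linarith
    · rw [Set.indicator_of_notMem hω]
      have hz : Z ω = 0 := by
        rw [hZ]
        refine sum_eq_zero fun i hi => ?_
        rw [Set.indicator_of_notMem (fun h => hω (by rw [hG]; exact ⟨i, hi, h⟩)), mul_zero]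
      rw [hz]
      simp
  have i1 : Integrable (fun ω => t / 2 * Z ω ^ 2) μ := hintZ2.const_mul _
  have i2 : Integrable (fun ω => 1 / (2 * t) * G.indicator (fun _ => (1 : ℝ)) ω) μ :=
    ((integrable_const (1 : ℝ)).indicator hGm).const_mul _
  have hmain : ∫ ω, Z ω ∂μ ≤ ∫ ω, (t / 2 * Z ω ^ 2 + 1 / (2 * t) * G.indicator (fun _ => (1 : ℝ)) ω) ∂μ :=
    integral_mono hintZ (i1.add i2) hpt
  have e1 : ∫ ω, (t / 2 * Z ω ^ 2 + 1 / (2 * t) * G.indicator (fun _ => (1 : ℝ)) ω) ∂μ =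
      t / 2 * (∫ ω, Z ω ^ 2 ∂μ) + 1 / (2 * t) * μ.real G := by
    rw [integral_add i1 i2, integral_const_mul, integral_const_mul, integral_indicator_const _ hGm, smul_eq_mul, mul_one]
  rw [e1, hEZ] at hmain
  have h3 : t / 2 * (∫ ω, Z ω ^ 2 ∂μ) ≤ t / 2 * B := by
    apply mul_le_mul_of_nonneg_left _ (by positivity)
    rw [hEZ2]
    exact hb
  have h4 : t / 2 * B = m / 2 := by
    rw [ht]
    field_simp
  have h5 : 1 / (2 * t) * μ.real G = B * μ.real G / (2 * m) := by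
    rw [ht]
    field_simp
  have h6 : m / 2 ≤ B * μ.real G / (2 * m) := by
    rw [← h5]
    linarith
  rw [le_div_iff₀ (by positivity)] at h6
  rw [← hG, ← hm]
  have h7 : 1 / (R + 1 / (m * π0)) = m ^ 2 / B := by
    rw [hB]
    field_simp
  rw [h7, div_le_iff₀ hB0]
  linarith

theorem sm2 : S_PA → S_PI → S_SE2 → S_SM2 := by
  intro hPA hPI hSE Ω _ μ _ p A hA ι _ I W w T H Δ τ π0 N hI hΔ hτ hτ1 hπ hπ1 hN hNH hP hdep
  have hex : ∀ i, ∃ T' : ℝ, i ∈ I → T i ≤ T' ∧ T' ≤ T i + H i ∧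
      μ.real {ω | T' - 2 * Δ ≤ sm (A ω) w (W i)} ≤
        π0 ^ (-(1 / (N : ℝ))) * μ.real {ω | T' ≤ sm (A ω) w (W i)} ∧
      π0 ≤ μ.real {ω | T' ≤ sm (A ω) w (W i)} := by
    intro i
    by_cases hi : i ∈ I
    · obtain ⟨T', h1, h2, h3, h4⟩ := hPI (fun t => μ.real {ω | t ≤ sm (A ω) w (W i)})
        (fun s t hst => measureReal_mono (fun ω hω => le_trans hst hω) (measure_ne_top μ _))
        (fun t => measureReal_le_one) (T i) (H i) Δ π0 N hΔ hπ hN (hNH i hi) (hP i hi)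
      exact ⟨T', fun _ => ⟨h1, h2, h3, h4⟩⟩
    · exact ⟨0, fun h => absurd h hi⟩
  choose T' hT' using hex
  have hτ2 : 0 < 1 - τ := by linarith
  have hR1 : (1 : ℝ) ≤ π0 ^ (-(2 / (N : ℝ))) / (1 - τ) ^ 2 + τ / π0 ^ 2 := by
    have h1 : (1 : ℝ) ≤ π0 ^ (-(2 / (N : ℝ))) := by
      apply Real.one_le_rpow_of_pos_of_le_one_of_nonpos hπ hπ1
      have : (0 : ℝ) ≤ 2 / N := by positivity
      linarith
    have h2 : (1 - τ) ^ 2 ≤ 1 := by
      have : 1 - τ ≤ 1 := by linarith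
      exact pow_le_one₀ hτ2.le this
    have h3 : (1 : ℝ) ≤ π0 ^ (-(2 / (N : ℝ))) / (1 - τ) ^ 2 := by
      rw [le_div_iff₀ (by positivity)]
      linarith
    have h4 : 0 ≤ τ / π0 ^ 2 := by positivity
    linarith
  have hsq : (π0 ^ (-(1 / (N : ℝ)))) ^ 2 = π0 ^ (-(2 / (N : ℝ))) := by
    rw [← Real.rpow_natCast, ← Real.rpow_mul hπ.le]
    congr 1
    push_cast
    ring
  have h1 := hSE Ω μ ι I (fun i => {ω | T' i ≤ sm (A ω) w (W i)}) π0
    (π0 ^ (-(2 / (N : ℝ))) / (1 - τ) ^ 2 + τ / π0 ^ 2) hI (fun i _ => ge_meas hA _ _ _) hπ hR1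
    (fun i hi => (hT' i hi).2.2.2) ?_
  · refine h1.trans (measureReal_mono ?_ (measure_ne_top μ _))
    rintro ω ⟨i, hi, h2⟩
    have h4 : T' i ≤ sm (A ω) w (W i) := h2
    exact ⟨i, hi, (hT' i hi).1.trans h4⟩
  · intro i hi j hj hij
    obtain ⟨c, hc⟩ := hdep i hi j hj hij
    have h2 := hPA Ω μ p A hA (W i) (W j) w (T' i) (T' j) c Δ τ hΔ hτ (by linarith) hc
    have e1 : {ω | T' i ≤ sm (A ω) w (W i)} ∩ {ω | T' j ≤ sm (A ω) w (W j)} =
        {ω | T' i ≤ sm (A ω) w (W i) ∧ T' j ≤ sm (A ω) w (W j)} := rfl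
    rw [e1]
    refine h2.trans ?_
    obtain ⟨x, hx⟩ : ∃ x, x = μ.real {ω | T' i ≤ sm (A ω) w (W i)} := ⟨_, rfl⟩
    obtain ⟨y, hy⟩ : ∃ y, y = μ.real {ω | T' j ≤ sm (A ω) w (W j)} := ⟨_, rfl⟩
    obtain ⟨ρ, hρ⟩ : ∃ ρ, ρ = π0 ^ (-(1 / (N : ℝ))) := ⟨_, rfl⟩
    have g1 := (hT' i hi).2.2.1
    have g2 := (hT' j hj).2.2.1
    have g3 := (hT' i hi).2.2.2
    have g4 := (hT' j hj).2.2.2
    rw [← hx, ← hρ] at g1
    rw [← hy, ← hρ] at g2
    rw [← hx] at g3
    rw [← hy] at g4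
    rw [← hx, ← hy, ← hsq, ← hρ]
    have hρ0 : 0 ≤ ρ := by rw [hρ]; exact Real.rpow_nonneg hπ.le _
    have k1 : μ.real {ω | T' i - 2 * Δ ≤ sm (A ω) w (W i)} *
        μ.real {ω | T' j - 2 * Δ ≤ sm (A ω) w (W j)} / (1 - τ) ^ 2 ≤ ρ * x * (ρ * y) / (1 - τ) ^ 2 := by
      refine div_le_div_of_nonneg_right ?_ (by positivity)
      exact mul_le_mul g1 g2 measureReal_nonneg (mul_nonneg hρ0 (hπ.le.trans g3))
    have k2 : τ ≤ τ / π0 ^ 2 * (x * y) := by
      have h5 : π0 ^ 2 ≤ x * y := by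
        rw [sq]
        exact mul_le_mul g3 g4 hπ.le (hπ.le.trans g3)
      calc τ = τ / π0 ^ 2 * π0 ^ 2 := by field_simp
        _ ≤ τ / π0 ^ 2 * (x * y) := mul_le_mul_of_nonneg_left h5 (by positivity)
    have k3 : ρ * x * (ρ * y) / (1 - τ) ^ 2 = ρ ^ 2 / (1 - τ) ^ 2 * (x * y) := by ring
    rw [k3] at k1
    linarith

end Pool.Agent.Q112.ML
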