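import Pool.Agent.Q65.ML.PA

/-!
# Project ML: exponential tilting (job TI)
-/

set_option autoImplicit false

namespace Pool.Agent.Q112.ML

open Finset Filter MeasureTheory ProbabilityTheory Pool.Agent.Q120.GM Pool.Agent.Q112.LE Pool.Agent.Q65.ML
open scoped Topology

section

variable {Ω : Type} [MeasurableSpace Ω] {μ : Measure Ω} [IsProbabilityMeasure μ] {p : ℕ → ℝ} {A : Ω → Set ℕ}

theorem indep_ind_sm (hA : IsModel μ p A) {W : Finset ℕ} {a : ℕ} (ha : a ∉ W) (w : ℕ → ℝ) {φ : ℝ → ℝ}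
    (hφ : Measurable φ) : IndepFun (fun ω => ind (A ω) a) (fun ω => φ (sm (A ω) w W)) μ := by
  have h1 : Indep (F A {a}) (F A (W : Set ℕ)) μ := by
    refine indep_iSup_of_disjoint (m := fun i => MeasurableSpace.generateFrom {{ω | i ∈ A ω}}) (fun i => ?_)
      hA.indep (Set.disjoint_singleton_left.2 (by simpa using ha))
    rw [MeasurableSpace.generateFrom_le_iff]
    intro s hs
    rw [Set.mem_singleton_iff] at hs
    rw [hs]
    exact hA.meas i
  rw [IndepFun_iff_Indep]
  refine indep_of_indep_of_le h1 ?_ ?_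
  · have h2 : Measurable[F A {a}] (fun ω => ind (A ω) a) :=
      @ind_meas_gen Ω (F A {a}) A a (F_mem (Set.mem_singleton a))
    exact h2.comap_le
  · have h2 : Measurable[F A (W : Set ℕ)] (fun ω => sm (A ω) w W) := sm_F w fun n hn => by simpa using hn
    have h3 : Measurable[F A (W : Set ℕ)] (fun ω => φ (sm (A ω) w W)) := hφ.comp h2
    exact h3.comap_le

theorem abs_sm_le (S : Set ℕ) (w : ℕ → ℝ) (W : Finset ℕ) : |sm S w W| ≤ ∑ n ∈ W, |w n| := by
  unfold sm
  refine (abs_sum_le_sum_abs _ _).trans (sum_le_sum fun n _ => ?_)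
  rw [abs_mul]
  have h1 : |ind S n| ≤ 1 := by
    unfold ind
    by_cases h : n ∈ S
    · rw [Set.indicator_of_mem h, abs_one]
    · rw [Set.indicator_of_notMem h, abs_zero]
      exact zero_le_one
  exact mul_le_of_le_one_right (abs_nonneg _) h1

theorem int_cont (hA : IsModel μ p A) (W : Finset ℕ) (w : ℕ → ℝ) {φ : ℝ → ℝ} (hφ : Continuous φ) :
    Integrable (fun ω => φ (sm (A ω) w W)) μ := by
  obtain ⟨C, hC⟩ := (isCompact_Icc (a := -∑ n ∈ W, |w n|) (b := ∑ n ∈ W, |w n|)).exists_bound_of_continuousOn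
    hφ.continuousOn
  refine Integrable.of_bound (hφ.measurable.comp (sm_meas hA W w)).aestronglyMeasurable C ?_
  exact Eventually.of_forall fun ω => hC _ (abs_le.1 (abs_sm_le _ _ _))

theorem int_ind (hA : IsModel μ p A) (a : ℕ) : ∫ ω, ind (A ω) a ∂μ = p a := by
  have h1 : (fun ω => ind (A ω) a) = ({ω | a ∈ A ω} : Set Ω).indicator fun _ => (1 : ℝ) := by
    funext ω
    unfold ind
    by_cases hn : a ∈ A ω
    · rw [Set.indicator_of_mem hn, Set.indicator_of_mem (show ω ∈ {ω | a ∈ A ω} from hn)]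
    · rw [Set.indicator_of_notMem hn, Set.indicator_of_notMem (show ω ∉ {ω | a ∈ A ω} from hn)]
  rw [h1, integral_indicator_const _ (hA.meas a), smul_eq_mul, mul_one, hA.prob a]

theorem int_ind_mul (hA : IsModel μ p A) {W : Finset ℕ} {a : ℕ} (ha : a ∉ W) (w : ℕ → ℝ) {φ : ℝ → ℝ}
    (hφ : Continuous φ) : ∫ ω, ind (A ω) a * φ (sm (A ω) w W) ∂μ = p a * ∫ ω, φ (sm (A ω) w W) ∂μ := by
  have h1 := (indep_ind_sm hA ha w hφ.measurable).integral_fun_mul_eq_mul_integral
    (ind_meas_gen (hA.meas a)).aestronglyMeasurable (hφ.measurable.comp (sm_meas hA W w)).aestronglyMeasurable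
  rw [h1, int_ind hA]

/-- The formula for functions of the sum over `insert a W`. -/
theorem int_insert (hA : IsModel μ p A) {W : Finset ℕ} {a : ℕ} (ha : a ∉ W) (w : ℕ → ℝ) {φ : ℝ → ℝ}
    (hφ : Continuous φ) : ∫ ω, φ (sm (A ω) w (insert a W)) ∂μ =
      (1 - p a) * ∫ ω, φ (sm (A ω) w W) ∂μ + p a * ∫ ω, φ (w a + sm (A ω) w W) ∂μ := by
  have h1 : ∀ ω, φ (sm (A ω) w (insert a W)) =
      φ (sm (A ω) w W) - ind (A ω) a * φ (sm (A ω) w W) + ind (A ω) a * φ (w a + sm (A ω) w W) := by
    intro ω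
    have h2 : sm (A ω) w (insert a W) = w a * ind (A ω) a + sm (A ω) w W := by
      unfold sm
      rw [sum_insert ha]
    rw [h2]
    unfold ind
    by_cases h : a ∈ A ω
    · rw [Set.indicator_of_mem h]; simp
    · rw [Set.indicator_of_notMem h]; simp
  have hφ2 : Continuous fun s => φ (w a + s) := hφ.comp (continuous_const.add continuous_id)
  have i1 := int_cont hA W w hφ
  have hb : ∀ {ψ : ℝ → ℝ}, Continuous ψ → Integrable (fun ω => ind (A ω) a * ψ (sm (A ω) w W)) μ := by
    intro ψ hψ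
    obtain ⟨C, hC⟩ := (isCompact_Icc (a := -∑ n ∈ W, |w n|) (b := ∑ n ∈ W, |w n|)).exists_bound_of_continuousOn
      hψ.continuousOn
    refine Integrable.of_bound ((ind_meas_gen (hA.meas a)).mul
      (hψ.measurable.comp (sm_meas hA W w))).aestronglyMeasurable C ?_
    refine Eventually.of_forall fun ω => ?_
    have h3 := hC _ (abs_le.1 (abs_sm_le (A ω) w W))
    rw [norm_mul]
    have h4 : ‖ind (A ω) a‖ ≤ 1 := by
      unfold ind
      by_cases h : a ∈ A ω
      · rw [Set.indicator_of_mem h]; simp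
      · rw [Set.indicator_of_notMem h]; simp
    calc ‖ind (A ω) a‖ * ‖ψ (sm (A ω) w W)‖ ≤ 1 * C := mul_le_mul h4 h3 (norm_nonneg _) zero_le_one
      _ = C := one_mul C
  simp only [h1]
  have i12 : Integrable (fun ω => φ (sm (A ω) w W) - ind (A ω) a * φ (sm (A ω) w W)) μ := i1.sub (hb hφ)
  rw [integral_add i12 (hb hφ2), integral_sub i1 (hb hφ), int_ind_mul hA ha w hφ, int_ind_mul hA ha w hφ2]
  ring

/-- The three moments. -/
theorem moments (hA : IsModel μ p A) (w : ℕ → ℝ) (l : ℝ) (W : Finset ℕ)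
    (hz : ∀ n ∈ W, 0 < 1 + p n * (Real.exp (l * w n) - 1)) :
    (∫ ω, Real.exp (l * sm (A ω) w W) ∂μ = ∏ n ∈ W, (1 + p n * (Real.exp (l * w n) - 1))) ∧
    (∫ ω, Real.exp (l * sm (A ω) w W) * (sm (A ω) w W -
      ∑ n ∈ W, w n * (p n * Real.exp (l * w n) / (1 + p n * (Real.exp (l * w n) - 1)))) ∂μ = 0) ∧
    (∫ ω, Real.exp (l * sm (A ω) w W) * (sm (A ω) w W -
      ∑ n ∈ W, w n * (p n * Real.exp (l * w n) / (1 + p n * (Real.exp (l * w n) - 1)))) ^ 2 ∂μ ≤
      (∏ n ∈ W, (1 + p n * (Real.exp (l * w n) - 1))) *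
        ∑ n ∈ W, w n ^ 2 * (p n * Real.exp (l * w n) / (1 + p n * (Real.exp (l * w n) - 1)))) := by
  induction W using Finset.induction_on with
  | empty => simp [sm]
  | insert a W ha ih =>
    obtain ⟨h0, h1, h2⟩ := ih fun n hn => hz n (mem_insert_of_mem hn)
    have hza := hz a (mem_insert_self a W)
    obtain ⟨M, hM⟩ : ∃ M, M = ∑ n ∈ W, w n * (p n * Real.exp (l * w n) / (1 + p n * (Real.exp (l * w n) - 1))) :=
      ⟨_, rfl⟩
    obtain ⟨V, hV⟩ : ∃ V, V = ∑ n ∈ W, w n ^ 2 * (p n * Real.exp (l * w n) / (1 + p n * (Real.exp (l * w n) - 1))) :=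
      ⟨_, rfl⟩
    obtain ⟨Z, hZ⟩ : ∃ Z, Z = ∏ n ∈ W, (1 + p n * (Real.exp (l * w n) - 1)) := ⟨_, rfl⟩
    obtain ⟨E, hE⟩ : ∃ E, E = Real.exp (l * w a) := ⟨_, rfl⟩
    obtain ⟨z, hzd⟩ : ∃ z, z = 1 + p a * (Real.exp (l * w a) - 1) := ⟨_, rfl⟩
    obtain ⟨b, hb⟩ : ∃ b, b = p a * Real.exp (l * w a) / (1 + p a * (Real.exp (l * w a) - 1)) := ⟨_, rfl⟩
    rw [← hzd] at hza
    rw [← hM] at h1 h2
    rw [← hV] at h2
    rw [← hZ] at h0 h2
    rw [prod_insert ha, sum_insert ha, sum_insert ha, ← hM, ← hV, ← hZ, ← hb, ← hzd]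
    have hbz : b * z = p a * E := by
      rw [hb, hE, ← hzd]
      field_simp
    have hz2 : z = 1 - p a + p a * E := by rw [hzd, hE]; ring
    have hp0 := p_nonneg hA a
    have hp1 := p_le_one hA a
    have hE0 : 0 < E := by rw [hE]; exact Real.exp_pos _
    have i0 : Integrable (fun ω => Real.exp (l * sm (A ω) w W)) μ :=
      int_cont hA W w (φ := fun s => Real.exp (l * s)) (by fun_prop)
    have i1 : Integrable (fun ω => Real.exp (l * sm (A ω) w W) * (sm (A ω) w W - M)) μ :=
      int_cont hA W w (φ := fun s => Real.exp (l * s) * (s - M)) (by fun_prop)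
    have i2 : Integrable (fun ω => Real.exp (l * sm (A ω) w W) * (sm (A ω) w W - M) ^ 2) μ :=
      int_cont hA W w (φ := fun s => Real.exp (l * s) * (s - M) ^ 2) (by fun_prop)
    refine ⟨?_, ?_, ?_⟩
    · rw [int_insert hA ha w (φ := fun s => Real.exp (l * s)) (by fun_prop)]
      have e1 : ∀ ω, Real.exp (l * (w a + sm (A ω) w W)) = E * Real.exp (l * sm (A ω) w W) := by
        intro ω
        rw [mul_add, Real.exp_add, hE]
      simp only [e1]
      rw [integral_const_mul, h0, hz2]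
      ring
    · rw [int_insert hA ha w (φ := fun s => Real.exp (l * s) * (s - (w a * b + M))) (by fun_prop)]
      have e1 : ∀ ω, Real.exp (l * (w a + sm (A ω) w W)) * (w a + sm (A ω) w W - (w a * b + M)) =
          E * (Real.exp (l * sm (A ω) w W) * (sm (A ω) w W - M)) +
            E * (w a - w a * b) * Real.exp (l * sm (A ω) w W) := by
        intro ω
        rw [mul_add, Real.exp_add, hE]
        ring
      have e2 : ∀ ω, Real.exp (l * sm (A ω) w W) * (sm (A ω) w W - (w a * b + M)) =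
          Real.exp (l * sm (A ω) w W) * (sm (A ω) w W - M) + -(w a * b) * Real.exp (l * sm (A ω) w W) := by
        intro ω
        ring
      simp only [e1, e2]
      rw [integral_add i1 (i0.const_mul _), integral_add (i1.const_mul _) (i0.const_mul _), integral_const_mul,
        integral_const_mul, integral_const_mul, h0, h1]
      have h3 : (1 - p a) * b = p a * E * (1 - b) := by
        have h4 : b * (1 - p a + p a * E) = p a * E := by rw [← hz2]; exact hbz
        linear_combination h4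
      linear_combination (-Z * w a) * h3
    · rw [int_insert hA ha w (φ := fun s => Real.exp (l * s) * (s - (w a * b + M)) ^ 2) (by fun_prop)]
      have e1 : ∀ ω, Real.exp (l * (w a + sm (A ω) w W)) * (w a + sm (A ω) w W - (w a * b + M)) ^ 2 =
          (E * (Real.exp (l * sm (A ω) w W) * (sm (A ω) w W - M) ^ 2) +
            2 * E * (w a - w a * b) * (Real.exp (l * sm (A ω) w W) * (sm (A ω) w W - M))) +
            E * (w a - w a * b) ^ 2 * Real.exp (l * sm (A ω) w W) := by
        intro ω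
        rw [mul_add, Real.exp_add, hE]
        ring
      have e2 : ∀ ω, Real.exp (l * sm (A ω) w W) * (sm (A ω) w W - (w a * b + M)) ^ 2 =
          (Real.exp (l * sm (A ω) w W) * (sm (A ω) w W - M) ^ 2 +
            -(2 * w a * b) * (Real.exp (l * sm (A ω) w W) * (sm (A ω) w W - M))) +
            (w a * b) ^ 2 * Real.exp (l * sm (A ω) w W) := by
        intro ω
        ring
      simp only [e1, e2]
      have j1 : Integrable (fun ω => Real.exp (l * sm (A ω) w W) * (sm (A ω) w W - M) ^ 2 +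
            -(2 * w a * b) * (Real.exp (l * sm (A ω) w W) * (sm (A ω) w W - M))) μ := i2.add (i1.const_mul _)
      have j2 : Integrable (fun ω => E * (Real.exp (l * sm (A ω) w W) * (sm (A ω) w W - M) ^ 2) +
            2 * E * (w a - w a * b) * (Real.exp (l * sm (A ω) w W) * (sm (A ω) w W - M))) μ :=
        (i2.const_mul _).add (i1.const_mul _)
      rw [integral_add j1 (i0.const_mul _), integral_add i2 (i1.const_mul _), integral_add j2 (i0.const_mul _),
        integral_add (i2.const_mul _) (i1.const_mul _), integral_const_mul, integral_const_mul, integral_const_mul,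
        integral_const_mul, integral_const_mul, h0, h1]
      obtain ⟨J, hJ⟩ : ∃ J, J = ∫ ω, Real.exp (l * sm (A ω) w W) * (sm (A ω) w W - M) ^ 2 ∂μ := ⟨_, rfl⟩
      rw [← hJ] at h2 ⊢
      have hb0 : 0 ≤ b := by
        have : 0 ≤ b * z := by rw [hbz]; positivity
        exact nonneg_of_mul_nonneg_left this hza
      have hZ0 : 0 ≤ Z := by
        rw [hZ]
        exact prod_nonneg fun n hn => (hz n (mem_insert_of_mem hn)).le
      have h5 : (1 - p a) * (w a * b) ^ 2 + p a * (E * (w a - w a * b) ^ 2) = z * (w a ^ 2 * (b * (1 - b))) := by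
        have h6 : 1 - p a = z * (1 - b) := by linear_combination hbz - hz2
        linear_combination (w a * b) ^ 2 * h6 - (w a - w a * b) ^ 2 * hbz
      have h7 : (1 - p a) * (J + -(2 * w a * b) * 0 + (w a * b) ^ 2 * Z) +
          p a * (E * J + 2 * E * (w a - w a * b) * 0 + E * (w a - w a * b) ^ 2 * Z) =
          z * J + Z * (z * (w a ^ 2 * (b * (1 - b)))) := by
        rw [← h5, hz2]
        ring
      rw [h7]
      have h8 : z * J ≤ z * (Z * V) := mul_le_mul_of_nonneg_left h2 hza.le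
      have h9 : Z * (z * (w a ^ 2 * (b * (1 - b)))) ≤ Z * (z * (w a ^ 2 * b)) := by
        apply mul_le_mul_of_nonneg_left _ hZ0
        apply mul_le_mul_of_nonneg_left _ hza.le
        apply mul_le_mul_of_nonneg_left _ (sq_nonneg _)
        nlinarith
      calc z * J + Z * (z * (w a ^ 2 * (b * (1 - b)))) ≤ z * (Z * V) + Z * (z * (w a ^ 2 * b)) := add_le_add h8 h9
        _ = _ := by ring

end

theorem ti : S_TI := by
  intro Ω _ μ _ p A hA W w l M t hz hM ht hV
  obtain ⟨h0, -, h2⟩ := moments hA w l W hz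
  rw [← hM] at h2
  obtain ⟨Z, hZ⟩ : ∃ Z, Z = ∏ n ∈ W, (1 + p n * (Real.exp (l * w n) - 1)) := ⟨_, rfl⟩
  rw [← hZ] at h0 h2 ⊢
  have hZ0 : 0 < Z := by rw [hZ]; exact prod_pos hz
  have h3 : ∫ ω, Real.exp (l * sm (A ω) w W) * (sm (A ω) w W - M) ^ 2 ∂μ ≤ Z * (t ^ 2 / 2) :=
    h2.trans (mul_le_mul_of_nonneg_left hV hZ0.le)
  have hmeas : MeasurableSet {ω | |sm (A ω) w W - M| ≤ t} :=
    measurableSet_le ((sm_meas hA W w).sub_const M).abs measurable_const
  obtain ⟨K, hK⟩ : ∃ K, K = Real.exp (l * M + |l| * t) := ⟨_, rfl⟩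
  have hK0 : 0 < K := by rw [hK]; exact Real.exp_pos _
  have i0 : Integrable (fun ω => Real.exp (l * sm (A ω) w W)) μ :=
    int_cont hA W w (φ := fun s => Real.exp (l * s)) (by fun_prop)
  have i2 : Integrable (fun ω => Real.exp (l * sm (A ω) w W) * (sm (A ω) w W - M) ^ 2) μ :=
    int_cont hA W w (φ := fun s => Real.exp (l * s) * (s - M) ^ 2) (by fun_prop)
  have i3 : Integrable (({ω | |sm (A ω) w W - M| ≤ t} : Set Ω).indicator fun _ => (1 : ℝ)) μ :=
    (integrable_const (1 : ℝ)).indicator hmeas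
  have h4 : ∀ ω, Real.exp (l * sm (A ω) w W) ≤
      K * ({ω | |sm (A ω) w W - M| ≤ t} : Set Ω).indicator (fun _ => (1 : ℝ)) ω +
        1 / t ^ 2 * (Real.exp (l * sm (A ω) w W) * (sm (A ω) w W - M) ^ 2) := by
    intro ω
    by_cases h : |sm (A ω) w W - M| ≤ t
    · rw [Set.indicator_of_mem (show ω ∈ {ω | |sm (A ω) w W - M| ≤ t} from h), mul_one]
      have h5 : Real.exp (l * sm (A ω) w W) ≤ K := by
        rw [hK]
        apply Real.exp_le_exp.2
        have h6 : l * (sm (A ω) w W - M) ≤ |l| * t := by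
          calc l * (sm (A ω) w W - M) ≤ |l * (sm (A ω) w W - M)| := le_abs_self _
            _ = |l| * |sm (A ω) w W - M| := abs_mul _ _
            _ ≤ |l| * t := mul_le_mul_of_nonneg_left h (abs_nonneg _)
        linarith
      have h6 : 0 ≤ 1 / t ^ 2 * (Real.exp (l * sm (A ω) w W) * (sm (A ω) w W - M) ^ 2) := by positivity
      linarith
    · rw [Set.indicator_of_notMem (show ω ∉ {ω | |sm (A ω) w W - M| ≤ t} from h), mul_zero, zero_add]
      push Not at h
      have h5 : t ^ 2 ≤ (sm (A ω) w W - M) ^ 2 := by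
        rw [← sq_abs (sm (A ω) w W - M)]
        exact pow_le_pow_left₀ ht.le h.le 2
      rw [one_div, inv_mul_eq_div, le_div_iff₀ (by positivity)]
      exact mul_le_mul_of_nonneg_left h5 (Real.exp_pos _).le
  have h5 := integral_mono i0 ((i3.const_mul K).add (i2.const_mul _)) h4
  simp only [Pi.add_apply] at h5
  rw [integral_add (i3.const_mul K) (i2.const_mul _), integral_const_mul, integral_const_mul,
    integral_indicator_const _ hmeas, smul_eq_mul, mul_one, h0] at h5
  have h6 : 1 / t ^ 2 * ∫ ω, Real.exp (l * sm (A ω) w W) * (sm (A ω) w W - M) ^ 2 ∂μ ≤ Z / 2 := by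
    calc _ ≤ 1 / t ^ 2 * (Z * (t ^ 2 / 2)) := mul_le_mul_of_nonneg_left h3 (by positivity)
      _ = Z / 2 := by field_simp
  rw [Real.exp_neg, ← div_eq_mul_inv, ← hK, div_le_iff₀ hK0]
  linarith

end Pool.Agent.Q112.ML
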