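import Pool.Agent.Q112.ML.T2L
import Pool.Agent.Q112.ML.TI
import Pool.Agent.Q112.ML.SE2
import Pool.Agent.Q24.ML.TC
import Pool.Agent.Q24.ML.SX
import Pool.Agent.Q24.ML.EX
import Pool.Agent.Q65.ML.PA
import Pool.Agent.Q66.ML.LO
import Pool.Agent.Q68.ML.Rt
import Pool.Agent.Q68.ML.Ch
import Pool.Agent.Q68.ML.Mc
import Pool.Agent.Q68.ML.Mn
import Pool.Agent.Q68.ML.Mu
import Pool.Agent.Q98.ML.TL
import Pool.Agent.Q98.ML.ID
import Pool.Agent.Q241.ML.UP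

/-!
# Project ML: the two theorems, assembly
-/

set_option autoImplicit false

namespace Pool.Agent.Q112.ML

open Finset Filter MeasureTheory ProbabilityTheory Pool.Agent.Q120.GM Pool.Agent.Q112.LE
open scoped Topology

theorem f_rt : S_RT := Pool.Agent.Q68.ML.rt
theorem f_mc : S_MC := Pool.Agent.Q68.ML.mc
theorem f_ch : S_CH := Pool.Agent.Q68.ML.ch f_mc f_rt
theorem f_mn : S_MN := Pool.Agent.Q68.ML.mn
theorem f_mu : S_MU := Pool.Agent.Q68.ML.mu f_rt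
theorem f_up : S_UP := Pool.Agent.Q241.ML.up f_ch f_mn f_rt
theorem f_id : S_ID := Pool.Agent.Q98.ML.t_ID
theorem f_sm : S_SM := Pool.Agent.Q65.ML.sm_ Pool.Agent.Q65.ML.pa Pool.Agent.Q65.ML.pi_ Pool.Agent.Q65.ML.se
theorem f_sx : S_SX := Pool.Agent.Q24.ML.sx f_sm f_ch f_rt f_id
theorem f_ex : S_EX := Pool.Agent.Q24.ML.ex Pool.Agent.Q65.ML.se f_id
theorem f_tl : S_TL := Pool.Agent.Q98.ML.t_TL ti f_rt
theorem f_tc : S_TC := Pool.Agent.Q24.ML.tc f_tl f_rt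
theorem f_lo : S_LO := Pool.Agent.Q66.ML.lo f_tc f_sx f_rt f_id
theorem f_t2u : S_T2U := t2u f_rt f_up
theorem f_t2c : S_T2C := t2c f_tl f_mn f_rt
theorem f_sm2 : S_SM2 := sm2 Pool.Agent.Q65.ML.pa Pool.Agent.Q65.ML.pi_ se2
theorem f_t2x : S_T2X := t2x f_t2c f_sm2 f_ch f_rt f_id
theorem f_t2l : S_T2L := t2l f_t2u f_t2c f_t2x f_id

theorem kap_dvd {Q q : ℕ} (h : Q ∣ q) : kap Q q = qq Q := by
  unfold kap qq
  rw [Nat.gcd_eq_right h]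

/-- The lower bounds, with the same function of `x` and `q` as in the upper bounds. -/
theorem lo_unif {Ω : Type} [MeasurableSpace Ω] {μ : Measure Ω} [IsProbabilityMeasure μ] {A : Ω → Set ℕ}
    {Q : ℕ} (hQ : 1 ≤ Q) (hA : IsModel μ (level Q) A) {ε : ℝ} (hε : 0 < ε) (hε1 : ε < 1) :
    ∀ᵐ ω ∂μ, ∀ᶠ j : ℕ in atTop, ∀ Y : ℝ,
      ((2 : ℝ) ^ j) ^ ε ≤ Y → Y * Real.log ((2 : ℝ) ^ j) ^ (1 + ε) ≤ 2 ^ j →
      (∃ q a : ℕ, Y / 16 ≤ q ∧ (q : ℝ) ≤ Y ∧ Q ∣ q ∧ a < q ∧ Nat.Coprime a q ∧ ∀ u : ℝ, 0 < u →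
        kap Q q * ((2 : ℝ) ^ j / q) * rate u ≤
          (1 - ε) * (2 * Real.log q + Real.log (Real.log ((2 : ℝ) ^ j))) * Real.log ((2 : ℝ) ^ j) →
        (1 + u) * (kap Q q * ((2 : ℝ) ^ j / q)) ≤ psi (A ω) (2 ^ j) q a) ∧
      (∃ q a : ℕ, Y / 16 ≤ q ∧ (q : ℝ) ≤ Y ∧ Q ∣ q ∧ a < q ∧ Nat.Coprime a q ∧ ∀ v : ℝ, 0 < v → v ≤ 1 - ε →
        kap Q q * ((2 : ℝ) ^ j / q) * rate (-v) ≤
          (1 - ε) * (2 * Real.log q + Real.log (Real.log ((2 : ℝ) ^ j))) * Real.log ((2 : ℝ) ^ j) →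
        psi (A ω) (2 ^ j) q a ≤ (1 - v) * (kap Q q * ((2 : ℝ) ^ j / q))) := by
  have h2 : Tendsto (fun j : ℕ => (2 : ℝ) ^ j) atTop atTop := tendsto_pow_atTop_atTop_of_one_lt (by norm_num)
  have hL : Tendsto (fun j : ℕ => Real.log ((2 : ℝ) ^ j)) atTop atTop := Real.tendsto_log_atTop.comp h2
  have hlo := (Real.isLittleO_log_id_atTop.comp_tendsto hL).def (show 0 < ε ^ 2 / 2 by positivity)
  filter_upwards [f_lo Ω μ A Q hQ hA (ε / 2) (by positivity) (by linarith)] with ω hω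
  filter_upwards [hω, hL.eventually_ge_atTop 1, hL.eventually_ge_atTop (2 * Real.log 16 / ε), hlo] with
    j hj hj1 hj2 hj3 Y hY1 hY2
  obtain ⟨X, hX⟩ : ∃ X : ℝ, X = 2 ^ j := ⟨_, rfl⟩
  rw [← hX] at hj hj1 hj2 hY1 hY2 ⊢
  simp only [Function.comp_apply, id, ← hX] at hj3
  have hX1 : 1 ≤ X := by rw [hX]; exact one_le_pow₀ (by norm_num)
  have hX0 : 0 < X := by linarith
  obtain ⟨L, hLd⟩ : ∃ L, L = Real.log X := ⟨_, rfl⟩
  rw [← hLd] at hj hj1 hj2 hY2 hj3 ⊢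
  have hll : 0 ≤ Real.log L := Real.log_nonneg hj1
  rw [Real.norm_of_nonneg hll, Real.norm_of_nonneg (by linarith)] at hj3
  have hY0 : 0 < Y := lt_of_lt_of_le (by positivity) hY1
  have hconv : ∀ q : ℕ, Y / 16 ≤ q → ∀ y : ℝ,
      y ≤ (1 - ε) * (2 * Real.log q + Real.log L) * L → y ≤ (1 - ε / 2) * (2 * Real.log q) * L := by
    intro q hq y hy
    refine hy.trans ?_
    apply mul_le_mul_of_nonneg_right _ (by linarith)
    have h1 : Real.log (Y / 16) ≤ Real.log q := Real.log_le_log (by positivity) hq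
    rw [Real.log_div hY0.ne' (by norm_num)] at h1
    have h3 : ε * L ≤ Real.log Y := by
      have := Real.log_le_log (by positivity) hY1
      rwa [Real.log_rpow hX0, ← hLd] at this
    have h4 : Real.log 16 ≤ ε / 2 * L := by
      rw [div_le_iff₀ hε] at hj2
      linarith
    have h5 : ε / 2 * L ≤ Real.log q := by linarith
    nlinarith [mul_nonneg hε.le hll]
  obtain ⟨⟨q1, a1, g1, g2, g3, g4, g5, g6⟩, ⟨q2, a2, k1, k2, k3, k4, k5, k6⟩⟩ := hj Y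
    ((Real.rpow_le_rpow_of_exponent_le hX1 (by linarith)).trans hY1)
    ((mul_le_mul_of_nonneg_left (Real.rpow_le_rpow_of_exponent_le hj1 (by linarith)) hY0.le).trans hY2)
  refine ⟨⟨q1, a1, g1, g2, g3, g4, g5, fun u hu h => ?_⟩, ⟨q2, a2, k1, k2, k3, k4, k5, fun v hv hv1 h => ?_⟩⟩
  · rw [kap_dvd g3] at h ⊢
    exact g6 u hu (hconv q1 g1 _ h)
  · rw [kap_dvd k3] at h ⊢
    exact k6 v hv (by linarith) (hconv q2 k1 _ h)

end Pool.Agent.Q112.ML
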