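import Pool.Agent.Q112.BT.Mods

/-!
# Project ML: the exact maximal error in Montgomery's conjecture in every sieved model

Statements of the lemmas, with proofs in the docstrings.

`IsModel μ (level Q) A`: `A` is a random set of natural numbers which contains the numbers `n` independently, `n` with
probability `level Q n`, which is `0` if `n` is not coprime to `Q` and `min 1 (qq Q / log n)` otherwise, where
`qq Q = Q / φ(Q)`. `kap Q q = g / φ(g)` with `g = gcd(q, Q)` (file `Q112/LE/Sum.lean`).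

`psi S x q a` is the sum of `log n` over the elements `n ≤ x` of `S` with `n ≡ a mod q`.
-/

set_option autoImplicit false

namespace Pool.Agent.Q112.ML

open Finset Filter MeasureTheory ProbabilityTheory Pool.Agent.Q120.GM Pool.Agent.Q112.LE
open scoped Topology

/-- The rate function `(1 + u) log (1 + u) - u` of the Poisson distribution (`rate (-1) = 1` because `log 0 = 0`). -/
noncomputable def rate (u : ℝ) : ℝ := (1 + u) * Real.log (1 + u) - u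

/-- The indicator function of `S`. -/
noncomputable def ind (S : Set ℕ) (n : ℕ) : ℝ := S.indicator (fun _ => (1 : ℝ)) n

/-- The sum of the weights `w n` over the elements of `S` in `W`. -/
noncomputable def sm (S : Set ℕ) (w : ℕ → ℝ) (W : Finset ℕ) : ℝ := ∑ n ∈ W, w n * ind S n

/-- The elements `1 ≤ n ≤ x` of the class of `a` modulo `q`. -/
def cls (x q a : ℕ) : Finset ℕ := (Icc 1 x).filter (fun n => n ≡ a [MOD q])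

/-- The sum of `log n` over the elements `n ≤ x` of `S` in the class of `a` modulo `q`. -/
noncomputable def psi (S : Set ℕ) (x q a : ℕ) : ℝ := sm S (fun n => Real.log n) (cls x q a)

/-! ## Calculus -/

/-- JOB RT (rate function).
(1) `rate u ≤ u²/2` for `u ≥ 0` (use `log (1+u) ≤ u - u²/2 + u³/3`, or: the derivative of `rate` is `log (1+u) ≤ u`);
(2) `rate` is strictly increasing on `[0, ∞)` (derivative `log (1 + u)`), and `v ↦ rate (-v)` is strictly increasing on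
`[0, 1]` (derivative `-log (1 - v)`; continuity at `1` because `t log t → 0`, in Mathlib `Real.continuous_mul_log`);
(3) `c² rate u ≤ rate (c u)` for `0 ≤ c ≤ 1`, `u ≥ 0`: the function `rate u / u²` is decreasing; equivalently
`h(c) = rate (c u) - c² rate u` satisfies: `h(0) = 0`, `h(1) = 0` and `h'(c) = u log (1 + c u) - 2 c rate u` is concave in
`c` with `h'(0) = 0`, so `h' ≥ 0` first and then `≤ 0`, so `h ≥ 0`. (Another way: `g(u) = rate u / u²` has derivative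
`(2u - (2 + u) log (1 + u)) / u³ ≤ 0`, because `log (1 + u) ≥ 2u / (2 + u)`.)
(4) `v²/2 ≤ rate (-v) ≤ v²` for `0 ≤ v ≤ 1` (derivative `-log (1 - v) ≥ v`; and `(1-v) log (1-v) + v ≤ v²` because
`log (1-v) ≤ -v`).
(5) for every `η > 0` there is `0 < c < 1` with `(1 - η) rate (-v) ≤ rate (-(b v))` for all `c ≤ b ≤ 1`, `0 ≤ v ≤ 1`:
`rate(-v) - rate(-(bv))` is the integral of `-log (1-t)` over `[bv, v]`. Elementary proof: for `v ≤ 1/2` the mean value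
theorem gives `≤ (1-b) v · 2 v ≤ 4 (1-b) rate (-v)`; for `v ≥ 1/2`, `rate (-v) ≥ 1/8` and
the uniform continuity of `v ↦ rate (-v)` on `[0,1]`.
(6) every `T ≥ 0` is `rate u` with `u ≥ 0` (intermediate value theorem), every `0 ≤ T ≤ 1` is `rate (-v)` with
`0 ≤ v ≤ 1`.
(7) `u²/(2+u) ≤ rate u` for `u ≥ 0` (from `log (1+u) ≥ 2u/(2+u)`);
(8) `u log (1+u) ≤ 2 rate u` for `u ≥ 0` (the same inequality: `(1 + u/2) log (1+u) ≥ u`);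
(9) `rate (e^y - 1) = y e^y - e^y + 1` and, with `g(y) = y e^y - e^y + 1`, `(e^y - 1)² ≤ 2 max (1, e^y) g(y)` for all
real `y` (for `y ≥ 0`: derivative of `2 e^y g(y) - (e^y-1)²` is `2 e^y g(y) + 2 e^y y e^y - 2 (e^y - 1) e^y ≥ 0` since
`y e^y ≥ e^y - 1`; for `y ≤ 0`: derivative of `2 g(y) - (e^y - 1)²` is `2 y e^y - 2(e^y-1)e^y = 2 e^y (y - e^y + 1) ≤ 0`
and the value at `0` is `0`). -/
def S_RT : Prop :=
  (∀ u : ℝ, 0 ≤ u → rate u ≤ u ^ 2 / 2) ∧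
  (∀ u u' : ℝ, 0 ≤ u → u < u' → rate u < rate u') ∧
  (∀ v v' : ℝ, 0 ≤ v → v < v' → v' ≤ 1 → rate (-v) < rate (-v')) ∧
  (∀ c u : ℝ, 0 ≤ c → c ≤ 1 → 0 ≤ u → c ^ 2 * rate u ≤ rate (c * u)) ∧
  (∀ v : ℝ, 0 ≤ v → v ≤ 1 → v ^ 2 / 2 ≤ rate (-v) ∧ rate (-v) ≤ v ^ 2) ∧
  (∀ η : ℝ, 0 < η → ∃ c : ℝ, 0 < c ∧ c < 1 ∧ ∀ b v : ℝ, c ≤ b → b ≤ 1 → 0 ≤ v → v ≤ 1 →
    (1 - η) * rate (-v) ≤ rate (-(b * v))) ∧
  (∀ T : ℝ, 0 ≤ T → ∃ u : ℝ, 0 ≤ u ∧ rate u = T) ∧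
  (∀ T : ℝ, 0 ≤ T → T ≤ 1 → ∃ v : ℝ, 0 ≤ v ∧ v ≤ 1 ∧ rate (-v) = T) ∧
  (∀ u : ℝ, 0 ≤ u → u ^ 2 / (2 + u) ≤ rate u) ∧
  (∀ u : ℝ, 0 ≤ u → u * Real.log (1 + u) ≤ 2 * rate u) ∧
  (∀ y : ℝ, rate (Real.exp y - 1) = y * Real.exp y - Real.exp y + 1 ∧
    (Real.exp y - 1) ^ 2 ≤ 2 * max 1 (Real.exp y) * (y * Real.exp y - Real.exp y + 1))

/-! ## Upper bounds -/

/-- JOB MC (maximal exponential inequality, no loss). `w` is an arbitrary real weight.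
PROOF. Write `T_x = ∑_{n ∈ W, n ≤ x} w n (1_A(n) - p n)` and `T` for the full sum. With `W = {n_1 < ... < n_m}` the
partial sums are `T_(0) = 0, T_(1), ..., T_(m) = T`. Let `E_k` be the event that `T_(k) ≥ D` and `T_(i) < D` for `i < k`:
these are disjoint, their union is the event, and `E_k` is determined by `n_1, ..., n_k`. Then
`E[e^T ; E_k] = E[e^{T_(k)} ; E_k] · E[e^{T - T_(k)}] ≥ e^D P(E_k)`, as `E e^{w (1_A(n) - p)} ≥ 1` (convexity: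
`e^{-wp}(1 + p(e^w - 1)) ≥ 1`, i.e. `p e^w + (1-p) ≥ e^{wp}`). Sum over `k`: `E e^T ≥ e^D P(event)`.
In Lean: induction on `W` (remove the SMALLEST element `a`; generalise over `D`): conditioning on whether `a ∈ A`,
`P(event for W, D) ≤ [D ≤ 0] or else = p P(event for W \ a, D - w a (1-p)) + (1-p) P(event for W \ a, D + w a p)`; if
`D ≤ 0` the right side is `≥ 1` since all factors are `≥ 1` and `e^{-D} ≥ 1`. The two cases of `1_A(a)` are independent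
of the rest by `indep_real` (`Pool.Agent.Q120.GM.indep_real`; the event is in `F A (W \ {a})`: finite unions and
intersections; see `Q112/LE`, `Q120/GM/Basic.lean` for how such measurability proofs go). Only finitely many `x` matter
(`x ∈ W` or `x` below `W`). -/
def S_MC : Prop :=
  ∀ (Ω : Type) [MeasurableSpace Ω] (μ : Measure Ω) [IsProbabilityMeasure μ] (p : ℕ → ℝ) (A : Ω → Set ℕ),
    IsModel μ p A → ∀ (W : Finset ℕ) (w : ℕ → ℝ) (D : ℝ),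
      μ.real {ω | ∃ x : ℕ, D ≤ ∑ n ∈ W.filter (fun n => n ≤ x), w n * (ind (A ω) n - p n)} ≤
        Real.exp (-D) * ∏ n ∈ W, (Real.exp (-(w n * p n)) * (1 + p n * (Real.exp (w n) - 1)))

/-- JOB CH (Chernoff bound for the maximum, from `S_MC` and `S_RT`). `W ⊆ [1, N]`, `Λ ≥ qq Q · #{n ∈ W coprime to Q}`.
PROOF. `L = log N > 0`. For `s > 0` apply `S_MC` with `w n = s log n` (and `D` replaced by `s D`): each factor is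
`≤ exp (p (e^y - 1 - y))` with `y = s log n`, `p = level Q n`. If `n` is not coprime to `Q`, `p = 0`; if `n = 1`, `y = 0`;
else `p ≤ qq Q / log n` and, `(e^y - 1 - y)/y` being increasing in `y > 0`,
`p (e^y - 1 - y) ≤ qq Q · s · (e^y-1-y)/y ≤ (qq Q / L) (e^{sL} - 1 - sL)`. So the probability is at most
`exp (-s D + (Λ/L)(e^{sL} - 1 - sL))`; with `e^{sL} = 1 + D/Λ` this is `exp (-(Λ/L) rate (D/Λ))`.
Lower side: `w n = -s log n`, `(e^{-y} - 1 + y)/y` is increasing in `y > 0` too, so the bound is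
`exp (-s D + (Λ/L)(e^{-sL} - 1 + sL))`; with `e^{-sL} = 1 - D/Λ` (`D < Λ`) this is `exp (-(Λ/L) rate (-(D/Λ)))`.
(`(e^y-1-y)/y` increasing: the inequality `(e^y - 1 - y) L ≤ y (e^{sL} -1 -sL)/s` for `0 < y ≤ sL`, i.e. convexity of
`e^y - 1 - y` and its value `0` at `0`; the same for `e^{-y} - 1 + y`.) -/
def S_CH : Prop :=
  ∀ (Ω : Type) [MeasurableSpace Ω] (μ : Measure Ω) [IsProbabilityMeasure μ] (A : Ω → Set ℕ) (Q : ℕ), 1 ≤ Q →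
    IsModel μ (level Q) A → ∀ (W : Finset ℕ) (N : ℕ) (Λ D : ℝ), 2 ≤ N → (∀ n ∈ W, 1 ≤ n ∧ n ≤ N) →
      qq Q * ((W.filter (fun n => Nat.Coprime n Q)).card : ℝ) ≤ Λ → 0 < Λ → 0 < D →
      μ.real {ω | ∃ x : ℕ, D ≤ ∑ n ∈ W.filter (fun n => n ≤ x), Real.log n * (ind (A ω) n - level Q n)} ≤
        Real.exp (-(Λ / Real.log N * rate (D / Λ))) ∧
      (D < Λ →
        μ.real {ω | ∃ x : ℕ, D ≤ ∑ n ∈ W.filter (fun n => n ≤ x), Real.log n * (level Q n - ind (A ω) n)} ≤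
          Real.exp (-(Λ / Real.log N * rate (-(D / Λ)))))

/-- JOB MN (expected values). PROOF. `n ≡ a mod q`, `n` coprime to `Q`: as `gcd(a, gcd(q, Q)) = 1`, the proportion
is `∏_{p | Q, p ∤ q} (1 - 1/p) = kap Q q / qq Q` and the condition is periodic in the index `i` of `n = a' + q i` with
period `Q`: the number of such `n ≤ x` differs from `(kap Q q / qq Q) x / q` by at most a constant depending on `Q` only
(`Q112/LE/Sum.lean`: `cnt_qq`, `per_int`; `Q112/LE/Dens.lean`; `Q112/BT/Mean.lean`). This is the second inequality. For the first,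
`log n · level Q n = qq Q` if `n` is coprime to `Q` and `log n ≥ qq Q`; the numbers `n < e^{qq Q}` contribute at most a
constant to the difference. -/
def S_MN : Prop :=
  ∀ Q : ℕ, 1 ≤ Q → ∃ C : ℝ, 0 < C ∧ ∀ x q a : ℕ, 1 ≤ q → Nat.gcd a (Nat.gcd q Q) = 1 →
    |∑ n ∈ cls x q a, Real.log n * level Q n - kap Q q * ((x : ℝ) / q)| ≤ C ∧
    |qq Q * (((cls x q a).filter (fun n => Nat.Coprime n Q)).card : ℝ) - kap Q q * ((x : ℝ) / q)| ≤ C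

/-- JOB UP (the upper bounds, from `S_CH`, `S_MN`, `S_RT`).
PROOF. `C = C_Q ≥ 1` from `S_MN`. Fix a small `δ > 0` (depending on `ε`, `Q`). Blocks: `N_j = ⌊(1+δ)^j⌋`; for large `j`,
`N_{j+1} ≤ (1 + 2δ) N_j`. For `N = N_{j+1}`, `1 ≤ q ≤ N`, `a < q` with `gcd(a, gcd(q,Q)) = 1` put `Λ = kap Q q N/q + C`,
`L = log N`, `R = (1 + ε/4)(2 log q + loglog N) L`, `r ≥ 0` with `rate r = R/Λ`, `D = Λ r`. By `S_CH` (with
`W = cls N q a`; `qq Q #... ≤ Λ` by `S_MN`), outside of an event of probability at most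
`exp (-R/L) = q^{-2-ε/2} (log N)^{-1-ε/4}`:
`psi x q a < (mean of psi x q a) + D ≤ kap (x/q) + C + Λ r` for all `x ≤ N`; and if `R < Λ` also, with
`rate (-r') = R/Λ`, `0 < r' < 1`, outside of an event of the same probability,
`psi x q a > kap (x/q) - C - Λ r'` for all `x ≤ N`. The sum of the probabilities over `a < q`, `q ≤ N_j`, and `j` converges:
`∑_q q^{-1-ε/2} < ∞` and `log N_j ≥ j log(1+δ) - 1`. So almost surely all these inequalities hold for all large blocks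
(`Pool.Agent.Q120.GM.bc`), and the rest is deterministic (`a` may be reduced modulo `q`).
Let `x` be large, `N_j ≤ x < N_{j+1} = N`. `loglog` and `log` of `x` and `N` differ by factors `→ 1`.
UPPER. Let `u > 0` and `(1+ε)(2 log q + loglog x) log x ≤ y rate u` with `y = kap x/q ≥ 1`. Let `C1 = C1(δ, C)` be a large constant.
If `y ≤ C1`: trivial, `psi ≤ (x/q + 1) log x ≤ 2 y log x` (the class has at most `x/q + 1 ≤ 2x/q` elements `≤ x`), while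
`2 log q ≥ log x` (large `x`), so `rate u ≥ (log x)²/C1`, which with `rate u ≤ (1+u) log(1+u)` forces `u ≥ 2 log x`
for large `x`, so `psi ≤ u y`.
If `y > C1`: `y ≤ Λ ≤ (1+3δ) y`, and `rate r = R/Λ ≤ θ rate u`, `θ = (1+ε/2)/(1+ε) < 1` (for `x` large), so
`r ≤ √θ u` by (3) and (2) of `S_RT`. So `psi ≤ y + C + (1+3δ) √θ u y`, and `C ≤ (1 - (1+3δ)√θ) u y` because
`(u y)² ≥ 2 y (y rate u) ≥ 2 loglog x log x → ∞`.
LOWER. `0 < u ≤ 1`, `(1+ε)(2 log q + loglog x) log x ≤ y rate (-u)`. If `u = 1` the claim is `0 ≤ psi`. Let `u < 1`. As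
`rate(-u) ≤ 1`, `y ≥ loglog x log x` is large. `R/Λ ≤ θ rate (-u) < 1`, so `r'` exists, and `Λ ≤ (1+3δ) y`. By (5) of
`S_RT`, with `b = 1/((1+3δ)(1+δ))` close to `1`: `rate (-(b u)) ≥ θ rate (-u) ≥ rate (-r')`, so `r' ≤ b u` and
`C + Λ r' ≤ C + u y/(1+δ) ≤ u y`, since `(u y)² ≥ y · (y rate (-u)) → ∞`. -/
def S_UP : Prop :=
  ∀ (Ω : Type) [MeasurableSpace Ω] (μ : Measure Ω) [IsProbabilityMeasure μ] (A : Ω → Set ℕ) (Q : ℕ), 1 ≤ Q →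
    IsModel μ (level Q) A → ∀ ε : ℝ, 0 < ε → ∀ᵐ ω ∂μ, ∀ᶠ x : ℕ in atTop, ∀ q a : ℕ, 1 ≤ q → q ≤ x →
      Nat.gcd a (Nat.gcd q Q) = 1 → ∀ u : ℝ, 0 < u →
        ((1 + ε) * (2 * Real.log q + Real.log (Real.log x)) * Real.log x ≤ kap Q q * ((x : ℝ) / q) * rate u →
          psi (A ω) x q a ≤ (1 + u) * (kap Q q * ((x : ℝ) / q))) ∧
        (u ≤ 1 →
          (1 + ε) * (2 * Real.log q + Real.log (Real.log x)) * Real.log x ≤ kap Q q * ((x : ℝ) / q) * rate (-u) →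
          (1 - u) * (kap Q q * ((x : ℝ) / q)) ≤ psi (A ω) x q a)

/-- JOB MU (deterministic; from `S_RT`). A set `S` with the conclusion of `S_UP` for a small `δ` satisfies Montgomery's
bound with the constant `√2 + ε`. PROOF. `L = log x`, `l = loglog x`, `y = x/q ≥ 1`, `κ = kap Q q ∈ [1, Q]`,
`D = (√2 + ε) √y L^{3/2}/√l`. We may assume `ε ≤ 1`.
UPPER SIDE, `psi ≤ κ y + D`. Case 1, `y ≤ (2+ε) L/l`: `cls x q a` has at most `y + 1` elements, so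
`psi ≤ (y+1) L`, and `(y+1) L ≤ D` because `(y+1)²/y ≤ y + 3 ≤ (2+ε) L/l + 3 ≤ (√2+ε)² L/l` (as `(√2+ε)² ≥ 2 + 2ε`,
`L/l → ∞`). Case 2: `y > (2+ε) L/l`. With `u = D/(κ y)` it suffices that
`κ y rate u ≥ 2 (1+2δ) L² ≥ (1+δ)(2 log q + l) L` for large `x`. Case 2a, `y ≤ L^{1+δ}`: `rate u ≥ u (log (1+u) - 1)`, so
`κ y rate u ≥ D (log (1+u) - 1)`; `u ≥ √2 L^{3/2}/(√l Q L^{(1+δ)/2})`, so `log (1+u) - 1 ≥ (1-δ) l` for large `x`, and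
`D ≥ (√2+ε) √(2+ε) L²/l`; so the product is `≥ (√2+ε) √(2+ε) (1-δ) L² ≥ 2(1+2δ) L²` if `δ` is small in terms of `ε`.
Case 2b, `y > L^{1+δ}`: `κ y rate u ≥ κ y u²/(2+u) = D²/(2κy + D)`, which is `≥ D²/(4κy) = c L³/l ≥ 3(1+2δ) L²` if
`D ≤ 2κy` and `≥ D/2 ≥ c L^{2+δ/2}/√l ≥ 3(1+2δ) L²` otherwise.
LOWER SIDE, `psi ≥ κ y - D`. If `D ≥ κ y` trivial (`psi ≥ 0`). Otherwise `u = D/(κ y) < 1` and
`κ y rate (-u) ≥ κ y u²/2 = D²/(2 κ y) ≥ L³/(Q l) ≥ 3(1+2δ)L²` for large `x`. -/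
def S_MU : Prop :=
  ∀ Q : ℕ, 1 ≤ Q → ∀ ε : ℝ, 0 < ε → ∃ δ : ℝ, 0 < δ ∧ ∀ S : Set ℕ,
    (∀ᶠ x : ℕ in atTop, ∀ q a : ℕ, 1 ≤ q → q ≤ x → Nat.gcd a (Nat.gcd q Q) = 1 → ∀ u : ℝ, 0 < u →
        ((1 + δ) * (2 * Real.log q + Real.log (Real.log x)) * Real.log x ≤ kap Q q * ((x : ℝ) / q) * rate u →
          psi S x q a ≤ (1 + u) * (kap Q q * ((x : ℝ) / q))) ∧
        (u ≤ 1 →
          (1 + δ) * (2 * Real.log q + Real.log (Real.log x)) * Real.log x ≤ kap Q q * ((x : ℝ) / q) * rate (-u) →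
          (1 - u) * (kap Q q * ((x : ℝ) / q)) ≤ psi S x q a)) →
    ∀ᶠ x : ℕ in atTop, ∀ q a : ℕ, 1 ≤ q → q ≤ x → Nat.gcd a (Nat.gcd q Q) = 1 →
      |psi S x q a - kap Q q * ((x : ℝ) / q)| ≤
        (√2 + ε) * √((x : ℝ) / q) * Real.log x ^ (3 / 2 : ℝ) / √(Real.log (Real.log x))

/-! ## Lower bounds for the tails -/

/-- JOB TI (exponential tilting; abstract). `z_n = p n (e^{l w n} - 1) > -1`, `M = ∑ w p e^{lw}/(1+z)`,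
`∑ w² p e^{lw}/(1+z) ≤ t²/2`.
PROOF. `E[e^{l S}] = ∏ (1 + z_n) = Z` and `E[e^{l S}(S - M)²] ≤ Z ∑ w² p e^{lw}/(1+z)` (the variance of the tilted
independent variables: for the probabilities `p' = p e^{lw}/(1+z)`, variance `w² p'(1-p') ≤ w² p'`). So
`E[e^{lS} ; |S - M| > t] ≤ Z/2`, hence `Z/2 ≤ E[e^{lS} ; |S-M| ≤ t] ≤ e^{lM + |l| t} P(|S-M| ≤ t)`.
In Lean: `S = sm (A ω) w W` depends only on `A ω ∩ W`; for every function `f` of a finite set,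
`∫ f (A ω ∩ W) = ∑_{T ⊆ W} f T ∏_{n ∈ T} p n ∏_{n ∈ W \ T} (1 - p n)`, so everything is a statement on finite sums over
`W.powerset`, or: induction on `W` for the three quantities `E e^{lS}`, `E[e^{lS} (S - M_W)]  = 0`,
`E[e^{lS} (S - M_W)²] = Z ∑ w² p' (1-p')` at once, using independence of `1_A(a)` and functions of `A ∩ W`.
(`Q112/LE/Expo.lean`, `exp_moment` is a model.) -/
def S_TI : Prop :=
  ∀ (Ω : Type) [MeasurableSpace Ω] (μ : Measure Ω) [IsProbabilityMeasure μ] (p : ℕ → ℝ) (A : Ω → Set ℕ),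
    IsModel μ p A → ∀ (W : Finset ℕ) (w : ℕ → ℝ) (l M t : ℝ), (∀ n ∈ W, 0 < 1 + p n * (Real.exp (l * w n) - 1)) →
      M = ∑ n ∈ W, w n * (p n * Real.exp (l * w n) / (1 + p n * (Real.exp (l * w n) - 1))) → 0 < t →
      ∑ n ∈ W, w n ^ 2 * (p n * Real.exp (l * w n) / (1 + p n * (Real.exp (l * w n) - 1))) ≤ t ^ 2 / 2 →
      (∏ n ∈ W, (1 + p n * (Real.exp (l * w n) - 1))) / 2 * Real.exp (-(l * M + |l| * t)) ≤
        μ.real {ω | |sm (A ω) w W - M| ≤ t}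

/-- JOB TL (lower bound for the tails in a window, from `S_TI`, `S_RT`).
PROOF. `K = qq Q ≥ 1`, `m = #W`, `M = K m`, `l = log(1+r)/L` (negative if `r < 0`), `w = log n`, `e = e^{l w}` (between
`1` and `1 + r` since `0 ≤ w ≤ L`), `p = K/w ≤ K/(εL) ≤ 1` for `L` large, so `level Q n = p`, `z = p (e - 1)`,
`|z| ≤ (K/(εL)) |r| ≤ K L^{-ε}/ε · const` is small. `M' = ∑ w p e/(1+z) = K ∑ e/(1+z)`. `t = η|r|M/2`. `c0 = ε η/32`.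
(a) Variance: `∑ w² p e/(1+z) ≤ 2 L K ∑ e ≤ 2 L M max(1, 1+r) ≤ t²/2 = η² r² M²/8`, i.e. `16 L max(1,1+r) ≤ η² r² M`:
true because `M min(|r|, r²) ≥ L0 L` with `L0 ≥ 32/η²` (two cases `|r| ≤ 1`, `r > 1`).
(b) Mean: `|M' - (1+r) M| ≤ K ∑ |e/(1+z) - (1+r)| ≤ (η/2) |r| M`. For `w ≥ L - c1`: `e = (1+r) e^{-l(L-w)}`, so
`|e - (1+r)| ≤ 2 (1+r) |l| c1 = 2 c1 (1+r)|log(1+r)|/L ≤ (η/8)|r|` (`(1+r) log(1+r) ≤ r (1 + log (1+r)) ≤ r (1 + log (1 + L))` for `r > 0`;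
`(1+r)|log(1+r)| ≤ |r|` for `r < 0`), and `|e/(1+z) - e| ≤ 2|z| e ≤ 2 (K/(εL)) |r| max(1, 1+r)² `; as `e ≤ 1 + L^{1-ε}` and
`|e - 1| ≤ |r|`, precisely `2 p |e-1| e ≤ 2 (K/(εL)) |r| (1 + L^{1-ε}) ≤ (η/8)|r|`. For the at most `c0 m` other `n`:
`|e/(1+z) - (1+r)| ≤ 2|r|`. So `|S - M'| ≤ t` implies `|S - (1+r) M| ≤ η |r| M`.
(c) Cost: by `S_TI` the probability is at least `(1/2) exp (-(l M' + |l| t - log Z))`, `Z = ∏ (1+z)`. As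
`-log (1+z) ≤ -z + z²` for `|z| ≤ 1/2` and `l w p e/(1+z) ≤ l w p e` (in both cases: `z` and `l w` have the same sign),
`l M' - log Z ≤ ∑ (p g(lw) + z²)`, `g(y) = y e^y - e^y + 1`. By (9) of `S_RT`
`z² ≤ 2 p max(1,e) · p g(lw) ≤ (η/8) p g(lw)`. `g(lw) ≤ g(lL) = rate r` (`g` is monotone on each side of `0`), `p ≤ (K/L)(1+η/8)` if
`w ≥ L - c1`, and `p ≤ K/(εL)` for the other at most `c0 m` ones: `∑ p g(lw) ≤ (M/L) rate r (1 + η/8 + c0/ε) ≤ (M/L)(1+η/4) rate r`.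
`|l| t = |log(1+r)| η |r| M/(2L) ≤ (η/ε) (M/L) rate r`: `|r log(1+r)| ≤ 2 rate r` if `r > 0`, and
`|log (1 - v)| ≤ v/(1-v) ≤ v/ε`, `v²/2 ≤ rate (-v)` if `r = -v`. Total cost
`≤ (M/L) rate r ((1+η/8)(1+η/4) + η/ε) ≤ (1 + 3η/ε)(M/L) rate r`. -/
def S_TL : Prop :=
  ∀ (Q : ℕ), 1 ≤ Q → ∀ ε η : ℝ, 0 < ε → ε ≤ 1 / 2 → 0 < η → η ≤ 1 → ∃ c0 : ℝ, 0 < c0 ∧ ∀ c1 : ℝ, 0 < c1 →
    ∃ L0 : ℝ, 0 < L0 ∧ ∀ (Ω : Type) [MeasurableSpace Ω] (μ : Measure Ω) [IsProbabilityMeasure μ] (A : Ω → Set ℕ),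
      IsModel μ (level Q) A → ∀ (W : Finset ℕ) (L r : ℝ), L0 ≤ L →
        (∀ n ∈ W, Nat.Coprime n Q ∧ ε * L ≤ Real.log n ∧ Real.log n ≤ L) →
        (((W.filter (fun n : ℕ => Real.log n < L - c1)).card : ℝ) ≤ c0 * W.card) →
        -1 + ε ≤ r → r ≤ L ^ (1 - ε) → r ≠ 0 → L0 * L ≤ qq Q * W.card * min |r| (r ^ 2) →
        Real.exp (-((1 + 3 * η / ε) * (qq Q * W.card / L) * rate r)) / 2 ≤
          μ.real {ω | |sm (A ω) (fun n => Real.log n) W - (1 + r) * (qq Q * W.card)| ≤ η * |r| * (qq Q * W.card)}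

/-- JOB TC (lower bound for the tails in a class, from `S_TL`, `S_RT`).
PROOF. `K = qq Q`, `L = log X`, `y = K X/q`, `W = cls X q a = {a + q i ≤ X}`, `m = #W`, `|m - X/q| ≤ 1`; all elements
are coprime to `Q`, and `log n ≥ log (q/4) ≥ (ε/2) L`. `X/q ≥ L^{1+ε}`. Use `S_TL` with `ε/2` for `ε`, a small `η1` (see below),
and `c1` so large that `e^{-c1} ≤ c0/4`: `#{n ∈ W : log n < L - c1} ≤ e^{-c1} X/q + 1 ≤ c0 m` for `X` large. `η = η1`.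
UP. `y rate u = 2(1-ε) log q L`. `r = (1+3η) u`. `r ≤ L^{1-ε/2}`: `rate u ≤ 2L²/y ≤ 2 L^{1-ε}`, and `rate u ≥ u` if
`u ≥ e² - 1`. `c L² ≤ y rate u` with `c = ε` (as `log q ≥ ε L`, `1 - ε ≥ 1/2`), so `y u² ≥ 2 c L²` if `u ≤ 1`, and
`y u ≥ c L²/(2 log (2L))` if `u ≥ 1`; so `M min(r, r²) ≥ L0 L` where `M = K m ≥ y/2`. `S_TL` gives
`P(S ≥ (1 + (1-η) r) M) ≥ exp(...)/2`, and `(1 + (1-η) r) M ≥ (1 + (1+η) u) y`: `M ≥ y - K`,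
`(1-η)(1+3η) ≥ 1 + 3η/2` (`η ≤ 1/6`), so it suffices `(η/2) u y ≥ K (1 + r)`, true for large `X` since `y → ∞`,
`u y → ∞`. Cost: `(1 + 6η/ε)(M/L) rate r`, `M ≤ y + K ≤ (1+η) y`, `rate ((1+3η)u) ≤ (1+3η)² rate u`, so the exponent is
`≤ (1+6η/ε)(1+η)(1+3η)² 2 (1-ε) log q + log 2 ≤ (2 - 3ε/2) log q + log 2 ≤ (2-ε) log q` if `η` is small and `q` large.
DOWN. `r = -(1+3η) v ≥ -1 + ε/2`. If `v = 1-ε`: `M min(|r|,r²) ≥ M/16 ≥ L0 L` as `M ≥ L^{1+ε}/2`. Otherwise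
`v² ≥ rate(-v)`, so `y v² ≥ c L²`. `S ≤ (1 - (1-η)(1+3η) v) M ≤ (1 - (1+3η/2) v)(y + K) ≤ (1 - (1+η) v) y` as `v y → ∞`.
Cost: (5) of `S_RT` (with `v` replaced by `(1+3η) v`, `b = 1/(1+3η)`) gives `rate (-(1+3η) v) ≤ (1+small) rate (-v)`. -/
def S_TC : Prop :=
  ∀ (Q : ℕ), 1 ≤ Q → ∀ ε : ℝ, 0 < ε → ε ≤ 1 / 2 → ∃ η : ℝ, 0 < η ∧ η ≤ 1 ∧ ∀ᶠ X : ℕ in atTop, ∀ q a : ℕ,
    Q ∣ q → Nat.Coprime a Q → q ≤ 4 * a → a < q → (X : ℝ) ^ ε ≤ q → (q : ℝ) * Real.log X ^ (1 + ε) ≤ X →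
    ∀ (Ω : Type) [MeasurableSpace Ω] (μ : Measure Ω) [IsProbabilityMeasure μ] (A : Ω → Set ℕ),
      IsModel μ (level Q) A →
      (∀ u : ℝ, 0 < u → qq Q * ((X : ℝ) / q) * rate u = 2 * (1 - ε) * Real.log q * Real.log X →
        (q : ℝ) ^ (-(2 - ε)) ≤ μ.real {ω | (1 + (1 + η) * u) * (qq Q * ((X : ℝ) / q)) ≤ psi (A ω) X q a}) ∧
      (∀ v : ℝ, 0 < v → v ≤ 1 - ε → qq Q * ((X : ℝ) / q) * rate (-v) ≤ 2 * (1 - ε) * Real.log q * Real.log X →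
        (v = 1 - ε ∨ qq Q * ((X : ℝ) / q) * rate (-v) = 2 * (1 - ε) * Real.log q * Real.log X) →
        (q : ℝ) ^ (-(2 - ε)) ≤ μ.real {ω | psi (A ω) X q a ≤ (1 - (1 + η) * v) * (qq Q * ((X : ℝ) / q))})

/-! ## Second moments -/

/-- JOB PA (two windows with a common part). PROOF. `C = W1 ∩ W2`, `U_i = W_i \ C`, `S_i = S_{U_i} + S_C`. The event is
contained in `{|S_C - c| > Δ} ∪ ({S_{U_1} ≥ T1 - c - Δ} ∩ {S_{U_2} ≥ T2 - c - Δ})`; the last two events are independent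
(`indep_real`), and `P(S_{U_i} ≥ T_i - c - Δ) (1 - τ) ≤ P(S_{U_i} ≥ T_i - c - Δ, |S_C - c| ≤ Δ) ≤ P(S_i ≥ T_i - 2Δ)`
by independence again. -/
def S_PA : Prop :=
  ∀ (Ω : Type) [MeasurableSpace Ω] (μ : Measure Ω) [IsProbabilityMeasure μ] (p : ℕ → ℝ) (A : Ω → Set ℕ),
    IsModel μ p A → ∀ (W1 W2 : Finset ℕ) (w : ℕ → ℝ) (T1 T2 c Δ τ : ℝ), 0 ≤ Δ → 0 ≤ τ → τ < 1 →
      μ.real {ω | Δ < |sm (A ω) w (W1 ∩ W2) - c|} ≤ τ →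
      μ.real {ω | T1 ≤ sm (A ω) w W1 ∧ T2 ≤ sm (A ω) w W2} ≤
        τ + μ.real {ω | T1 - 2 * Δ ≤ sm (A ω) w W1} * μ.real {ω | T2 - 2 * Δ ≤ sm (A ω) w W2} / (1 - τ) ^ 2

/-- JOB PI (pigeonhole). PROOF. `T_k = T0 + 2Δk`, `0 ≤ k ≤ N`, `F T_N ≥ F (T0+H) ≥ π`. If
`F T_{k-1} > ρ F T_k` for all `1 ≤ k ≤ N`, `ρ = π^{-1/N}`, then `1 ≥ F T_0 > ρ^N F T_N ≥ ρ^N π = 1`. -/
def S_PI : Prop :=
  ∀ F : ℝ → ℝ, Antitone F → (∀ t, F t ≤ 1) → ∀ (T0 H Δ π : ℝ) (N : ℕ), 0 ≤ Δ → 0 < π → 1 ≤ N →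
    2 * Δ * N ≤ H → π ≤ F (T0 + H) →
    ∃ T : ℝ, T0 ≤ T ∧ T ≤ T0 + H ∧ F (T - 2 * Δ) ≤ π ^ (-(1 / (N : ℝ))) * F T ∧ π ≤ F T

/-- JOB SE (second moment method with weights). PROOF. `Z = ∑_{i ∈ I} 1_{E_i}/P(E_i)`, `E Z = #I`,
`Var Z ≤ ∑_i 1/P(E_i) + #Dep (R - 1) ≤ #I/π0 + #Dep (R-1)`, and `P(Z = 0) ≤ Var Z/(E Z)²` (Chebyshev). -/
def S_SE : Prop :=
  ∀ (Ω : Type) [MeasurableSpace Ω] (μ : Measure Ω) [IsProbabilityMeasure μ] (ι : Type) [DecidableEq ι]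
    (I : Finset ι) (E : ι → Set Ω) (Dep : Finset (ι × ι)) (π0 R : ℝ), I.Nonempty → (∀ i ∈ I, MeasurableSet (E i)) →
    0 < π0 → 1 ≤ R → (∀ i ∈ I, π0 ≤ μ.real (E i)) →
    (∀ i ∈ I, ∀ j ∈ I, i ≠ j → (i, j) ∉ Dep → μ.real (E i ∩ E j) ≤ μ.real (E i) * μ.real (E j)) →
    (∀ i ∈ I, ∀ j ∈ I, i ≠ j → (i, j) ∈ Dep → μ.real (E i ∩ E j) ≤ R * (μ.real (E i) * μ.real (E j))) →
    μ.real {ω | ∀ i ∈ I, ω ∉ E i} ≤ 1 / (I.card * π0) + Dep.card / (I.card : ℝ) ^ 2 * (R - 1)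

/-- JOB SM (assembly of `S_PA`, `S_PI`, `S_SE`). PROOF. For `i ∈ I` apply `S_PI` to `F t = P(S_i ≥ t)`,
`S_i = sm (A ω) w (W i)`: `T_i ∈ [T i, T i + H i]` with `F(T_i - 2Δ) ≤ ρ F(T_i)`, `ρ = π0^{-1/N} ≥ 1`,
`F(T_i) ≥ π0`. Events `E_i = {S_i ≥ T_i}`. Disjoint windows: independent. For pairs in `Dep`, `S_PA` gives
`P(E_i ∩ E_j) ≤ τ + ρ² P(E_i)P(E_j)/(1-τ)² ≤ R P(E_i) P(E_j)`, `R = τ/π0² + ρ²/(1-τ)²`. Now `S_SE`; the event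
`∀ i, S_i < T i` is contained in `∀ i, ω ∉ E_i`. -/
def S_SM : Prop :=
  ∀ (Ω : Type) [MeasurableSpace Ω] (μ : Measure Ω) [IsProbabilityMeasure μ] (p : ℕ → ℝ) (A : Ω → Set ℕ),
    IsModel μ p A → ∀ (ι : Type) [DecidableEq ι] (I : Finset ι) (W : ι → Finset ℕ) (w : ℕ → ℝ) (T H : ι → ℝ)
      (Dep : Finset (ι × ι)) (Δ τ π0 : ℝ) (N : ℕ), I.Nonempty → 0 ≤ Δ → 0 ≤ τ → τ ≤ 1 / 2 → 0 < π0 → π0 ≤ 1 →
      1 ≤ N → (∀ i ∈ I, 2 * Δ * N ≤ H i) → (∀ i ∈ I, π0 ≤ μ.real {ω | T i + H i ≤ sm (A ω) w (W i)}) →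
      (∀ i ∈ I, ∀ j ∈ I, i ≠ j → (i, j) ∉ Dep → Disjoint (W i) (W j)) →
      (∀ i ∈ I, ∀ j ∈ I, i ≠ j → (i, j) ∈ Dep → ∃ c : ℝ, μ.real {ω | Δ < |sm (A ω) w (W i ∩ W j) - c|} ≤ τ) →
      μ.real {ω | ∀ i ∈ I, sm (A ω) w (W i) < T i} ≤
        1 / (I.card * π0) + Dep.card / (I.card : ℝ) ^ 2 * (π0 ^ (-(2 / (N : ℝ))) / (1 - τ) ^ 2 + τ / π0 ^ 2 - 1)

/-- The indices `(l, b)` of the classes of `1 + Q b` modulo `Q l`: `l` a prime in `(2^k/8, 2^k]` (`pk k`, file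
`Q120/GM/APPrimes.lean`), `l/2 ≤ b < l`, `l` not a divisor of `1 + Q b`. -/
def idx (Q k : ℕ) : Finset (ℕ × ℕ) :=
  (pk k ×ˢ range (2 ^ k)).filter (fun i => Q < i.1 ∧ i.1 / 2 ≤ i.2 ∧ i.2 < i.1 ∧ ¬ i.1 ∣ 1 + Q * i.2)

/-- The elements `n ≤ X` of the class with index `i`. -/
def win (Q X : ℕ) (i : ℕ × ℕ) : Finset ℕ := cls X (Q * i.1) (1 + Q * i.2)

/-- JOB ID (counting). PROOF. Simple facts: for `i = (l, b)` in `idx Q k`, `q = Q l`, `a = 1 + Q b` is `< q` and coprime to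
`q`, `q ≤ 4a` (`4 (1 + Q b) ≥ 4 + 4Q (l-1)/2 ≥ Q l`). Number of indices: for large `k` all `l ∈ pk k` are `> Q`, and
for each `l` there are at least `l/2 - 1 ≥ l/4 ≥ 2^k/32` values of `b` (at most one is excluded,
`Q112/BT/Mods.lean: card_res` has this argument), and `#pk k ≥ 2^k/(2 k log 2) ≥ 2^k/(2k)` (`card_pk`), so
`#idx ≥ #pk · 2^k/32 ≥ 4^k/(64 k)`.
`Dep` = the pairs of different indices in `idx` whose windows meet. Same `l`: disjoint. For `l ≠ l'` every `n ≤ X`,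
`n = 1 + Q m`, lies in exactly one window for `l` and one for `l'`, so at most `X/Q + 1` pairs `(b, b')`; so
`#Dep ≤ (#pk)² (X/Q + 1) ≤ 1024 (X/Q + 1)/4^k · (#idx)²`. Intersections: `l ≠ l'` primes, both `> Q`, so
the numbers in both classes lie in one class modulo `Q l l'`. -/
def S_ID : Prop :=
  ∀ Q : ℕ, 1 ≤ Q → ∀ᶠ k : ℕ in atTop,
    (∀ i ∈ idx Q k, 1 + Q * i.2 < Q * i.1 ∧ Nat.Coprime (1 + Q * i.2) (Q * i.1) ∧ Q * i.1 ≤ 4 * (1 + Q * i.2) ∧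
      (2 : ℝ) ^ k / 8 < i.1 ∧ (i.1 : ℝ) ≤ 2 ^ k) ∧
    (4 : ℝ) ^ k / (64 * k) ≤ (idx Q k).card ∧
    ∀ X : ℕ, 1 ≤ X →
      (∃ Dep : Finset ((ℕ × ℕ) × (ℕ × ℕ)),
        (∀ i ∈ idx Q k, ∀ j ∈ idx Q k, i ≠ j → (i, j) ∉ Dep → Disjoint (win Q X i) (win Q X j)) ∧
        (Dep.card : ℝ) ≤ ((idx Q k).card : ℝ) ^ 2 ∧
        (Dep.card : ℝ) ≤ 2000 * (X / Q + 1) / 4 ^ k * ((idx Q k).card : ℝ) ^ 2) ∧
      ∀ i ∈ idx Q k, ∀ j ∈ idx Q k, i ≠ j → ((win Q X i ∩ win Q X j).card : ℝ) ≤ X / (Q * i.1 * j.1) + 1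

/-- JOB SX (second moments for classes, from `S_SM`, `S_CH`, `S_RT`, `S_ID`).
PROOF. `L = log X`, `K = qq Q`, `w n = σ log n`, `π0 = (Q 2^k)^{-(2-ε)}`, `I = idx Q k`, `W i = win Q X i`.
`#I π0 ≥ 4^k/(64k) (Q 2^k)^{-2+ε} ≥ Q^{-2} 2^{εk}/(64k) ≥ X^{ε²}` for large `X` (`2^k ≥ X^{2ε}`, so `k → ∞` too).
REGIME 1, `2^k ≥ X^{3/4}`. Two windows have at most one common element (two would differ by a multiple of
`Q l l' ≥ Q 4^k/64 > X`), so with `c = 0`, `Δ = L`, `τ = 0`: `|sm ... (W i ∩ W j)| ≤ L`. `N = ⌊L^{ε/4}/2⌋ → ∞`,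
`2 Δ N ≤ L^{1+ε/4} ≤ H`. `π0^{-2/N} ≤ (Q X)^{4/N} ≤ X^{1/10}` for large `X`. `#Dep/#I² ≤ 2000 (X/Q+1)/4^k ≤ 4000 X^{-1/2}`.
So by `S_SM` the probability is `≤ X^{-ε²} + 4000 X^{-1/2} X^{1/10}`.
REGIME 2, `2^k < X^{3/4}`. `|W i ∩ W j| ≤ s := X/(Q l l') + 1`, `Λ = K s`, `Δ = 40 L² + 40 L √Λ` (for this pair; use
the upper bound `Δ = 40 L² + 40 L √(K (64 X/4^k + 1))` for all pairs, which is `≥` it), `c = E S_C`. `S_CH` with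
`D = Δ` (for `σ = 1` and both tails; `σ = -1` is the same): `P(S_C - E S_C > Δ) ≤ exp(-(Λ/L) rate(Δ/Λ)) ≤ exp (-Δ²/(L (2Λ + Δ)))`
by (7) of `S_RT`, `Δ²/(2Λ+Δ) ≥ min (Δ²/(4Λ), Δ/2) ≥ 20 L²`; so `≤ X^{-20}`. Lower tail: if `Δ ≥ Λ` it is empty as
`E S_C ≤ Λ`, otherwise `exp (-(Λ/L) rate(-Δ/Λ)) ≤ exp (-Δ²/(2ΛL)) ≤ X^{-20}`. (If the intersection is empty everything is
trivial; `Λ > 0` anyway.) `τ = 2 X^{-20}`. `H ≥ κ L √(X/2^k)`, and `Δ ≤ C (L² + L √(X/4^k))`, so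
`H/(2Δ) ≥ c min (√(X/2^k)/L, √(2^k)) ≥ X^{c'}` (as `X/2^k ≥ X^{1/4}`, `2^k ≥ X^{2ε}`): `N = ⌊X^{c'}⌋`,
`π0^{-2/N} ≤ exp (4 log (Q X)/N) ≤ 1 + X^{-c'/2}`, `τ/π0² ≤ X^{-10}`, `#Dep ≤ #I²`: the probability is `≤ X^{-c}`.
(`2^k ≤ X`, `Q` fixed.) -/
def S_SX : Prop :=
  ∀ Q : ℕ, 1 ≤ Q → ∀ ε κ : ℝ, 0 < ε → ε ≤ 1 / 2 → 0 < κ → ∃ c : ℝ, 0 < c ∧ ∀ᶠ X : ℕ in atTop, ∀ k : ℕ,
    (X : ℝ) ^ (2 * ε) ≤ 2 ^ k → (Q : ℝ) * 2 ^ k * Real.log X ^ (1 + ε) ≤ X →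
    ∀ (Ω : Type) [MeasurableSpace Ω] (μ : Measure Ω) [IsProbabilityMeasure μ] (A : Ω → Set ℕ),
      IsModel μ (level Q) A → ∀ (σ : ℝ) (T H : ℕ × ℕ → ℝ), (σ = 1 ∨ σ = -1) →
      (∀ i ∈ idx Q k, Real.log X ^ (1 + ε / 4) ≤ H i) →
      ((2 : ℝ) ^ k < (X : ℝ) ^ (3 / 4 : ℝ) → ∀ i ∈ idx Q k, κ * Real.log X * √((X : ℝ) / 2 ^ k) ≤ H i) →
      (∀ i ∈ idx Q k, ((Q : ℝ) * 2 ^ k) ^ (-(2 - ε)) ≤
        μ.real {ω | T i + H i ≤ σ * psi (A ω) X (Q * i.1) (1 + Q * i.2)}) →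
      μ.real {ω | ∀ i ∈ idx Q k, σ * psi (A ω) X (Q * i.1) (1 + Q * i.2) < T i} ≤ (X : ℝ) ^ (-c)

/-- JOB LO (the lower bounds, from `S_TC`, `S_SX`, `S_RT`, `S_ID`).
PROOF. Let `ε' = ε/4 ≤ 1/4`, `X = 2^j`, `L = log X`. For `Y` as in the
statement let `k` be defined by `Q 2^k ≤ Y < Q 2^{k+1}`; then `2^k ≥ Y/(2Q) ≥ X^{ε}/(2Q) ≥ X^{2ε'}` and
`Q 2^k L^{1+ε'} ≤ X`. For `i = (l, b) ∈ idx Q k`: `q = Q l ∈ (Q 2^k/8, Q 2^k] ⊆ (Y/16, Y]`, `q ≥ X^{ε'}`, `a = 1 + Q b`,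
`y = K X/q`, `K = qq Q`. UP: let `u_i > 0` with `y rate u_i = 2 (1-ε') log q L` (6 of `S_RT`), `T i = (1 + u_i) y`,
`H i = η u_i y` with `η` from `S_TC` for `ε'`: the probability hypothesis of `S_SX` (for `ε'`, `σ = 1`) holds, as
`q^{-(2-ε')} ≥ (Q 2^k)^{-(2-ε')}`. Sizes: `y rate u_i ≥ c L²`. If `u_i ≤ 1` then `u_i² y ≥ 2 c L²`, so
`u_i y ≥ √(2c L² y) ≥ c' L^{3/2}` (as `y ≥ L^{1+ε'}`) and `≥ c'' L √(X/2^k)`; if `u_i > 1` then `u_i y ≥ y ≥ K L^{1+ε'}`; this is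
impossible if `2^k < X^{3/4}` and `X` is large (`rate u_i ≤ 2L²/y`). So `S_SX` gives the probability `≤ X^{-c}` that no `i ∈ idx Q k` has
`psi ≥ T i`. DOWN: `v_i ∈ (0, 1-ε']` with `v_i = 1 - ε'` if `y rate (-(1-ε')) ≤ 2(1-ε') log q L`, and otherwise
`y rate(-v_i) = 2 (1-ε') log q L`; `σ = -1`, `T i = -(1-v_i) y`, `H i = η v_i y`; sizes in the same way (`rate(-v) ≤ v²`; if `v_i = 1-ε'` then
`v_i y ≥ y/2`, and `y ≥ L √y · ...` when `2^k < X^{3/4}`).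
The number of `k` for one `X = 2^j` is at most `j`, so the sum of the probabilities over `j` and `k` converges (`summable_two_pow`, `bc`) and
almost surely for all large `j` and all those `k` there is `i` with `psi ≥ T i` (resp. `-psi ≥ T i`). For `u > 0` with
`y rate u ≤ (1-ε) 2 log q L ≤ y rate u_i` we have `u ≤ u_i` by monotonicity; the same for `v ≤ 1 - ε < 1-ε'`. -/
def S_LO : Prop :=
  ∀ (Ω : Type) [MeasurableSpace Ω] (μ : Measure Ω) [IsProbabilityMeasure μ] (A : Ω → Set ℕ) (Q : ℕ), 1 ≤ Q →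
    IsModel μ (level Q) A → ∀ ε : ℝ, 0 < ε → ε < 1 → ∀ᵐ ω ∂μ, ∀ᶠ j : ℕ in atTop, ∀ Y : ℝ,
      ((2 : ℝ) ^ j) ^ ε ≤ Y → Y * Real.log ((2 : ℝ) ^ j) ^ (1 + ε) ≤ 2 ^ j →
      (∃ q a : ℕ, Y / 16 ≤ q ∧ (q : ℝ) ≤ Y ∧ Q ∣ q ∧ a < q ∧ Nat.Coprime a q ∧ ∀ u : ℝ, 0 < u →
        qq Q * ((2 : ℝ) ^ j / q) * rate u ≤ (1 - ε) * (2 * Real.log q) * Real.log ((2 : ℝ) ^ j) →
        (1 + u) * (qq Q * ((2 : ℝ) ^ j / q)) ≤ psi (A ω) (2 ^ j) q a) ∧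
      (∃ q a : ℕ, Y / 16 ≤ q ∧ (q : ℝ) ≤ Y ∧ Q ∣ q ∧ a < q ∧ Nat.Coprime a q ∧ ∀ v : ℝ, 0 < v → v ≤ 1 - ε →
        qq Q * ((2 : ℝ) ^ j / q) * rate (-v) ≤ (1 - ε) * (2 * Real.log q) * Real.log ((2 : ℝ) ^ j) →
        psi (A ω) (2 ^ j) q a ≤ (1 - v) * (qq Q * ((2 : ℝ) ^ j / q)))

/-- JOB EX (the extreme error, from `S_SE`, `S_ID`).
PROOF. Let `0 < ε ≤ 1`, `0 < δ` small, `X = 2^j`, `t = ⌈(2-δ) log X/loglog X⌉`, and `k` with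
`Q 2^k t ≤ X < 2 Q 2^k t`. Events `E_i`, `i = (l, b) ∈ idx Q k`: the `t` numbers `1 + Q (b + l s)`, `s < t` (the first `t` elements of
the class of `1 + Q b` modulo `Q l`) all lie in `A`. They are coprime to `Q` and `≤ Q l t ≤ X`, so
`P(E_i) ≥ (qq Q/log X)^t ≥ exp (-t loglog X) ≥ π0 := X^{-2+δ/2}` for large `X` (`real_all`; `min 1 (qq Q/log n) ≥ qq Q/log X`
as soon as `qq Q ≤ log X`). `#idx ≥ 4^k/(64k) ≥ X^{2-δ/4}`. Different `i, j` with the same `l`: disjoint, independent. Different `l`: at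
most one common number (`t ≤ l`), so `P(E_i ∩ E_j) = P(E_i)P(E_j)/p ≤ (log X/qq Q) P(E_i) P(E_j)`, and
`Dep` from `S_ID` has `#Dep ≤ 2000 (X/Q+1)/4^k #I² ≤ X^{-1/2} #I²`. So by `S_SE` the probability of no `E_i` is
`≤ X^{-δ/4} + X^{-1/2} log X`, summable over `X = 2^j`. (`S_PA` is not needed; the two sets `T_i`, `T_j` of numbers: `P(T_i ∪ T_j ⊆ A)` is the
product over the union.)
If `E_i` holds, `q = Q l`, `a = 1 + Q b`, `x = a + q (t-1) ≤ X`: `psi x q a ≥ t log a ≥ t (1-δ) log X` (as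
`a ≥ q/4 ≥ X/(100 Q t)...`), `x/q ≤ t`, `x ≥ q (t-1) ≥ X^{1-ε}`, so `psi - kap x/q ≥ t ((1-δ) log X - Q) ≥ (1-2δ) t log X` (`kap Q q = qq Q ≤ Q`), and
`(1-2δ) t log X ≥ (√2-ε) √t (log X)^{3/2}/√(loglog x)` because `√(t loglog x/log X) ≥ √(2-δ) (1-δ)` and `δ` is small. For a
general large `X` take the largest power of two `≤ X`. (For `ε > 1/2` use the case `ε = 1/2`, which is stronger.) -/
def S_EX : Prop :=
  ∀ (Ω : Type) [MeasurableSpace Ω] (μ : Measure Ω) [IsProbabilityMeasure μ] (A : Ω → Set ℕ) (Q : ℕ), 1 ≤ Q →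
    IsModel μ (level Q) A → ∀ ε : ℝ, 0 < ε → ∀ᵐ ω ∂μ, ∀ᶠ X : ℕ in atTop, ∃ x q a : ℕ,
      (X : ℝ) ^ (1 - ε) ≤ x ∧ x ≤ X ∧ Q ∣ q ∧ 1 ≤ q ∧ q ≤ x ∧ a < q ∧ Nat.Coprime a q ∧
      (√2 - ε) * √((x : ℝ) / q) * Real.log x ^ (3 / 2 : ℝ) / √(Real.log (Real.log x)) ≤
        psi (A ω) x q a - kap Q q * ((x : ℝ) / q)

end Pool.Agent.Q112.ML
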