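import Pool.Agent.Q112.ML.T2U

/-!
# Project ML: moderate deviations of one class in `(X/2^R, X]` (job T2C)
-/

set_option autoImplicit false

namespace Pool.Agent.Q112.ML

open Finset Filter MeasureTheory ProbabilityTheory Pool.Agent.Q120.GM Pool.Agent.Q112.LE
open scoped Topology

/-- Almost surely all elements of the model are coprime to `Q`. -/
theorem ae_cop {Ω : Type} [MeasurableSpace Ω] {μ : Measure Ω} [IsProbabilityMeasure μ] {A : Ω → Set ℕ} {Q : ℕ}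
    (hA : IsModel μ (level Q) A) : ∀ᵐ ω ∂μ, ∀ n ∈ A ω, Nat.Coprime n Q := by
  rw [ae_all_iff]
  intro n
  by_cases hn : Nat.Coprime n Q
  · exact Eventually.of_forall fun ω _ => hn
  · have h1 : μ.real {ω | n ∈ A ω} = 0 := by
      rw [hA.prob n, level, if_neg hn]
    have h2 : μ {ω | n ∈ A ω} = 0 := by
      rwa [Measure.real, ENNReal.toReal_eq_zero_iff, or_iff_left (measure_ne_top μ _)] at h1
    rw [ae_iff]
    refine measure_mono_null (fun ω hω => ?_) h2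
    by_contra h3
    exact hω fun h4 => absurd h4 h3

theorem rate_quad (hRT : S_RT) {r : ℝ} (hr : |r| ≤ 1 / 2) : rate r ≤ r ^ 2 / 2 * (1 + 5 * |r|) := by
  rcases le_or_gt 0 r with h | h
  · have h1 := hRT.1 r h
    have h2 : 0 ≤ r ^ 2 / 2 * (5 * |r|) := by positivity
    nlinarith
  · obtain ⟨v, hv⟩ : ∃ v, v = -r := ⟨_, rfl⟩
    have hv0 : 0 < v := by linarith
    have hrv : r = -v := by linarith
    rw [hrv, abs_neg, abs_of_pos hv0] at hr
    rw [hrv, abs_neg, abs_of_pos hv0]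
    have h1 := Real.abs_log_sub_add_sum_range_le (show |v| < 1 by rw [abs_of_pos hv0]; linarith) 2
    rw [abs_of_pos hv0, sum_range_succ, sum_range_succ, sum_range_zero] at h1
    norm_num at h1
    have h2 := (abs_le.1 h1).2
    have h3 : v ^ 3 / (1 - v) ≤ 2 * v ^ 3 := by
      rw [div_le_iff₀ (by linarith)]
      have : 0 < v ^ 3 := by positivity
      nlinarith
    have h4 : Real.log (1 - v) ≤ -v - v ^ 2 / 2 + 2 * v ^ 3 := by linarith
    have h5 : (1 - v) * Real.log (1 - v) ≤ (1 - v) * (-v - v ^ 2 / 2 + 2 * v ^ 3) :=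
      mul_le_mul_of_nonneg_left h4 (by linarith)
    have h6 : rate (-v) = (1 - v) * Real.log (1 - v) + v := by
      unfold rate
      rw [← sub_eq_add_neg]
      ring
    rw [h6]
    have h7 : 0 < v ^ 4 := by positivity
    nlinarith

theorem exists_eta {ε : ℝ} (hε : 0 < ε) (hε1 : ε ≤ 1 / 2) : ∃ η : ℝ, 0 < η ∧ η < 1 / 10 ∧
    (1 + η) ^ 2 * (1 - ε + 2 * η) ^ 2 < (1 - ε - η) * ((1 - ε / 4) * (1 - η)) := by
  have hc : Continuous fun η : ℝ => (1 + η) ^ 2 * (1 - ε + 2 * η) ^ 2 - (1 - ε - η) * ((1 - ε / 4) * (1 - η)) := by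
    fun_prop
  have h0 : (1 + (0 : ℝ)) ^ 2 * (1 - ε + 2 * 0) ^ 2 - (1 - ε - 0) * ((1 - ε / 4) * (1 - 0)) < 0 := by
    nlinarith
  have h1 := (hc.tendsto 0).eventually (gt_mem_nhds h0)
  obtain ⟨t, ht, h2⟩ := Metric.eventually_nhds_iff.1 h1
  refine ⟨min (t / 2) (1 / 20), by positivity, ?_, ?_⟩
  · have := min_le_right (t / 2) (1 / 20)
    linarith
  · have h3 := @h2 (min (t / 2) (1 / 20)) (by
      rw [Real.dist_eq, sub_zero, abs_of_pos (by positivity)]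
      have := min_le_left (t / 2) (1 / 20)
      linarith)
    linarith

/-- The elements coprime to `Q` of a class in `(X', X]`. -/
def wn (Q X' X q a : ℕ) : Finset ℕ :=
  ((cls X q a).filter (fun n => Nat.Coprime n Q)) \ ((cls X' q a).filter (fun n => Nat.Coprime n Q))

theorem cls_mono {x x' : ℕ} (h : x ≤ x') (q a : ℕ) : cls x q a ⊆ cls x' q a := by
  intro n hn
  simp only [cls, mem_filter, mem_Icc] at hn ⊢
  exact ⟨⟨hn.1.1, hn.1.2.trans h⟩, hn.2⟩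

theorem wn_mem {Q X' X q a n : ℕ} (hn : n ∈ wn Q X' X q a) : Nat.Coprime n Q ∧ X' < n ∧ n ≤ X := by
  unfold wn cls at hn
  obtain ⟨hn1, h5⟩ := Finset.mem_sdiff.1 hn
  obtain ⟨hn2, h4⟩ := Finset.mem_filter.1 hn1
  obtain ⟨hn3, h3⟩ := Finset.mem_filter.1 hn2
  obtain ⟨h1, h2⟩ := Finset.mem_Icc.1 hn3
  refine ⟨h4, ?_, h2⟩
  by_contra h6
  exact h5 (Finset.mem_filter.2 ⟨Finset.mem_filter.2 ⟨Finset.mem_Icc.2 ⟨h1, by omega⟩, h3⟩, h4⟩)

theorem wn_card {Q X' X : ℕ} (h : X' ≤ X) (q a : ℕ) : ((wn Q X' X q a).card : ℝ) =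
    (((cls X q a).filter (fun n => Nat.Coprime n Q)).card : ℝ) -
      (((cls X' q a).filter (fun n => Nat.Coprime n Q)).card : ℝ) := by
  have h1 := card_sdiff_add_card_eq_card (filter_subset_filter (fun n => Nat.Coprime n Q) (cls_mono h q a))
  have h2 : ((wn Q X' X q a).card : ℝ) + (((cls X' q a).filter (fun n => Nat.Coprime n Q)).card : ℝ) =
      (((cls X q a).filter (fun n => Nat.Coprime n Q)).card : ℝ) := by exact_mod_cast h1
  linarith

theorem psi_sub_psi {S : Set ℕ} {Q : ℕ} (hS : ∀ n ∈ S, Nat.Coprime n Q) {X' X : ℕ} (h : X' ≤ X) (q a : ℕ) :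
    psi S X q a - psi S X' q a = sm S (fun n => Real.log n) (wn Q X' X q a) := by
  have h1 : ∀ x : ℕ, psi S x q a = ∑ n ∈ (cls x q a).filter (fun n => Nat.Coprime n Q), Real.log n * ind S n := by
    intro x
    unfold psi sm
    rw [sum_filter_of_ne]
    intro n _ hn
    by_contra h2
    apply hn
    have h3 : n ∉ S := fun h => h2 (hS n h)
    rw [ind, Set.indicator_of_notMem h3, mul_zero]
  have h2 := sum_sdiff (f := fun n : ℕ => Real.log (n : ℝ) * ind S n)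
    (filter_subset_filter (fun n => Nat.Coprime n Q) (cls_mono h q a))
  rw [h1, h1]
  unfold sm wn
  linarith

theorem t2c_a1 {y L s B η M : ℝ} (hy : 0 < y) (hL : 0 < L) (hs0 : 0 ≤ s) (hs : s ≤ 2) (hB0 : 0 < B) (hB : B ≤ 3 * L)
    (h : 96 * 25 * L ^ 2 ≤ η ^ 2 * y) (hM : y / 2 ≤ M) : s ^ 2 * (2 * y * L * B) ≤ (η / 5) ^ 2 * M ^ 2 := by
  have h3 : s ^ 2 ≤ 2 ^ 2 := pow_le_pow_left₀ hs0 hs 2
  have h4 : 2 * y * L * B ≤ 2 * y * L * (3 * L) := mul_le_mul_of_nonneg_left hB (by positivity)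
  have h5 : (y / 2) ^ 2 ≤ M ^ 2 := pow_le_pow_left₀ (by positivity) hM 2
  calc s ^ 2 * (2 * y * L * B) ≤ 2 ^ 2 * (2 * y * L * (3 * L)) := mul_le_mul h3 h4 (by positivity) (by positivity)
    _ = y * (96 * 25 * L ^ 2) / 100 := by ring
    _ ≤ y * (η ^ 2 * y) / 100 := by
      have := mul_le_mul_of_nonneg_left h hy.le
      linarith
    _ = (η / 5) ^ 2 * (y / 2) ^ 2 := by ring
    _ ≤ (η / 5) ^ 2 * M ^ 2 := mul_le_mul_of_nonneg_left h5 (by positivity)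

theorem t2c_a2 {y L s B L0 M : ℝ} (hy : 0 < y) (hL : 0 < L) (hB0 : 0 < B) (hM0 : 0 < M) (hM : M ≤ 2 * y)
    (hs : 1 / 2 ≤ s) (h : L0 * L ≤ B / 4 * L) : L0 * L * M ≤ s ^ 2 * (2 * y * L * B) := by
  have h1 : (1 / 2 : ℝ) ^ 2 ≤ s ^ 2 := pow_le_pow_left₀ (by norm_num) hs 2
  calc L0 * L * M ≤ B / 4 * L * M := mul_le_mul_of_nonneg_right h hM0.le
    _ ≤ B / 4 * L * (2 * y) := mul_le_mul_of_nonneg_left hM (by positivity)
    _ = (1 / 2) ^ 2 * (2 * y * L * B) := by ring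
    _ ≤ s ^ 2 * (2 * y * L * B) := mul_le_mul_of_nonneg_right h1 (by positivity)

theorem t2c_a3 {y L s B η M r d : ℝ} (hη : 0 < η) (hM0 : 0 < M) (hL : 0 < L) (h : rate r ≤ r ^ 2 / 2 * (1 + η))
    (hMr : M * r ^ 2 = s ^ 2 * d ^ 2 / M) (hd : d ^ 2 = 2 * y * L * B) :
    (1 + η) * (M / L) * rate r ≤ (1 + η) ^ 2 * s ^ 2 * (y * B / M) := by
  calc (1 + η) * (M / L) * rate r ≤ (1 + η) * (M / L) * (r ^ 2 / 2 * (1 + η)) :=
        mul_le_mul_of_nonneg_left h (by positivity)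
    _ = (1 + η) ^ 2 * (M * r ^ 2) / (2 * L) := by ring
    _ = (1 + η) ^ 2 * s ^ 2 * (y * B / M) := by
      rw [hMr, hd]
      field_simp

theorem t2c_a4 {y s B η ε M g : ℝ} (hB : 0 < B) (hM0 : 0 < M) (h6 : 0 < (1 - ε / 4) * (1 - η))
    (hg : (1 + η) ^ 2 * s ^ 2 < g * ((1 - ε / 4) * (1 - η))) (hM : (1 - ε / 4) * (1 - η) * y ≤ M) :
    (1 + η) ^ 2 * s ^ 2 * (y * B / M) ≤ g * B := by
  have h5 : y * B / M ≤ B / ((1 - ε / 4) * (1 - η)) := by
    rw [div_le_div_iff₀ hM0 h6]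
    have := mul_le_mul_of_nonneg_left hM hB.le
    linarith
  calc (1 + η) ^ 2 * s ^ 2 * (y * B / M) ≤ (1 + η) ^ 2 * s ^ 2 * (B / ((1 - ε / 4) * (1 - η))) :=
        mul_le_mul_of_nonneg_left h5 (by positivity)
    _ = ((1 + η) ^ 2 * s ^ 2) * (B / ((1 - ε / 4) * (1 - η))) := by ring
    _ ≤ (g * ((1 - ε / 4) * (1 - η))) * (B / ((1 - ε / 4) * (1 - η))) :=
      mul_le_mul_of_nonneg_right hg.le (by positivity)
    _ = g * B := by
      rw [mul_assoc, mul_div_cancel₀ _ h6.ne']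

/-- The deterministic part. -/
theorem t2c_det (hRT : S_RT) {Q : ℕ} (hQ : 1 ≤ Q) {ε η C L0 : ℝ} (hε : 0 < ε) (hε1 : ε ≤ 1 / 2) (hη : 0 < η)
    (hη1 : η < 1 / 10) (hg : (1 + η) ^ 2 * (1 - ε + 2 * η) ^ 2 < (1 - ε - η) * ((1 - ε / 4) * (1 - η))) (hC : 0 < C)
    {R : ℕ} :
    ∀ᶠ X : ℕ in atTop, ∀ q : ℕ, 1 ≤ q → (q : ℝ) ≤ (X : ℝ) ^ (1 - ε) → ∀ M θ : ℝ, 1 - ε / 4 ≤ θ → θ ≤ 1 →
      |M - θ * (kap Q q * ((X : ℝ) / q))| ≤ 2 * C → ∀ r : ℝ, |r| = (1 - ε + 2 * η) * dv Q X q / M →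
      0 < dv Q X q ∧ 0 < M ∧ 0 < |r| ∧ |r| ≤ 1 / 2 ∧ 2 * C ≤ η / 2 * dv Q X q ∧ L0 ≤ Real.log X ∧
      1 ≤ Real.log X ∧ 2 * (R * Real.log 2) ≤ Real.log X ∧
      L0 * Real.log X ≤ M * min |r| (r ^ 2) ∧
      (1 + η) * (M / Real.log X) * rate r + Real.log 2 ≤ (1 - ε) * (2 * Real.log q + Real.log (Real.log X)) := by
  filter_upwards [tlog1.eventually_ge_atTop (max (max L0 1) (2 * (R * Real.log 2))),
    tlog2.eventually_ge_atTop (max (max (4 * L0) 1) (Real.log 2 / η)),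
    logsq_le (show (0 : ℝ) < 96 * 25 / η ^ 2 by positivity) hε,
    ((tendsto_rpow_atTop hε).comp tendsto_natCast_atTop_atTop).eventually_ge_atTop
      (max (4 * C / η) ((4 * C / η) ^ 2)), eventually_ge_atTop 1] with X hL hl hlog hXε hX1
    q hq hqX M θ hθ hθ1 hM r hr
  obtain ⟨L, hLd⟩ : ∃ L, L = Real.log (X : ℝ) := ⟨_, rfl⟩
  obtain ⟨y, hy⟩ : ∃ y, y = kap Q q * ((X : ℝ) / q) := ⟨_, rfl⟩
  obtain ⟨B, hB⟩ : ∃ B, B = 2 * Real.log q + Real.log (Real.log (X : ℝ)) := ⟨_, rfl⟩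
  obtain ⟨l, hld⟩ : ∃ l, l = Real.log (Real.log (X : ℝ)) := ⟨_, rfl⟩
  obtain ⟨d, hd⟩ : ∃ d, d = dv Q X q := ⟨_, rfl⟩
  have hx1' : (1 : ℝ) ≤ X := by exact_mod_cast hX1
  have hx0 : (0 : ℝ) < X := by linarith
  have hq0 : (0 : ℝ) < q := by exact_mod_cast hq
  have hq1 : (1 : ℝ) ≤ q := by exact_mod_cast hq
  have hqx' : (q : ℝ) ≤ X := hqX.trans (by
    calc (X : ℝ) ^ (1 - ε) ≤ (X : ℝ) ^ (1 : ℝ) := Real.rpow_le_rpow_of_exponent_le hx1' (by linarith)
      _ = X := Real.rpow_one _)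
  have hL1 : 1 ≤ L := by rw [hLd]; exact ((le_max_right _ _).trans (le_max_left _ _)).trans hL
  have hL2 : L0 ≤ L := by rw [hLd]; exact ((le_max_left _ _).trans (le_max_left _ _)).trans hL
  have hL3 : 2 * (R * Real.log 2) ≤ L := by rw [hLd]; exact (le_max_right _ _).trans hL
  have hl1 : 1 ≤ l := by rw [hld]; exact ((le_max_right _ _).trans (le_max_left _ _)).trans hl
  have hl2 : 4 * L0 ≤ l := by rw [hld]; exact ((le_max_left _ _).trans (le_max_left _ _)).trans hl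
  have hl3 : Real.log 2 / η ≤ l := by rw [hld]; exact (le_max_right _ _).trans hl
  have hlq : 0 ≤ Real.log (q : ℝ) := Real.log_nonneg hq1
  have hlqx : Real.log (q : ℝ) ≤ L := by rw [hLd]; exact Real.log_le_log hq0 hqx'
  have hlL : l ≤ L := by
    rw [hld, hLd]
    have := Real.log_le_sub_one_of_pos (show 0 < Real.log (X : ℝ) by linarith)
    linarith
  have hBl : l ≤ B := by rw [hB, ← hld]; linarith
  have hB0 : 0 < B := by linarith
  have hB3 : B ≤ 3 * L := by rw [hB, ← hld]; linarith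
  have hL0' : 0 < L := by linarith
  have hyx : (X : ℝ) ^ ε ≤ y := by
    have h1 : (X : ℝ) ^ ε ≤ (X : ℝ) / q := by
      rw [le_div_iff₀ hq0]
      calc (X : ℝ) ^ ε * q ≤ (X : ℝ) ^ ε * (X : ℝ) ^ (1 - ε) := by gcongr
        _ = X := by rw [← Real.rpow_add hx0]; simp
    have h2 := one_le_kap hQ q
    rw [hy]
    have h3 : (0 : ℝ) ≤ (X : ℝ) / q := by positivity
    nlinarith
  have hy0 : 0 < y := lt_of_lt_of_le (by positivity) hyx
  simp only [Function.comp_apply] at hXε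
  have hy1 : 4 * C / η ≤ y := ((le_max_left _ _).trans hXε).trans hyx
  have hy2 : (4 * C / η) ^ 2 ≤ y := ((le_max_right _ _).trans hXε).trans hyx
  have hy3 : 96 * 25 / η ^ 2 * L ^ 2 ≤ y := by rw [hLd]; exact hlog.trans hyx
  have hd2 : d ^ 2 = 2 * y * L * B := by
    rw [hd, dv, Real.sq_sqrt (by rw [← hy, ← hB, ← hLd]; positivity), ← hy, ← hB, ← hLd]
  have hd0 : 0 < d := by
    rw [hd, dv, Real.sqrt_pos, ← hy, ← hB, ← hLd]
    positivity
  rw [← hy] at hM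
  rw [← hd, ← hB, ← hLd]
  rw [← hd] at hr
  have hC2 : 4 * C ≤ η * y := by
    rw [div_le_iff₀ hη] at hy1
    linarith
  have hMl := (abs_le.1 hM).1
  have hMu := (abs_le.1 hM).2
  have hθ0 : 7 / 8 ≤ θ := by linarith
  have hM1 : (1 - η) * (1 - ε / 4) * y ≤ M := by
    have h1 : (1 - ε / 4) * y ≤ θ * y := by gcongr
    have h2 : 2 * C ≤ η * (1 - ε / 4) * y := by
      have : 0 < η * y := by positivity
      nlinarith
    nlinarith
  have hM2 : M ≤ 2 * y := by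
    have h1 : θ * y ≤ 1 * y := by gcongr
    nlinarith
  have hM3 : y / 2 ≤ M := by
    refine le_trans ?_ hM1
    have h1 : 1 / 2 ≤ (1 - η) * (1 - ε / 4) := by nlinarith
    have h2 : 1 / 2 * y ≤ (1 - η) * (1 - ε / 4) * y := by gcongr
    linarith
  have hM0 : 0 < M := by linarith
  have hs1 : 1 / 2 ≤ 1 - ε + 2 * η := by linarith
  have hs2 : 1 - ε + 2 * η ≤ 2 := by linarith
  obtain ⟨s, hs⟩ : ∃ s, s = 1 - ε + 2 * η := ⟨_, rfl⟩
  rw [← hs] at hr hg hs1 hs2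
  have hrpos : 0 < |r| := by rw [hr]; positivity
  have hrM : |r| * M = s * d := by rw [hr]; field_simp
  have hr2 : r ^ 2 * M ^ 2 = s ^ 2 * d ^ 2 := by
    rw [← sq_abs r, ← mul_pow, hrM, mul_pow]
  have hMr : M * r ^ 2 = s ^ 2 * d ^ 2 / M := by
    rw [eq_div_iff hM0.ne', ← hr2]; ring
  have hrη : |r| ≤ η / 5 := by
    have h1 : 96 * 25 * L ^ 2 ≤ η ^ 2 * y := by
      rw [div_mul_eq_mul_div, div_le_iff₀ (by positivity)] at hy3
      linarith
    have h2 : r ^ 2 * M ^ 2 ≤ (η / 5) ^ 2 * M ^ 2 := by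
      rw [hr2, hd2]
      exact t2c_a1 hy0 hL0' (by linarith) hs2 hB0 hB3 h1 hM3
    have h5 : r ^ 2 ≤ (η / 5) ^ 2 := le_of_mul_le_mul_right h2 (by positivity)
    exact abs_le_of_sq_le_sq h5 (by positivity)
  have hr12 : |r| ≤ 1 / 2 := by linarith
  refine ⟨hd0, hM0, hrpos, hr12, ?_, hL2, hL1, hL3, ?_, ?_⟩
  · have h1 : (4 * C / η) ^ 2 ≤ d ^ 2 := by
      rw [hd2]
      refine hy2.trans ?_
      have h2 : 1 ≤ L * B := by nlinarith
      nlinarith
    have h2 := abs_le_of_sq_le_sq' h1 hd0.le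
    have h3 := h2.2
    rw [div_le_iff₀ hη] at h3
    linarith
  · have h1 : min |r| (r ^ 2) = r ^ 2 := by
      apply min_eq_right
      rw [← sq_abs]
      nlinarith
    rw [h1, hMr, le_div_iff₀ hM0]
    have h2 : L0 * L ≤ B / 4 * L := by
      apply mul_le_mul_of_nonneg_right _ hL0'.le
      linarith
    rw [hd2]
    exact t2c_a2 hy0 hL0' hB0 hM0 hM2 hs1 h2
  · have h1 := rate_quad hRT hr12
    have h2 : rate r ≤ r ^ 2 / 2 * (1 + η) := by
      refine h1.trans ?_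
      gcongr
      linarith
    have h3 : (1 + η) * (M / L) * rate r ≤ (1 + η) ^ 2 * s ^ 2 * (y * B / M) :=
      t2c_a3 hη hM0 hL0' h2 hMr hd2
    have h4 : (1 + η) ^ 2 * s ^ 2 * (y * B / M) ≤ (1 - ε - η) * B :=
      t2c_a4 hB0 hM0 (by apply mul_pos <;> linarith) hg (by linarith)
    have h7 : Real.log 2 ≤ η * B := by
      rw [div_le_iff₀ hη] at hl3
      nlinarith
    linarith

theorem t2c : S_TL → S_MN → S_RT → S_T2C := by
  intro hTL hMN hRT Q hQ ε hε hε1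
  obtain ⟨η, hη, hη1, hg⟩ := exists_eta hε hε1
  obtain ⟨C, hC, hmn⟩ := hMN Q hQ
  obtain ⟨R0, hR0⟩ : ∃ R0 : ℕ, (1 / 2 : ℝ) ^ R0 < ε / 4 := exists_pow_lt_of_lt_one (by positivity) (by norm_num)
  refine ⟨R0, fun R hR => ⟨η, hη, ?_⟩⟩
  have hR1 : (1 / 2 : ℝ) ^ R ≤ ε / 4 :=
    (pow_le_pow_of_le_one (by norm_num) (by norm_num) hR).trans hR0.le
  obtain ⟨c0, hc0, htl⟩ := hTL Q hQ (1 / 2) (η / 6) (by norm_num) (by norm_num) (by positivity) (by linarith)
  obtain ⟨L0, hL0, htl⟩ := htl ((R + 1) * Real.log 2) (by positivity)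
  filter_upwards [t2c_det hRT hQ (L0 := L0) hε hε1 hη hη1 hg hC (R := R), eventually_ge_atTop (2 ^ R)] with X hdet
    hXR hdvd q a hq hqX hgcd Ω _ μ _ A hA σ hσ
  obtain ⟨X', hX'⟩ := hdvd
  have hXX : X / 2 ^ R = X' := by
    rw [hX']
    exact Nat.mul_div_cancel_left X' (by positivity)
  have hX'1 : 1 ≤ X' := by
    rcases Nat.eq_zero_or_pos X' with h | h
    · rw [h, mul_zero] at hX'
      have : 0 < 2 ^ R := by positivity
      omega
    · exact h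
  have hX'0 : (0 : ℝ) < X' := by exact_mod_cast hX'1
  have hXr : (X : ℝ) = 2 ^ R * X' := by rw [hX']; push_cast; ring
  have hX0 : (0 : ℝ) < X := by rw [hXr]; positivity
  have hX'r : (X' : ℝ) = (1 / 2) ^ R * X := by
    rw [hXr, ← mul_assoc, ← mul_pow]
    norm_num
  have hX'X : X' ≤ X := by
    rw [hX']
    have : 1 ≤ 2 ^ R := Nat.one_le_two_pow
    nlinarith
  rw [hXX]
  have hq0 : (0 : ℝ) < q := by exact_mod_cast hq
  obtain ⟨θ, hθ⟩ : ∃ θ : ℝ, θ = 1 - (1 / 2) ^ R := ⟨_, rfl⟩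
  have hθ1 : 1 - ε / 4 ≤ θ := by rw [hθ]; linarith
  have hθ2 : θ ≤ 1 := by
    rw [hθ]
    have : (0 : ℝ) < (1 / 2) ^ R := by positivity
    linarith
  have hmean : kap Q q * (((X : ℝ) - X') / q) = θ * (kap Q q * ((X : ℝ) / q)) := by
    rw [hX'r, hθ]; ring
  obtain ⟨M, hM⟩ : ∃ M, M = qq Q * (wn Q X' X q a).card := ⟨_, rfl⟩
  have hMC : |M - θ * (kap Q q * ((X : ℝ) / q))| ≤ 2 * C := by
    have h1 := (hmn X q a hq hgcd).2
    have h2 := (hmn X' q a hq hgcd).2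
    rw [← hmean, hM, wn_card hX'X]
    have h3 : qq Q * ((((cls X q a).filter (fun n => Nat.Coprime n Q)).card : ℝ) -
        (((cls X' q a).filter (fun n => Nat.Coprime n Q)).card : ℝ)) - kap Q q * (((X : ℝ) - X') / q) =
        (qq Q * (((cls X q a).filter (fun n => Nat.Coprime n Q)).card : ℝ) - kap Q q * ((X : ℝ) / q)) -
        (qq Q * (((cls X' q a).filter (fun n => Nat.Coprime n Q)).card : ℝ) - kap Q q * ((X' : ℝ) / q)) := by ring
    rw [h3]
    refine (abs_sub _ _).trans ?_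
    linarith
  have hσ1 : |σ| = 1 := by rcases hσ with h | h <;> rw [h] <;> norm_num
  have hσ2 : σ * σ = 1 := by rcases hσ with h | h <;> rw [h] <;> norm_num
  obtain ⟨t, ht⟩ : ∃ t, t = (1 - ε + 2 * η) * dv Q X q / M := ⟨_, rfl⟩
  have ht0' : 0 ≤ t := by
    by_cases hMn : 0 ≤ M
    · rw [ht]
      have : 0 ≤ dv Q X q := Real.sqrt_nonneg _
      have h2 : 0 ≤ 1 - ε + 2 * η := by linarith
      positivity
    · exfalso
      apply hMn
      rw [hM]
      exact mul_nonneg (qq_pos hQ).le (Nat.cast_nonneg _)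
  have hrt : |σ * t| = t := by rw [abs_mul, hσ1, one_mul, abs_of_nonneg ht0']
  obtain ⟨hd0, hM0, hr0, hr12, hC2, hLL0, hL1, hLR, hmin, hcost⟩ :=
    hdet q hq hqX M θ hθ1 hθ2 hMC (σ * t) (by rw [hrt, ht])
  rw [hrt] at hr0 hr12 hmin
  have hne : σ * t ≠ 0 := by
    intro h
    rw [h, abs_zero] at hrt
    linarith
  have hlogX' : Real.log X' = Real.log X - R * Real.log 2 := by
    rw [hXr, Real.log_mul (by positivity) hX'0.ne', Real.log_pow]
    ring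
  have hlow : ∀ n ∈ wn Q X' X q a, Real.log X - R * Real.log 2 < Real.log n := by
    intro n hn
    rw [← hlogX']
    exact Real.log_lt_log hX'0 (by exact_mod_cast (wn_mem hn).2.1)
  have hp := htl Ω μ A hA (wn Q X' X q a) (Real.log X) (σ * t) hLL0 (fun n hn => by
      obtain ⟨h1, h2, h3⟩ := wn_mem hn
      refine ⟨h1, ?_, Real.log_le_log (by exact_mod_cast (by omega : 0 < n)) (by exact_mod_cast h3)⟩
      have := hlow n hn
      linarith)
    (by
      rw [filter_false_of_mem]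
      · rw [card_empty, Nat.cast_zero]
        exact mul_nonneg hc0.le (Nat.cast_nonneg _)
      · intro n hn
        have h1 := hlow n hn
        have h2 : 0 < Real.log 2 := Real.log_pos (by norm_num)
        push Not
        nlinarith)
    (by
      have h1 : |σ * t| ≤ 1 / 2 := by rw [hrt]; exact hr12
      have := (abs_le.1 h1).1
      linarith)
    (by
      have h1 : |σ * t| ≤ 1 / 2 := by rw [hrt]; exact hr12
      have h2 := (abs_le.1 h1).2
      have h3 : (1 : ℝ) ≤ Real.log X ^ (1 - (1 / 2 : ℝ)) := Real.one_le_rpow hL1 (by norm_num)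
      linarith)
    hne
    (by rw [hrt, ← hM]; exact hmin)
  rw [← hM, hrt] at hp
  have hlhs : Real.exp (-((1 - ε) * (2 * Real.log q + Real.log (Real.log X)))) ≤
      Real.exp (-((1 + 3 * (η / 6) / (1 / 2)) * (M / Real.log X) * rate (σ * t))) / 2 := by
    have h1 : (2 : ℝ) = Real.exp (Real.log 2) := (Real.exp_log (by norm_num)).symm
    have h2 : Real.exp (-((1 + 3 * (η / 6) / (1 / 2)) * (M / Real.log X) * rate (σ * t))) / 2 =
        Real.exp (-((1 + 3 * (η / 6) / (1 / 2)) * (M / Real.log X) * rate (σ * t)) - Real.log 2) := by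
      rw [Real.exp_sub, Real.exp_log (by norm_num)]
    rw [h2]
    apply Real.exp_le_exp.2
    have h3 : (1 + 3 * (η / 6) / (1 / 2)) * (M / Real.log X) * rate (σ * t) =
        (1 + η) * (M / Real.log X) * rate (σ * t) := by ring
    rw [h3]
    linarith
  refine hlhs.trans (hp.trans ?_)
  refine ENNReal.toReal_mono (measure_ne_top μ _) (measure_mono_ae ?_)
  filter_upwards [ae_cop hA] with ω hω hS
  have hS' : |sm (A ω) (fun n => Real.log n) (wn Q X' X q a) - (1 + σ * t) * M| ≤ η / 6 * t * M := hS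
  show (1 - ε + η) * dv Q X q ≤ σ * incr (A ω) Q X' X q a
  have htM : t * M = (1 - ε + 2 * η) * dv Q X q := by rw [ht]; field_simp
  unfold incr
  rw [psi_sub_psi hω hX'X, hmean]
  obtain ⟨s, hs⟩ : ∃ s, s = sm (A ω) (fun n => Real.log n) (wn Q X' X q a) := ⟨_, rfl⟩
  rw [← hs] at hS' ⊢
  obtain ⟨m, hm⟩ : ∃ m, m = θ * (kap Q q * ((X : ℝ) / q)) := ⟨_, rfl⟩
  rw [← hm] at hMC ⊢
  obtain ⟨d, hd⟩ : ∃ d, d = dv Q X q := ⟨_, rfl⟩
  rw [← hd] at htM hC2 hd0 ⊢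
  have e1 : σ * (s - m) = σ * (s - (1 + σ * t) * M) + t * M + σ * (M - m) := by
    linear_combination (t * M) * hσ2
  have e2 : -(η / 6 * t * M) ≤ σ * (s - (1 + σ * t) * M) := by
    have h1 : |σ * (s - (1 + σ * t) * M)| ≤ η / 6 * t * M := by rw [abs_mul, hσ1, one_mul]; exact hS'
    exact (abs_le.1 h1).1
  have e3 : -(2 * C) ≤ σ * (M - m) := by
    have h1 : |σ * (M - m)| ≤ 2 * C := by rw [abs_mul, hσ1, one_mul]; exact hMC
    exact (abs_le.1 h1).1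
  rw [e1]
  have e4 : η / 6 * t * M = η / 6 * ((1 - ε + 2 * η) * d) := by rw [← htM]; ring
  rw [e4] at e2
  have e5 : η / 6 * ((1 - ε + 2 * η) * d) ≤ η / 6 * (2 * d) := by
    have : 1 - ε + 2 * η ≤ 2 := by linarith
    gcongr
  rw [htM]
  nlinarith

end Pool.Agent.Q112.ML
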