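import Pool.Agent.Q112.ML.T2X
import Pool.Agent.Q65.ML.PA
import Pool.Agent.Q120.GM.Often

/-!
# Project ML: the lower bound for moduli of every size (job T2L)
-/

set_option autoImplicit false

namespace Pool.Agent.Q112.ML

open Finset Filter MeasureTheory ProbabilityTheory Pool.Agent.Q120.GM Pool.Agent.Q112.LE Pool.Agent.Q65.ML
open scoped Topology

/-- The numbers in `(X', X]`. -/
def sw (X' X : ℕ) : Set ℕ := {n | X' < n ∧ n ≤ X}

theorem wd_mem {X' X q a n : ℕ} (hn : n ∈ wd X' X q a) : n ∈ sw X' X := by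
  unfold wd cls at hn
  obtain ⟨hn2, h5⟩ := Finset.mem_sdiff.1 hn
  obtain ⟨hn3, h3⟩ := Finset.mem_filter.1 hn2
  obtain ⟨h1, h2⟩ := Finset.mem_Icc.1 hn3
  refine ⟨?_, h2⟩
  by_contra h6
  exact h5 (Finset.mem_filter.2 ⟨Finset.mem_Icc.2 ⟨h1, by omega⟩, h3⟩)

theorem incr_F {Ω : Type} [MeasurableSpace Ω] (A : Ω → Set ℕ) {Q X' X : ℕ} (h : X' ≤ X) (q a : ℕ) (σ t : ℝ) :
    MeasurableSet[F A (sw X' X)] {ω | t ≤ σ * incr (A ω) Q X' X q a} := by
  have h1 : {ω | t ≤ σ * incr (A ω) Q X' X q a} =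
      {ω | t + σ * (kap Q q * (((X : ℝ) - X') / q)) ≤ sm (A ω) (fun n => σ * Real.log n) (wd X' X q a)} := by
    ext ω
    show t ≤ σ * incr (A ω) Q X' X q a ↔
      t + σ * (kap Q q * (((X : ℝ) - X') / q)) ≤ sm (A ω) (fun n => σ * Real.log n) (wd X' X q a)
    rw [sm_wd _ _ h]
    unfold incr
    constructor <;> intro h2 <;> linarith
  rw [h1]
  exact ge_F _ _ _ fun n hn => wd_mem hn

theorem dv_step {Q : ℕ} (hQ : 1 ≤ Q) {X' X q R : ℕ} {e : ℝ} (he : 0 ≤ e) (hR : (1 / 2 : ℝ) ^ R ≤ e ^ 2)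
    (hX : (X : ℝ) = 2 ^ R * X') (hX' : 1 ≤ Real.log (X' : ℝ)) (hq : 1 ≤ q) : dv Q X' q ≤ e * dv Q X q := by
  have hq0 : (0 : ℝ) < q := by exact_mod_cast hq
  have hlq : 0 ≤ Real.log (q : ℝ) := Real.log_nonneg (by exact_mod_cast hq)
  have hX'0 : (0 : ℝ) < X' := by
    by_contra h
    have h1 : (X' : ℝ) = 0 := le_antisymm (not_lt.1 h) (Nat.cast_nonneg _)
    rw [h1, Real.log_zero] at hX'
    linarith
  have hXX : (X' : ℝ) ≤ X := by
    rw [hX]
    have : (1 : ℝ) ≤ 2 ^ R := one_le_pow₀ (by norm_num)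
    nlinarith
  have hlog : Real.log (X' : ℝ) ≤ Real.log X := Real.log_le_log hX'0 hXX
  have hll : Real.log (Real.log (X' : ℝ)) ≤ Real.log (Real.log X) := Real.log_le_log (by linarith) hlog
  have hll0 : 0 ≤ Real.log (Real.log (X' : ℝ)) := Real.log_nonneg hX'
  have hk := kap_pos hQ q
  have h0 : (X' : ℝ) = (1 / 2) ^ R * X := by
    rw [hX, ← mul_assoc, ← mul_pow]
    norm_num
  have h1 : kap Q q * ((X' : ℝ) / q) ≤ e ^ 2 * (kap Q q * ((X : ℝ) / q)) := by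
    have h2 : 0 ≤ kap Q q * ((X : ℝ) / q) := by positivity
    calc kap Q q * ((X' : ℝ) / q) = (1 / 2) ^ R * (kap Q q * ((X : ℝ) / q)) := by rw [h0]; ring
      _ ≤ e ^ 2 * (kap Q q * ((X : ℝ) / q)) := mul_le_mul_of_nonneg_right hR h2
  unfold dv
  rw [show e * √(2 * (kap Q q * ((X : ℝ) / q)) * Real.log X * (2 * Real.log q + Real.log (Real.log X))) =
    √(e ^ 2 * (2 * (kap Q q * ((X : ℝ) / q)) * Real.log X * (2 * Real.log q + Real.log (Real.log X)))) by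
    rw [Real.sqrt_mul (sq_nonneg e), Real.sqrt_sq he]]
  apply Real.sqrt_le_sqrt
  have h3 : 2 * (kap Q q * ((X' : ℝ) / q)) * Real.log X' ≤ 2 * (e ^ 2 * (kap Q q * ((X : ℝ) / q))) * Real.log X :=
    mul_le_mul (by linarith) hlog (by linarith) (by positivity)
  calc 2 * (kap Q q * ((X' : ℝ) / q)) * Real.log X' * (2 * Real.log q + Real.log (Real.log X')) ≤
      2 * (e ^ 2 * (kap Q q * ((X : ℝ) / q))) * Real.log X * (2 * Real.log q + Real.log (Real.log X)) := by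
        refine mul_le_mul h3 (by linarith) (by linarith) ?_
        have : 0 ≤ Real.log (X : ℝ) := by linarith
        positivity
    _ = _ := by ring

/-- The size of the moduli. -/
noncomputable def kk (Q v : ℕ) : ℕ := Nat.log 2 (v / Q)

theorem kk_bounds {Q v : ℕ} (hQ : 1 ≤ Q) (hv : Q ≤ v) : Q * 2 ^ kk Q v ≤ v ∧ v < 2 * (Q * 2 ^ kk Q v) := by
  have h1 : v / Q ≠ 0 := (Nat.div_pos hv hQ).ne'
  have h2 : 2 ^ kk Q v ≤ v / Q := Nat.pow_log_le_self 2 h1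
  have h3 : v / Q < 2 ^ (kk Q v + 1) := Nat.lt_pow_succ_log_self (by norm_num) _
  constructor
  · calc Q * 2 ^ kk Q v ≤ Q * (v / Q) := Nat.mul_le_mul_left _ h2
      _ ≤ v := Nat.mul_div_le _ _
  · have h4 : v < Q * (v / Q + 1) := by
      have := Nat.lt_mul_div_succ v (show 0 < Q by omega)
      exact this
    calc v < Q * (v / Q + 1) := h4
      _ ≤ Q * 2 ^ (kk Q v + 1) := Nat.mul_le_mul_left _ h3
      _ = 2 * (Q * 2 ^ kk Q v) := by ring

open Classical in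
/-- The events. -/
noncomputable def ev {Ω : Type} (A : Ω → Set ℕ) (Q R : ℕ) (f : ℕ → ℕ) (σ e1 e2 : ℝ) (X : ℕ) : Set Ω :=
  if 2 * (Q : ℝ) * Real.log X ^ e2 ≤ f X then
    {ω | ∃ i ∈ idx Q (kk Q (f X)), (1 - e2) * dv Q X (Q * i.1) ≤
          σ * incr (A ω) Q (X / 2 ^ R) X (Q * i.1) (1 + Q * i.2)}
  else {ω | (1 - e1) * dv Q X (f X) ≤ σ * incr (A ω) Q (X / 2 ^ R) X (f X) 1}

theorem ev_F {Ω : Type} [MeasurableSpace Ω] (A : Ω → Set ℕ) (Q R : ℕ) (f : ℕ → ℕ) (σ e1 e2 : ℝ) (X : ℕ) :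
    MeasurableSet[F A (sw (X / 2 ^ R) X)] (ev A Q R f σ e1 e2 X) := by
  unfold ev
  split_ifs
  · have h1 : {ω | ∃ i ∈ idx Q (kk Q (f X)), (1 - e2) * dv Q X (Q * i.1) ≤
          σ * incr (A ω) Q (X / 2 ^ R) X (Q * i.1) (1 + Q * i.2)} = ⋃ i ∈ idx Q (kk Q (f X)),
          {ω | (1 - e2) * dv Q X (Q * i.1) ≤ σ * incr (A ω) Q (X / 2 ^ R) X (Q * i.1) (1 + Q * i.2)} := by
      ext ω
      simp only [Set.mem_iUnion]
      constructor
      · rintro ⟨i, hi, h⟩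
        exact ⟨i, hi, h⟩
      · rintro ⟨i, hi, h⟩
        exact ⟨i, hi, h⟩
    rw [h1]
    exact Finset.measurableSet_biUnion _ fun i _ => incr_F A (Nat.div_le_self _ _) _ _ _ _
  · exact incr_F A (Nat.div_le_self _ _) _ _ _ _

/-- The probability of the events. -/
theorem ev_prob (hT2C : S_T2C) (hT2X : S_T2X) {Q : ℕ} (hQ : 1 ≤ Q) {δ e1 : ℝ} (he1 : 0 < e1) (he12 : e1 ≤ 1 / 2)
    (he1δ : e1 ≤ δ) {f : ℕ → ℕ} (hf1 : ∀ x, 1 ≤ f x)
    (hf : ∀ᶠ x : ℕ in atTop, (f x : ℝ) ≤ (x : ℝ) ^ (1 - δ)) {σ : ℝ} (hσ : σ = 1 ∨ σ = -1) :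
    ∃ R0 : ℕ, ∀ R : ℕ, R0 ≤ R → ∀ᶠ X : ℕ in atTop, 2 ^ R ∣ X →
      ∀ (Ω : Type) [MeasurableSpace Ω] (μ : Measure Ω) [IsProbabilityMeasure μ] (A : Ω → Set ℕ),
      IsModel μ (level Q) A → Real.log X ^ (-(1 - e1 / 16)) ≤ μ.real (ev A Q R f σ e1 (e1 / 8) X) := by
  obtain ⟨R1, hR1⟩ := hT2C Q hQ e1 he1 he12
  obtain ⟨R2, hR2⟩ := hT2X Q hQ (e1 / 8) (by positivity) (by linarith)
  refine ⟨max R1 R2, fun R hR => ?_⟩
  obtain ⟨η, hη, hC⟩ := hR1 R ((le_max_left _ _).trans hR)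
  have hX := hR2 R ((le_max_right _ _).trans hR)
  have hQ0 : (0 : ℝ) < Q := by exact_mod_cast hQ
  have hQ1 : (1 : ℝ) ≤ Q := by exact_mod_cast hQ
  filter_upwards [hC, hX, hf, tlog1.eventually_ge_atTop 1,
    tlog2.eventually_ge_atTop (16 * Real.log (2 * Q) / e1), eventually_ge_atTop 1] with X hC hX hf hL hl hX1 hdvd
    Ω _ μ _ A hA
  have hX0 : (0 : ℝ) < X := by exact_mod_cast (by omega : 0 < X)
  have hX1' : (1 : ℝ) ≤ X := by exact_mod_cast hX1
  have hL0 : 0 < Real.log (X : ℝ) := by linarith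
  have hpow : ∀ t : ℝ, t ≤ δ → (X : ℝ) ^ (1 - δ) ≤ (X : ℝ) ^ (1 - t) := fun t ht =>
    Real.rpow_le_rpow_of_exponent_le hX1' (by linarith)
  unfold ev
  split_ifs with h
  · have h1 : (1 : ℝ) ≤ Real.log X ^ (e1 / 8) := Real.one_le_rpow hL (by positivity)
    have h2 : Q ≤ f X := by
      have : (Q : ℝ) ≤ f X := by nlinarith
      exact_mod_cast this
    obtain ⟨h3, h4⟩ := kk_bounds hQ h2
    have h3' : (Q : ℝ) * 2 ^ kk Q (f X) ≤ f X := by exact_mod_cast h3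
    have h4' : (f X : ℝ) < 2 * (Q * 2 ^ kk Q (f X)) := by exact_mod_cast h4
    have h5 := hX hdvd (kk Q (f X)) (by
      have h6 : 2 * (Q : ℝ) * Real.log X ^ (e1 / 8) < 2 * Q * 2 ^ kk Q (f X) := by linarith
      exact (lt_of_mul_lt_mul_left h6 (by positivity)).le)
      (h3'.trans (hf.trans (hpow _ (by linarith)))) Ω μ A hA σ hσ
    refine le_trans ?_ h5
    apply Real.rpow_le_rpow_of_exponent_le hL
    linarith
  · push Not at h
    have hfX : (0 : ℝ) < f X := by exact_mod_cast hf1 X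
    have h5 := hC hdvd (f X) 1 (hf1 X) (hf.trans (hpow _ he1δ)) (Nat.gcd_one_left _) Ω μ A hA σ hσ
    refine le_trans ?_ (h5.trans (measureReal_mono ?_))
    · rw [Real.rpow_def_of_pos hL0]
      apply Real.exp_le_exp.2
      have h6 : Real.log (f X : ℝ) ≤ Real.log (2 * Q) + e1 / 8 * Real.log (Real.log X) := by
        have h7 := Real.log_le_log hfX h.le
        rw [Real.log_mul (by positivity) (Real.rpow_pos_of_pos hL0 _).ne', Real.log_rpow hL0] at h7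
        exact h7
      rw [div_le_iff₀ he1] at hl
      have hll : 0 ≤ Real.log (Real.log (X : ℝ)) := Real.log_nonneg hL
      have hlq : 0 ≤ Real.log (2 * (Q : ℝ)) := Real.log_nonneg (by linarith)
      have hlf : 0 ≤ Real.log (f X : ℝ) := Real.log_nonneg (by exact_mod_cast hf1 X)
      nlinarith [mul_nonneg he1.le hll, mul_nonneg he1.le hlf, mul_nonneg (mul_nonneg he1.le he1.le) hll]
    · intro ω hω
      have h6 : (1 - e1 + η) * dv Q X (f X) ≤ σ * incr (A ω) Q (X / 2 ^ R) X (f X) 1 := hω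
      show (1 - e1) * dv Q X (f X) ≤ σ * incr (A ω) Q (X / 2 ^ R) X (f X) 1
      have h7 : 0 ≤ dv Q X (f X) := Real.sqrt_nonneg _
      nlinarith

theorem t2l : S_T2U → S_T2C → S_T2X → S_ID → S_T2L := by
  intro hT2U hT2C hT2X hID Ω _ μ _ A Q hQ hA δ f hδ hδ1 hf1 hf ε σ hε hσ
  have hQ0 : (0 : ℝ) < Q := by exact_mod_cast hQ
  have hQ1 : (1 : ℝ) ≤ Q := by exact_mod_cast hQ
  obtain ⟨e, he⟩ : ∃ e : ℝ, e = min (min ε δ) (1 / 2) := ⟨_, rfl⟩
  have he0 : 0 < e := by rw [he]; positivity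
  have heε : e ≤ ε := by rw [he]; exact (min_le_left _ _).trans (min_le_left _ _)
  have heδ : e ≤ δ := by rw [he]; exact (min_le_left _ _).trans (min_le_right _ _)
  have he2 : e ≤ 1 / 2 := by rw [he]; exact min_le_right _ _
  obtain ⟨R0, hR0⟩ := ev_prob hT2C hT2X hQ (e1 := e / 8) (by positivity) (by linarith) (by linarith) hf1 hf hσ
  obtain ⟨R1, hR1⟩ : ∃ R1 : ℕ, (1 / 2 : ℝ) ^ R1 < (e / 4) ^ 2 := exists_pow_lt_of_lt_one (by positivity) (by norm_num)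
  obtain ⟨R, hR⟩ : ∃ R, R = max (max R0 R1) 1 := ⟨_, rfl⟩
  have hRR0 : R0 ≤ R := by rw [hR]; exact (le_max_left _ _).trans (le_max_left _ _)
  have hRR1 : R1 ≤ R := by rw [hR]; exact (le_max_right _ _).trans (le_max_left _ _)
  have hRR2 : 1 ≤ R := by rw [hR]; exact le_max_right _ _
  have hRe : (1 / 2 : ℝ) ^ R ≤ (e / 4) ^ 2 := (pow_le_pow_of_le_one (by norm_num) (by norm_num) hRR1).trans hR1.le
  have htend : Tendsto (fun j : ℕ => 2 ^ (R * j)) atTop atTop := by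
    have h1 : Tendsto (fun j : ℕ => R * j) atTop atTop := tendsto_id.const_mul_atTop' (by omega)
    exact (tendsto_pow_atTop_atTop_of_one_lt (by norm_num)).comp h1
  have htend' : Tendsto (fun j : ℕ => 2 ^ (R * (j - 1))) atTop atTop :=
    htend.comp (tendsto_sub_atTop_nat 1)
  have hdiv : ∀ j : ℕ, 1 ≤ j → 2 ^ (R * j) = 2 ^ R * 2 ^ (R * (j - 1)) := by
    intro j hj
    rw [← pow_add]
    congr 1
    obtain ⟨m, rfl⟩ := Nat.exists_eq_add_of_le hj
    simp only [Nat.add_sub_cancel_left]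
    ring
  have hdiv2 : ∀ j : ℕ, 1 ≤ j → 2 ^ (R * j) / 2 ^ R = 2 ^ (R * (j - 1)) := by
    intro j hj
    rw [hdiv j hj]
    exact Nat.mul_div_cancel_left _ (by positivity)
  have hoft := often' hA (fun j => sw (2 ^ (R * j) / 2 ^ R) (2 ^ (R * j))) 1 (by
      have h0 : ∀ i j : ℕ, 1 ≤ i → i < j → Disjoint (sw (2 ^ (R * i) / 2 ^ R) (2 ^ (R * i)))
          (sw (2 ^ (R * j) / 2 ^ R) (2 ^ (R * j))) := by
        intro i j hi hij
        rw [Set.disjoint_left]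
        rintro n ⟨_, h2⟩ ⟨h3, _⟩
        rw [hdiv2 j (by omega)] at h3
        have h4 : 2 ^ (R * i) ≤ 2 ^ (R * (j - 1)) :=
          Nat.pow_le_pow_right (by norm_num) (Nat.mul_le_mul_left _ (by omega))
        omega
      intro i j hi hj hij
      rcases lt_or_gt_of_ne hij with h | h
      · exact h0 i j hi h
      · exact (h0 j i hj h).symm)
    (fun j => ev A Q R f σ (e / 8) (e / 8 / 8) (2 ^ (R * j))) (fun j => ev_F _ _ _ _ _ _ _ _)
    (g := fun j => Real.log ((2 ^ (R * j) : ℕ) : ℝ) ^ (-(1 - e / 8 / 16))) (by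
      have hR0' : (0 : ℝ) < R := by exact_mod_cast (by omega : 0 < R)
      have hlog2 : 0 < Real.log 2 := Real.log_pos (by norm_num)
      have h1 : (fun j : ℕ => Real.log ((2 ^ (R * j) : ℕ) : ℝ) ^ (-(1 - e / 8 / 16))) =
          fun j : ℕ => (R * Real.log 2) ^ (-(1 - e / 8 / 16)) * (j : ℝ) ^ (-(1 - e / 8 / 16)) := by
        ext j
        rw [← Real.mul_rpow (by positivity) (Nat.cast_nonneg _)]
        congr 1
        push_cast
        rw [Real.log_pow]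
        push_cast
        ring
      rw [h1, summable_mul_left_iff (by positivity), Real.summable_nat_rpow]
      linarith)
    (by
      filter_upwards [htend.eventually (hR0 R hRR0), eventually_ge_atTop 1] with j hj hj1
      rw [abs_of_nonneg (Real.rpow_nonneg (Real.log_natCast_nonneg _) _)]
      exact hj (by rw [hdiv j hj1]; exact dvd_mul_right _ _) Ω μ A hA)
  filter_upwards [hoft, hT2U Ω μ A Q hQ hA (δ / 2) 1 (by positivity) (by linarith) one_pos] with ω hω hU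
  have hk := k_ev (show 0 < e / 8 / 8 by positivity) (hID Q hQ)
  refine htend.frequently (p := fun x : ℕ => ∃ q a : ℕ, f x ≤ 16 * q ∧ q ≤ f x ∧ a ≤ q ∧ Nat.Coprime a q ∧
    (1 - ε) * dv Q x q ≤ σ * (psi (A ω) x q a - kap Q q * ((x : ℝ) / q))) ?_
  have hpw : ∀ᶠ x : ℕ in atTop, ((2 : ℝ) ^ R) ^ (1 - δ) ≤ (x : ℝ) ^ (δ / 2) :=
    ((tendsto_rpow_atTop (by positivity)).comp tendsto_natCast_atTop_atTop).eventually_ge_atTop _
  refine (hω.and_eventually ((htend'.eventually hU).and ((htend.eventually hk).and ((htend.eventually hf).and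
    ((htend'.eventually (tlog1.eventually_ge_atTop 1)).and ((htend'.eventually hpw).and
      (eventually_ge_atTop 1))))))).mono ?_
  rintro j ⟨hj, hU, hk, hf, hL', hpw, hj1⟩
  obtain ⟨X, hX⟩ : ∃ X, X = 2 ^ (R * j) := ⟨_, rfl⟩
  obtain ⟨X', hX'⟩ : ∃ X', X' = 2 ^ (R * (j - 1)) := ⟨_, rfl⟩
  have hXX' : X = 2 ^ R * X' := by rw [hX, hX', hdiv j hj1]
  have hdd : X / 2 ^ R = X' := by rw [hX, hX', hdiv2 j hj1]
  rw [← hX] at hj hk hf ⊢
  rw [← hX'] at hU hL' hpw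
  have hX'0 : 0 < X' := by rw [hX']; positivity
  have hX'0' : (0 : ℝ) < X' := by exact_mod_cast hX'0
  have hXr : (X : ℝ) = 2 ^ R * X' := by rw [hXX']; push_cast; ring
  -- the common conclusion
  have hkey : ∀ q a : ℕ, 1 ≤ q → q ≤ f X → Nat.gcd a (Nat.gcd q Q) = 1 → ∀ e' : ℝ, e' ≤ e / 8 →
      (1 - e') * dv Q X q ≤ σ * incr (A ω) Q X' X q a →
      (1 - ε) * dv Q X q ≤ σ * (psi (A ω) X q a - kap Q q * ((X : ℝ) / q)) := by
    intro q a hq hqf hg e' he' hinc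
    have hqX : (q : ℝ) ≤ (X' : ℝ) ^ (1 - δ / 2) := by
      have h1 : (q : ℝ) ≤ f X := by exact_mod_cast hqf
      refine h1.trans (hf.trans ?_)
      rw [hXr, Real.mul_rpow (by positivity) hX'0'.le]
      calc ((2 : ℝ) ^ R) ^ (1 - δ) * (X' : ℝ) ^ (1 - δ) ≤ (X' : ℝ) ^ (δ / 2) * (X' : ℝ) ^ (1 - δ) :=
            mul_le_mul_of_nonneg_right hpw (by positivity)
        _ = (X' : ℝ) ^ (1 - δ / 2) := by rw [← Real.rpow_add hX'0']; congr 1; ring
    have h1 := hU q a hq hqX hg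
    have h2 := dv_step hQ (e := e / 4) (by positivity) hRe hXr hL' hq
    have h3 : |σ * (psi (A ω) X' q a - kap Q q * ((X' : ℝ) / q))| ≤ 2 * dv Q X' q := by
      rw [abs_mul]
      have hσ1 : |σ| = 1 := by rcases hσ with h | h <;> rw [h] <;> norm_num
      rw [hσ1, one_mul]
      linarith
    have h4 := (abs_le.1 h3).1
    have h5 : σ * (psi (A ω) X q a - kap Q q * ((X : ℝ) / q)) = σ * incr (A ω) Q X' X q a +
        σ * (psi (A ω) X' q a - kap Q q * ((X' : ℝ) / q)) := by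
      unfold incr
      ring
    rw [h5]
    have h6 : 0 ≤ dv Q X q := Real.sqrt_nonneg _
    nlinarith
  unfold ev at hj
  rw [hdd] at hj
  split_ifs at hj with h
  · obtain ⟨i, hi, hinc⟩ := hj
    have hL : 1 ≤ Real.log (X : ℝ) := by
      refine hL'.trans (Real.log_le_log hX'0' ?_)
      rw [hXr]
      have : (1 : ℝ) ≤ 2 ^ R := one_le_pow₀ (by norm_num)
      nlinarith
    have h1 : (1 : ℝ) ≤ Real.log X ^ (e / 8 / 8) := Real.one_le_rpow hL (by positivity)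
    have h2 : Q ≤ f X := by
      have : (Q : ℝ) ≤ f X := by nlinarith
      exact_mod_cast this
    obtain ⟨h3, h4⟩ := kk_bounds hQ h2
    have h4' : (f X : ℝ) < 2 * (Q * 2 ^ kk Q (f X)) := by exact_mod_cast h4
    have h5 : Real.log (X : ℝ) ^ (e / 8 / 8) ≤ 2 ^ kk Q (f X) := by
      have h6 : 2 * (Q : ℝ) * Real.log X ^ (e / 8 / 8) < 2 * Q * 2 ^ kk Q (f X) := by linarith
      exact (lt_of_mul_lt_mul_left h6 (by positivity)).le
    obtain ⟨g1, g2, g3, g4, g5⟩ := (hk (kk Q (f X)) h5).1 i hi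
    have g6 : 0 < Q * i.1 := by omega
    have g7 : Q * i.1 ≤ f X := by
      have h7 : i.1 ≤ 2 ^ kk Q (f X) := by exact_mod_cast g5
      exact (Nat.mul_le_mul_left _ h7).trans h3
    refine ⟨Q * i.1, 1 + Q * i.2, ?_, g7, g1.le, g2, ?_⟩
    · have h7 : (f X : ℝ) ≤ 16 * (Q * i.1) := by nlinarith
      exact_mod_cast h7
    · exact hkey (Q * i.1) (1 + Q * i.2) g6 g7 (Nat.Coprime.coprime_dvd_right (Nat.gcd_dvd_left _ _) g2) (e / 8 / 8)
        (by linarith) hinc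
  · refine ⟨f X, 1, by omega, le_rfl, hf1 X, Nat.coprime_one_left _, ?_⟩
    exact hkey (f X) 1 (hf1 X) le_rfl (Nat.gcd_one_left _) (e / 8) le_rfl hj

end Pool.Agent.Q112.ML
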