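import Pool.Agent.Q112.ML.Stm2

/-!
# Project ML: upper bound for the error of moduli up to `x^(1-δ)` (job T2U)
-/

set_option autoImplicit false

namespace Pool.Agent.Q112.ML

open Finset Filter MeasureTheory ProbabilityTheory Pool.Agent.Q120.GM Pool.Agent.Q112.LE
open scoped Topology

theorem tlog1 : Tendsto (fun x : ℕ => Real.log (x : ℝ)) atTop atTop :=
  Real.tendsto_log_atTop.comp tendsto_natCast_atTop_atTop

theorem tlog2 : Tendsto (fun x : ℕ => Real.log (Real.log (x : ℝ))) atTop atTop := Real.tendsto_log_atTop.comp tlog1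

/-- `C (log x)^2 ≤ x^δ` for large `x`. -/
theorem logsq_le {C δ : ℝ} (hC : 0 < C) (hδ : 0 < δ) :
    ∀ᶠ x : ℕ in atTop, C * Real.log (x : ℝ) ^ 2 ≤ (x : ℝ) ^ δ := by
  have h := (isLittleO_log_rpow_atTop (show 0 < δ / 2 by positivity)).def (show 0 < 1 / √C by positivity)
  have h2 := tendsto_natCast_atTop_atTop.eventually h
  filter_upwards [h2, eventually_ge_atTop 1] with x hx h1
  have hx1 : (1 : ℝ) ≤ x := by exact_mod_cast h1
  have hl : 0 ≤ Real.log (x : ℝ) := Real.log_nonneg hx1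
  rw [Real.norm_of_nonneg hl, Real.norm_of_nonneg (by positivity)] at hx
  have h3 : √C * Real.log x ≤ (x : ℝ) ^ (δ / 2) := by
    have := mul_le_mul_of_nonneg_left hx (Real.sqrt_nonneg C)
    rwa [← mul_assoc, mul_one_div_cancel (by positivity), one_mul] at this
  calc C * Real.log (x : ℝ) ^ 2 = (√C * Real.log x) ^ 2 := by rw [mul_pow, Real.sq_sqrt hC.le]
    _ ≤ ((x : ℝ) ^ (δ / 2)) ^ 2 := pow_le_pow_left₀ (by positivity) h3 2
    _ = (x : ℝ) ^ δ := by
      rw [← Real.rpow_natCast, ← Real.rpow_mul (by positivity)]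
      norm_num

theorem t2u : S_RT → S_UP → S_T2U := by
  rintro ⟨-, -, -, -, h5, -, -, -, h9, -, -⟩ hUP Ω _ μ _ A Q hQ hA δ ε hδ hδ1 hε
  obtain ⟨e, he⟩ : ∃ e : ℝ, e = min ε 1 := ⟨_, rfl⟩
  have he0 : 0 < e := by rw [he]; exact lt_min hε one_pos
  have he1 : e ≤ 1 := by rw [he]; exact min_le_right _ _
  have heε : e ≤ ε := by rw [he]; exact min_le_left _ _
  filter_upwards [hUP Ω μ A Q hQ hA (e / 2) (by positivity)] with ω hω
  filter_upwards [hω, tlog1.eventually_ge_atTop 1, tlog2.eventually_gt_atTop 0,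
    logsq_le (show (0 : ℝ) < 24 / e ^ 2 by positivity) hδ, eventually_ge_atTop 1] with x hx hL hl hlog hx1
    q a hq hqx hgcd
  have hx1' : (1 : ℝ) ≤ x := by exact_mod_cast hx1
  have hx0 : (0 : ℝ) < x := by linarith
  have hq0 : (0 : ℝ) < q := by exact_mod_cast hq
  have hq1 : (1 : ℝ) ≤ q := by exact_mod_cast hq
  have hqx' : (q : ℝ) ≤ x := hqx.trans (by
    calc (x : ℝ) ^ (1 - δ) ≤ (x : ℝ) ^ (1 : ℝ) := Real.rpow_le_rpow_of_exponent_le hx1' (by linarith)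
      _ = x := Real.rpow_one _)
  obtain ⟨L, hLd⟩ : ∃ L, L = Real.log (x : ℝ) := ⟨_, rfl⟩
  obtain ⟨l, hld⟩ : ∃ l, l = Real.log (Real.log (x : ℝ)) := ⟨_, rfl⟩
  obtain ⟨y, hy⟩ : ∃ y, y = kap Q q * ((x : ℝ) / q) := ⟨_, rfl⟩
  obtain ⟨B, hB⟩ : ∃ B, B = 2 * Real.log q + Real.log (Real.log (x : ℝ)) := ⟨_, rfl⟩
  have hlq : 0 ≤ Real.log (q : ℝ) := Real.log_nonneg hq1
  have hlqx : Real.log (q : ℝ) ≤ L := by rw [hLd]; exact Real.log_le_log hq0 hqx'
  have hlL : l ≤ L := by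
    rw [hld, hLd]
    have := Real.log_le_sub_one_of_pos (show 0 < Real.log (x : ℝ) by linarith)
    linarith
  rw [← hLd] at hL hlog
  rw [← hld] at hl
  have hB0 : 0 < B := by rw [hB, ← hld]; linarith
  have hB3 : B ≤ 3 * L := by rw [hB, ← hld]; linarith
  have hL0 : 0 < L := by linarith
  have hyx : (x : ℝ) ^ δ ≤ y := by
    have h1 : (x : ℝ) ^ δ ≤ (x : ℝ) / q := by
      rw [le_div_iff₀ hq0]
      calc (x : ℝ) ^ δ * q ≤ (x : ℝ) ^ δ * (x : ℝ) ^ (1 - δ) := by gcongr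
        _ = x := by rw [← Real.rpow_add hx0]; simp
    have h2 := one_le_kap hQ q
    rw [hy]
    have h3 : (0 : ℝ) ≤ (x : ℝ) / q := by positivity
    nlinarith
  have hy0 : 0 < y := lt_of_lt_of_le (by positivity) hyx
  obtain ⟨d, hd⟩ : ∃ d, d = dv Q x q := ⟨_, rfl⟩
  have hd2 : d ^ 2 = 2 * y * L * B := by
    rw [hd, dv, Real.sq_sqrt (by rw [← hy, ← hB, ← hLd]; positivity), ← hy, ← hB, ← hLd]
  have hd0 : 0 < d := by
    rw [hd, dv, Real.sqrt_pos, ← hy, ← hB, ← hLd]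
    positivity
  obtain ⟨u, hu⟩ : ∃ u, u = (1 + e) * d / y := ⟨_, rfl⟩
  have hu0 : 0 < u := by rw [hu]; positivity
  have huy : u * y = (1 + e) * d := by rw [hu]; field_simp
  have huy2 : y * u ^ 2 = (1 + e) ^ 2 * (2 * L * B) := by
    have h1 : (u * y) ^ 2 = (1 + e) ^ 2 * (2 * y * L * B) := by rw [huy, mul_pow, hd2]
    have h2 : y * (y * u ^ 2) = y * ((1 + e) ^ 2 * (2 * L * B)) := by nlinarith
    exact mul_left_cancel₀ hy0.ne' h2
  have hue : u ≤ e := by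
    have h1 : 24 * L ^ 2 ≤ e ^ 2 * y := by
      have h2 : 24 / e ^ 2 * L ^ 2 ≤ y := hlog.trans hyx
      rw [div_mul_eq_mul_div, div_le_iff₀ (by positivity)] at h2
      linarith
    have h3 : y * u ^ 2 ≤ y * e ^ 2 := by
      have h4 : (1 + e) ^ 2 ≤ 4 := by nlinarith
      have h5 : 2 * L * B ≤ 6 * L ^ 2 := by nlinarith
      calc y * u ^ 2 = (1 + e) ^ 2 * (2 * L * B) := huy2
        _ ≤ 4 * (6 * L ^ 2) := by gcongr
        _ ≤ y * e ^ 2 := by linarith
    have h6 : u ^ 2 ≤ e ^ 2 := le_of_mul_le_mul_left h3 hy0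
    exact (abs_le_of_sq_le_sq' h6 he0.le).2
  have hLB : 0 ≤ L * B := by positivity
  obtain ⟨hup, hdn⟩ := hx q a hq (by exact_mod_cast hqx') hgcd u hu0
  have e1 : (1 + e / 2) * (2 * Real.log q + Real.log (Real.log x)) * Real.log x = (1 + e / 2) * (L * B) := by
    rw [← hB, ← hLd]; ring
  rw [e1, ← hy] at hup hdn
  have hup' := hup (by
    have h1 := h9 u hu0.le
    have h2 : u ^ 2 / (2 + e) ≤ rate u := (by gcongr : u ^ 2 / (2 + e) ≤ u ^ 2 / (2 + u)).trans h1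
    calc (1 + e / 2) * (L * B) ≤ (1 + e) ^ 2 * (2 * L * B) / (2 + e) := by
          rw [le_div_iff₀ (by positivity)]
          nlinarith [mul_nonneg he0.le hLB, mul_nonneg (mul_nonneg he0.le he0.le) hLB]
      _ = y * (u ^ 2 / (2 + e)) := by rw [← huy2]; ring
      _ ≤ y * rate u := by gcongr)
  have hdn' := hdn (hue.trans he1) (by
    have h1 := (h5 u hu0.le (hue.trans he1)).1
    calc (1 + e / 2) * (L * B) ≤ (1 + e) ^ 2 * (2 * L * B) / 2 := by
          nlinarith [mul_nonneg he0.le hLB, mul_nonneg (mul_nonneg he0.le he0.le) hLB]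
      _ = y * (u ^ 2 / 2) := by rw [← huy2]; ring
      _ ≤ y * rate (-u) := by gcongr)
  rw [← hy, ← hd, abs_le]
  have h10 : (1 + e) * d ≤ (1 + ε) * d := by gcongr
  constructor <;> nlinarith

end Pool.Agent.Q112.ML
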