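import Pool.Agent.Q112.ML.T2C

/-!
# Project ML: many classes in `(X/2^R, X]` (job T2X)
-/

set_option autoImplicit false

namespace Pool.Agent.Q112.ML

open Finset Filter MeasureTheory ProbabilityTheory Pool.Agent.Q120.GM Pool.Agent.Q112.LE
open scoped Topology

theorem log_mul_level_le {Q : ℕ} (n : ℕ) : Real.log n * level Q n ≤ qq Q := by
  have hq : 0 ≤ qq Q := by unfold qq; positivity
  have h0 : 0 ≤ Real.log (n : ℝ) := Real.log_natCast_nonneg n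
  unfold level
  split_ifs with h
  · rcases h0.eq_or_lt with h1 | h1
    · rw [← h1, zero_mul]; exact hq
    · calc Real.log n * min 1 (qq Q / Real.log n) ≤ Real.log n * (qq Q / Real.log n) :=
          mul_le_mul_of_nonneg_left (min_le_right _ _) h0
        _ = qq Q := by field_simp
  · rw [mul_zero]; exact hq

/-- Two-sided deviation of a sum, from the Chernoff bounds. -/
theorem dev2 (hCH : S_CH) (hRT : S_RT) {Ω : Type} [MeasurableSpace Ω] {μ : Measure Ω} [IsProbabilityMeasure μ]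
    {A : Ω → Set ℕ} {Q : ℕ} (hQ : 1 ≤ Q) (hA : IsModel μ (level Q) A) {W : Finset ℕ} {N : ℕ} {Λ D T : ℝ}
    (hN : 2 ≤ N) (hW : ∀ n ∈ W, 1 ≤ n ∧ n ≤ N) (hΛ : qq Q * (W.card : ℝ) ≤ Λ) (hΛ0 : 0 < Λ) (hD : 0 < D)
    (hT : T * Real.log N * (2 * Λ + D) ≤ D ^ 2) :
    μ.real {ω | D < |∑ n ∈ W, Real.log n * (ind (A ω) n - level Q n)|} ≤ 2 * Real.exp (-T) := by
  have hL : 0 < Real.log (N : ℝ) := Real.log_pos (by exact_mod_cast (by omega : 1 < N))
  have hq := qq_pos hQ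
  have hcard : qq Q * ((W.filter (fun n => Nat.Coprime n Q)).card : ℝ) ≤ Λ := by
    refine le_trans (mul_le_mul_of_nonneg_left ?_ hq.le) hΛ
    exact_mod_cast card_filter_le _ _
  obtain ⟨h1, h2⟩ := hCH Ω μ A Q hQ hA W N Λ D hN hW hcard hΛ0 hD
  have hfil : W.filter (fun n => n ≤ N) = W := filter_true_of_mem fun n hn => (hW n hn).2
  have hT1 : T ≤ D ^ 2 / (Real.log N * (2 * Λ + D)) := by
    rw [le_div_iff₀ (by positivity), ← mul_assoc]
    exact hT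
  have hP1 : μ.real {ω | D ≤ ∑ n ∈ W, Real.log n * (ind (A ω) n - level Q n)} ≤ Real.exp (-T) := by
    have hs : {ω | D ≤ ∑ n ∈ W, Real.log n * (ind (A ω) n - level Q n)} ⊆
        {ω | ∃ x : ℕ, D ≤ ∑ n ∈ W.filter (fun n => n ≤ x), Real.log n * (ind (A ω) n - level Q n)} := by
      intro ω hω
      show ∃ x : ℕ, _
      refine ⟨N, ?_⟩
      rw [hfil]
      exact hω
    refine (measureReal_mono hs).trans (h1.trans (Real.exp_le_exp.2 (neg_le_neg (hT1.trans ?_))))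
    · have h3 := hRT.2.2.2.2.2.2.2.2.1 (D / Λ) (by positivity)
      calc D ^ 2 / (Real.log N * (2 * Λ + D)) = Λ / Real.log N * ((D / Λ) ^ 2 / (2 + D / Λ)) := by
            field_simp
        _ ≤ Λ / Real.log N * rate (D / Λ) := mul_le_mul_of_nonneg_left h3 (by positivity)
  have hP2 : μ.real {ω | D < ∑ n ∈ W, Real.log n * (level Q n - ind (A ω) n)} ≤ Real.exp (-T) := by
    rcases lt_or_ge D Λ with h | h
    · have hs : {ω | D < ∑ n ∈ W, Real.log n * (level Q n - ind (A ω) n)} ⊆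
          {ω | ∃ x : ℕ, D ≤ ∑ n ∈ W.filter (fun n => n ≤ x), Real.log n * (level Q n - ind (A ω) n)} := by
        intro ω hω
        show ∃ x : ℕ, _
        refine ⟨N, ?_⟩
        rw [hfil]
        exact le_of_lt hω
      refine (measureReal_mono hs).trans ((h2 h).trans (Real.exp_le_exp.2 (neg_le_neg (hT1.trans ?_))))
      · have h3 := (hRT.2.2.2.2.1 (D / Λ) (by positivity) (by rw [div_le_one hΛ0]; exact h.le)).1
        calc D ^ 2 / (Real.log N * (2 * Λ + D)) ≤ D ^ 2 / (Real.log N * (2 * Λ)) := by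
              apply div_le_div_of_nonneg_left (by positivity) (by positivity)
              apply mul_le_mul_of_nonneg_left _ hL.le
              linarith
          _ = Λ / Real.log N * ((D / Λ) ^ 2 / 2) := by field_simp
          _ ≤ Λ / Real.log N * rate (-(D / Λ)) := mul_le_mul_of_nonneg_left h3 (by positivity)
    · have h4 : {ω | D < ∑ n ∈ W, Real.log n * (level Q n - ind (A ω) n)} = ∅ := by
        rw [Set.eq_empty_iff_forall_notMem]
        intro ω hω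
        have h5 : D < ∑ n ∈ W, Real.log n * (level Q n - ind (A ω) n) := hω
        have h6 : ∑ n ∈ W, Real.log n * (level Q n - ind (A ω) n) ≤ ∑ n ∈ W, qq Q := by
          refine sum_le_sum fun n _ => ?_
          have h7 : 0 ≤ Real.log (n : ℝ) := Real.log_natCast_nonneg n
          have h8 : 0 ≤ ind (A ω) n := Set.indicator_nonneg (fun _ _ => zero_le_one) _
          have h9 := log_mul_level_le (Q := Q) n
          nlinarith
        rw [sum_const, nsmul_eq_mul] at h6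
        linarith
      rw [h4, measureReal_empty]
      exact (Real.exp_pos _).le
  have hsub : {ω | D < |∑ n ∈ W, Real.log n * (ind (A ω) n - level Q n)|} ⊆
      {ω | D ≤ ∑ n ∈ W, Real.log n * (ind (A ω) n - level Q n)} ∪
      {ω | D < ∑ n ∈ W, Real.log n * (level Q n - ind (A ω) n)} := by
    intro ω hω
    have h5 : D < |∑ n ∈ W, Real.log n * (ind (A ω) n - level Q n)| := hω
    have h6 : ∑ n ∈ W, Real.log n * (level Q n - ind (A ω) n) = -∑ n ∈ W, Real.log n * (ind (A ω) n - level Q n) := by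
      rw [← sum_neg_distrib]
      refine sum_congr rfl fun n _ => ?_
      ring
    rcases lt_abs.1 h5 with h7 | h7
    · exact Or.inl h7.le
    · refine Or.inr ?_
      show D < _
      rw [h6]
      exact h7
  calc μ.real {ω | D < |∑ n ∈ W, Real.log n * (ind (A ω) n - level Q n)|} ≤ _ := measureReal_mono hsub
    _ ≤ _ := measureReal_union_le _ _
    _ ≤ 2 * Real.exp (-T) := by linarith

/-- `k` is large if `(log X)^ε ≤ 2^k` and `X` is large. -/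
theorem k_ev {ε : ℝ} (hε : 0 < ε) {P : ℕ → Prop} (h : ∀ᶠ k : ℕ in atTop, P k) :
    ∀ᶠ X : ℕ in atTop, ∀ k : ℕ, Real.log (X : ℝ) ^ ε ≤ 2 ^ k → P k := by
  obtain ⟨k0, hk0⟩ := eventually_atTop.1 h
  have h1 : Tendsto (fun X : ℕ => Real.log (X : ℝ) ^ ε) atTop atTop := (tendsto_rpow_atTop hε).comp tlog1
  filter_upwards [h1.eventually_gt_atTop (2 ^ k0)] with X hX k hk
  apply hk0
  by_contra h2
  push Not at h2
  have h3 : (2 : ℝ) ^ k ≤ 2 ^ k0 := pow_le_pow_right₀ (by norm_num) h2.le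
  linarith

theorem pow4_le {C ε : ℝ} (hC : 0 < C) (hε : 0 < ε) :
    ∀ᶠ x : ℕ in atTop, C * Real.log (x : ℝ) ^ 4 ≤ (x : ℝ) ^ ε := by
  filter_upwards [logsq_le (show 0 < √C by positivity) (show 0 < ε / 2 by positivity)] with x hx
  calc C * Real.log (x : ℝ) ^ 4 = (√C * Real.log (x : ℝ) ^ 2) ^ 2 := by
        rw [mul_pow, Real.sq_sqrt hC.le]; ring
    _ ≤ ((x : ℝ) ^ (ε / 2)) ^ 2 := pow_le_pow_left₀ (by positivity) hx 2
    _ = (x : ℝ) ^ ε := by
      rw [← Real.rpow_natCast, ← Real.rpow_mul (by positivity)]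
      norm_num

theorem t2x_k {Q : ℕ} (hQ : 1 ≤ Q) {ε η C1 : ℝ} (hε : 0 < ε) (hη : 0 < η) :
    ∀ᶠ k : ℕ in atTop, 6 ≤ k ∧ 6724 * 6400 * qq Q * Q * (C1 * k) ^ 2 ≤ η ^ 2 / 2 * 2 ^ k ∧
      Real.log (64 * k) + 2 * Real.log Q ≤ ε * (k * Real.log 4) := by
  have hq := qq_pos hQ
  have hQ0 : (0 : ℝ) < Q := by exact_mod_cast hQ
  have h1 : (fun k : ℕ => (k : ℝ) ^ 2) =o[atTop] fun k : ℕ => (2 : ℝ) ^ k :=
    isLittleO_pow_const_const_pow_of_one_lt 2 (by norm_num)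
  have h2 := h1.def (show 0 < η ^ 2 / 2 / (6724 * 6400 * qq Q * Q * (C1 ^ 2 + 1)) by positivity)
  have h4 : (1 : ℝ) < 4 ^ ε := Real.one_lt_rpow (by norm_num) hε
  have h3 : (fun k : ℕ => (k : ℝ)) =o[atTop] fun k : ℕ => ((4 : ℝ) ^ ε) ^ k :=
    isLittleO_coe_const_pow_of_one_lt h4
  have h5 := h3.def (show 0 < 1 / (64 * (Q : ℝ) ^ 2) by positivity)
  filter_upwards [h2, h5, eventually_ge_atTop 6] with k hk1 hk2 hk6
  refine ⟨hk6, ?_, ?_⟩
  · rw [Real.norm_of_nonneg (by positivity), Real.norm_of_nonneg (by positivity)] at hk1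
    rw [div_mul_eq_mul_div, le_div_iff₀ (by positivity)] at hk1
    refine le_trans ?_ hk1
    have h6 : (0 : ℝ) ≤ 6724 * 6400 * qq Q * Q * (k : ℝ) ^ 2 := by positivity
    calc 6724 * 6400 * qq Q * Q * (C1 * k) ^ 2 = (6724 * 6400 * qq Q * Q * (k : ℝ) ^ 2) * C1 ^ 2 := by ring
      _ ≤ (6724 * 6400 * qq Q * Q * (k : ℝ) ^ 2) * (C1 ^ 2 + 1) := by
        apply mul_le_mul_of_nonneg_left _ h6
        linarith
      _ = _ := by ring
  · rw [Real.norm_of_nonneg (by positivity), Real.norm_of_nonneg (by positivity)] at hk2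
    rw [div_mul_eq_mul_div, one_mul, le_div_iff₀ (by positivity)] at hk2
    have hk0 : (0 : ℝ) < k := by exact_mod_cast (by omega : 0 < k)
    have h6 : Real.log ((k : ℝ) * (64 * (Q : ℝ) ^ 2)) ≤ Real.log (((4 : ℝ) ^ ε) ^ k) :=
      Real.log_le_log (by positivity) hk2
    rw [Real.log_pow, Real.log_rpow (by norm_num)] at h6
    have h7 : Real.log ((k : ℝ) * (64 * (Q : ℝ) ^ 2)) = Real.log (64 * k) + 2 * Real.log Q := by
      rw [show (k : ℝ) * (64 * (Q : ℝ) ^ 2) = (64 * k) * (Q : ℝ) ^ 2 by ring,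
        Real.log_mul (by positivity) (by positivity), Real.log_pow]
      norm_num
    rw [h7] at h6
    linarith

/-- The deterministic part. -/
theorem t2x_det {Q : ℕ} (hQ : 1 ≤ Q) {ε η : ℝ} (hε : 0 < ε) (hε1 : ε ≤ 1 / 2) (hη : 0 < η) :
    ∀ᶠ X : ℕ in atTop, ∀ k : ℕ, Real.log X ^ ε ≤ 2 ^ k → (Q : ℝ) * 2 ^ k ≤ (X : ℝ) ^ (1 - ε) →
      ∀ B : ℝ, B = Real.log ((Q : ℝ) * 2 ^ k) + Real.log (Real.log X) →
      2 ≤ X ∧ 6 ≤ k ∧ 1 ≤ B ∧ 1 ≤ Real.log X ∧ 0 ≤ Real.log (Real.log X) ∧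
      6724 * B ^ 2 * (1600 * B * Real.log X + 100 * qq Q) ≤ η ^ 2 / 2 * ((X : ℝ) / (Q * 2 ^ k)) ∧
      6724 * 6400 * qq Q * Q * B ^ 2 ≤ η ^ 2 / 2 * 2 ^ k ∧
      Real.log (64 * k) + 2 * Real.log Q ≤ ε * (k * Real.log 4) ∧
      3 ≤ Real.log X ^ (ε / 2) := by
  have hq := qq_pos hQ
  have hQ0 : (0 : ℝ) < Q := by exact_mod_cast hQ
  have hQ1 : (1 : ℝ) ≤ Q := by exact_mod_cast hQ
  filter_upwards [k_ev hε (t2x_k (C1 := Real.log Q + 1 + 1 / ε) hQ hε hη),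
    pow4_le (show 0 < 2 * (6724 * 4 * (3200 + 100 * qq Q)) / η ^ 2 by positivity) hε,
    tlog1.eventually_ge_atTop 1, tlog2.eventually_ge_atTop 1, eventually_ge_atTop 2,
    ((tendsto_rpow_atTop (show 0 < ε / 2 by positivity)).comp tlog1).eventually_ge_atTop 3] with
    X hk h4 hL hl hX2 h3 k hk1 hk2 B hB
  obtain ⟨hk6, hkB, hkQ⟩ := hk k hk1
  have hX0 : (0 : ℝ) < X := by exact_mod_cast (by omega : 0 < X)
  have hX1 : (1 : ℝ) ≤ X := by exact_mod_cast (by omega : 1 ≤ X)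
  obtain ⟨L, hLd⟩ : ∃ L, L = Real.log (X : ℝ) := ⟨_, rfl⟩
  obtain ⟨l, hld⟩ : ∃ l, l = Real.log (Real.log (X : ℝ)) := ⟨_, rfl⟩
  have hlL : l ≤ L := by
    rw [hld, hLd]
    have := Real.log_le_sub_one_of_pos (show 0 < Real.log (X : ℝ) by linarith)
    linarith
  have hlogQ : 0 ≤ Real.log (Q : ℝ) := Real.log_nonneg hQ1
  have hlog2 : 0 < Real.log 2 := Real.log_pos (by norm_num)
  have hlog2' : Real.log 2 ≤ 1 := by
    have := Real.log_le_sub_one_of_pos (show (0 : ℝ) < 2 by norm_num)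
    linarith
  have e1 : Real.log ((Q : ℝ) * 2 ^ k) = Real.log Q + k * Real.log 2 := by
    rw [Real.log_mul (by positivity) (by positivity), Real.log_pow]
  have hk0 : (6 : ℝ) ≤ k := by exact_mod_cast hk6
  rw [← hLd] at hL
  rw [← hld] at hl
  have hB1 : 1 ≤ B := by rw [hB, ← hld, e1]; nlinarith
  have hB2 : B ≤ 2 * L := by
    have h5 : Real.log ((Q : ℝ) * 2 ^ k) ≤ L := by
      rw [hLd]
      apply Real.log_le_log (by positivity)
      refine hk2.trans ?_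
      calc (X : ℝ) ^ (1 - ε) ≤ (X : ℝ) ^ (1 : ℝ) := Real.rpow_le_rpow_of_exponent_le hX1 (by linarith)
        _ = X := Real.rpow_one _
    rw [hB, ← hld]
    linarith
  have hB3 : B ≤ (Real.log Q + 1 + 1 / ε) * k := by
    have h5 : ε * l ≤ k * Real.log 2 := by
      have h6 := Real.log_le_log (Real.rpow_pos_of_pos (show 0 < Real.log (X : ℝ) by rw [← hLd]; linarith) ε) hk1
      rw [Real.log_rpow (by rw [← hLd]; linarith), Real.log_pow, ← hld] at h6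
      exact h6
    have h6 : l ≤ 1 / ε * k := by
      rw [one_div, inv_mul_eq_div, le_div_iff₀ hε]
      nlinarith
    rw [hB, ← hld, e1]
    nlinarith
  refine ⟨hX2, hk6, hB1, by rw [← hLd]; exact hL, by rw [← hld]; linarith, ?_, ?_, hkQ, h3⟩
  · have h5 : (X : ℝ) ^ ε ≤ (X : ℝ) / (Q * 2 ^ k) := by
      rw [le_div_iff₀ (by positivity)]
      calc (X : ℝ) ^ ε * (Q * 2 ^ k) ≤ (X : ℝ) ^ ε * (X : ℝ) ^ (1 - ε) := by gcongr
        _ = X := by rw [← Real.rpow_add hX0]; simp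
    have h6 : 6724 * B ^ 2 * (1600 * B * L + 100 * qq Q) ≤ 6724 * 4 * (3200 + 100 * qq Q) * L ^ 4 := by
      have h7 : B ^ 2 ≤ (2 * L) ^ 2 := pow_le_pow_left₀ (by linarith) hB2 2
      have h8 : 1600 * B * L + 100 * qq Q ≤ (3200 + 100 * qq Q) * L ^ 2 := by
        have h9 : B * L ≤ 2 * L * L := mul_le_mul_of_nonneg_right hB2 (by linarith)
        have h10 : 1 ≤ L ^ 2 := by nlinarith
        nlinarith
      calc 6724 * B ^ 2 * (1600 * B * L + 100 * qq Q) ≤ 6724 * (2 * L) ^ 2 * ((3200 + 100 * qq Q) * L ^ 2) :=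
            mul_le_mul (by linarith) h8 (by positivity) (by positivity)
        _ = _ := by ring
    rw [← hLd] at h4 ⊢
    rw [div_mul_eq_mul_div, div_le_iff₀ (by positivity)] at h4
    calc 6724 * B ^ 2 * (1600 * B * L + 100 * qq Q) ≤ 6724 * 4 * (3200 + 100 * qq Q) * L ^ 4 := h6
      _ ≤ η ^ 2 / 2 * (X : ℝ) ^ ε := by linarith
      _ ≤ η ^ 2 / 2 * ((X : ℝ) / (Q * 2 ^ k)) := mul_le_mul_of_nonneg_left h5 (by positivity)
  · refine le_trans ?_ hkB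
    have h5 : B ^ 2 ≤ ((Real.log Q + 1 + 1 / ε) * k) ^ 2 := pow_le_pow_left₀ (by linarith) hB3 2
    exact mul_le_mul_of_nonneg_left h5 (by positivity)

/-- The size condition for `Δ`. -/
theorem t2x_size {Q : ℕ} (hQ : 1 ≤ Q) {η X L B P N d Λ Δ : ℝ} (hη : 0 < η) (hX : 0 < X) (hL : 1 ≤ L) (hB : 1 ≤ B)
    (hP : 0 < P) (h1 : 6724 * B ^ 2 * (1600 * B * L + 100 * qq Q) ≤ η ^ 2 / 2 * (X / (Q * P)))
    (h2 : 6724 * 6400 * qq Q * Q * B ^ 2 ≤ η ^ 2 / 2 * P) (hN0 : 0 ≤ N) (hN : N ≤ 41 * B)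
    (hd0 : 0 ≤ d) (hd : 2 * (X / (Q * P)) * L * B ≤ d ^ 2) (hΛ : Λ = qq Q * (64 * X / P ^ 2 + 1))
    (hΔ : Δ = 40 * B * L + 10 * √(B * L * Λ)) : 2 * Δ * N ≤ η * d := by
  have hq := qq_pos hQ
  have hQ0 : (0 : ℝ) < Q := by exact_mod_cast hQ
  have hΛ0 : 0 < Λ := by rw [hΛ]; positivity
  obtain ⟨Z, hZ⟩ : ∃ Z, Z = X / (Q * P) := ⟨_, rfl⟩
  have hZ0 : 0 < Z := by rw [hZ]; positivity
  have hs0 : 0 ≤ √(B * L * Λ) := Real.sqrt_nonneg _
  have hs : √(B * L * Λ) ^ 2 = B * L * Λ := Real.sq_sqrt (by positivity)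
  have h3 : Δ ^ 2 ≤ 2 * (1600 * B ^ 2 * L ^ 2 + 100 * (B * L * Λ)) := by
    have h4 := sq_nonneg (40 * B * L - 10 * √(B * L * Λ))
    have h5 : Δ ^ 2 + (40 * B * L - 10 * √(B * L * Λ)) ^ 2 =
        2 * (1600 * B ^ 2 * L ^ 2 + 100 * √(B * L * Λ) ^ 2) := by rw [hΔ]; ring
    rw [hs] at h5
    linarith
  have hΔ0 : 0 ≤ Δ := by rw [hΔ]; positivity
  have h4 : N ^ 2 ≤ (41 * B) ^ 2 := pow_le_pow_left₀ hN0 hN 2
  have h5 : Λ = 64 * qq Q * Q * Z / P + qq Q := by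
    rw [hΛ, hZ]
    field_simp
  rw [← hZ] at h1 hd
  have h6 : 6724 * 6400 * qq Q * Q * B ^ 2 * Z / P ≤ η ^ 2 / 2 * Z := by
    rw [div_le_iff₀ hP]
    have := mul_le_mul_of_nonneg_right h2 hZ0.le
    linarith
  have h7 : 8 * (1681 * B ^ 2) * (1600 * B ^ 2 * L ^ 2 + 100 * (B * L * Λ)) ≤ η ^ 2 * (2 * Z * L * B) := by
    have h8 : 8 * (1681 * B ^ 2) * (1600 * B ^ 2 * L ^ 2 + 100 * (B * L * Λ)) =
        2 * (B * L) * (6724 * B ^ 2 * (1600 * B * L + 100 * qq Q) + 6724 * 6400 * qq Q * Q * B ^ 2 * Z / P) := by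
      rw [h5]
      field_simp
      ring
    rw [h8]
    have h9 : 0 ≤ 2 * (B * L) := by positivity
    calc 2 * (B * L) * (6724 * B ^ 2 * (1600 * B * L + 100 * qq Q) + 6724 * 6400 * qq Q * Q * B ^ 2 * Z / P) ≤
        2 * (B * L) * (η ^ 2 / 2 * Z + η ^ 2 / 2 * Z) := mul_le_mul_of_nonneg_left (by linarith) h9
      _ = η ^ 2 * (2 * Z * L * B) := by ring
  have h10 : (2 * Δ * N) ^ 2 ≤ (η * d) ^ 2 := by
    calc (2 * Δ * N) ^ 2 = 4 * Δ ^ 2 * N ^ 2 := by ring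
      _ ≤ 4 * (2 * (1600 * B ^ 2 * L ^ 2 + 100 * (B * L * Λ))) * (41 * B) ^ 2 :=
        mul_le_mul (by linarith) h4 (by positivity) (by positivity)
      _ = 8 * (1681 * B ^ 2) * (1600 * B ^ 2 * L ^ 2 + 100 * (B * L * Λ)) := by ring
      _ ≤ η ^ 2 * (2 * Z * L * B) := h7
      _ ≤ η ^ 2 * d ^ 2 := mul_le_mul_of_nonneg_left hd (by positivity)
      _ = (η * d) ^ 2 := by ring
  exact le_of_sq_le_sq h10 (by positivity)

theorem t2x_dev {B L Λ Δ : ℝ} (hL : 1 ≤ L) (hB : 1 ≤ B) (hΛ0 : 0 < Λ) (hΔ : Δ = 40 * B * L + 10 * √(B * L * Λ)) :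
    20 * B * L * (2 * Λ + Δ) ≤ Δ ^ 2 := by
  have hs0 : 0 ≤ √(B * L * Λ) := Real.sqrt_nonneg _
  have hs : √(B * L * Λ) ^ 2 = B * L * Λ := Real.sq_sqrt (by positivity)
  have hBL : 0 < B * L := by positivity
  have hΔ1 : 40 * B * L ≤ Δ := by rw [hΔ]; linarith
  have hΔ2 : 10 * √(B * L * Λ) ≤ Δ := by rw [hΔ]; nlinarith
  rcases le_total (2 * Λ) Δ with h | h
  · nlinarith
  · have h1 : (10 * √(B * L * Λ)) ^ 2 ≤ Δ ^ 2 := pow_le_pow_left₀ (by positivity) hΔ2 2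
    rw [mul_pow, hs] at h1
    nlinarith

/-- The final numerical inequality. -/
theorem t2x_fin {Q k : ℕ} (hQ : 1 ≤ Q) {ε L l B c τ π0 N : ℝ} (hε : 0 < ε) (hε1 : ε ≤ 1 / 2) (hL : 1 ≤ L)
    (hl : l = Real.log L) (hl0 : 0 ≤ l) (hk : 1 ≤ k) (hB : B = Real.log ((Q : ℝ) * 2 ^ k) + l) (hB1 : 1 ≤ B)
    (hc : (4 : ℝ) ^ k / (64 * k) ≤ c) (h64 : Real.log (64 * k) + 2 * Real.log Q ≤ ε * (k * Real.log 4))
    (h3 : 3 ≤ L ^ (ε / 2)) (hτ : τ = 2 * Real.exp (-(20 * B)))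
    (hπ : π0 = Real.exp (-((1 - ε) * (2 * Real.log ((Q : ℝ) * 2 ^ k) + l)))) (hN : 40 * B ≤ N) :
    L ^ (-(1 - ε / 2)) ≤ 1 / (π0 ^ (-(2 / N)) / (1 - τ) ^ 2 + τ / π0 ^ 2 + 1 / (c * π0)) := by
  have hL0 : 0 < L := by linarith
  have hQ0 : (0 : ℝ) < Q := by exact_mod_cast hQ
  have hQ1 : (1 : ℝ) ≤ Q := by exact_mod_cast hQ
  have hk0 : (0 : ℝ) < k := by exact_mod_cast hk
  have hN0 : 0 < N := by linarith
  have hlQ : 0 ≤ Real.log (Q : ℝ) := Real.log_nonneg hQ1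
  have e1 : Real.log ((Q : ℝ) * 2 ^ k) = Real.log Q + k * Real.log 2 := by
    rw [Real.log_mul (by positivity) (by positivity), Real.log_pow]
  have e2 : Real.log 4 = 2 * Real.log 2 := by
    rw [show (4 : ℝ) = 2 ^ 2 by norm_num, Real.log_pow]; norm_num
  have hlog2 : 0 < Real.log 2 := Real.log_pos (by norm_num)
  obtain ⟨a, ha⟩ : ∃ a, a = (1 - ε) * (2 * Real.log ((Q : ℝ) * 2 ^ k) + l) := ⟨_, rfl⟩
  rw [← ha] at hπ
  have hlQk : 0 ≤ Real.log ((Q : ℝ) * 2 ^ k) := by rw [e1]; positivity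
  have ha0 : 0 ≤ a := by rw [ha]; apply mul_nonneg <;> linarith
  have ha2 : a ≤ 2 * B := by
    rw [ha, hB]
    nlinarith [mul_nonneg hε.le hlQk, mul_nonneg hε.le hl0]
  have hπ0 : 0 < π0 := by rw [hπ]; exact Real.exp_pos _
  -- first term
  have h1 : π0 ^ (-(2 / N)) ≤ 10 / 9 := by
    rw [hπ, ← Real.exp_mul]
    have h4 : -a * -(2 / N) ≤ 1 / 10 := by
      rw [neg_mul_neg, mul_div_assoc', div_le_iff₀ hN0]
      linarith
    calc Real.exp (-a * -(2 / N)) ≤ Real.exp (1 / 10) := Real.exp_le_exp.2 h4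
      _ ≤ 10 / 9 := by
        have h5 := Real.add_one_le_exp (-(1 / 10 : ℝ))
        rw [Real.exp_neg] at h5
        have h6 := Real.exp_pos (1 / 10 : ℝ)
        rw [show (10 / 9 : ℝ) = (9 / 10)⁻¹ by norm_num, le_inv_comm₀ h6 (by norm_num)]
        linarith
  have hexp : ∀ t : ℝ, 0 ≤ t → Real.exp (-t) ≤ 1 / (1 + t) := by
    intro t ht
    rw [Real.exp_neg, ← one_div]
    apply one_div_le_one_div_of_le (by linarith)
    have := Real.add_one_le_exp t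
    linarith
  have hτ1 : τ ≤ 1 / 10 := by
    rw [hτ]
    have h5 := hexp (20 * B) (by linarith)
    have h6 : 1 / (1 + 20 * B) ≤ 1 / 21 := one_div_le_one_div_of_le (by norm_num) (by linarith)
    linarith
  have hτ0 : 0 < τ := by rw [hτ]; positivity
  have h2 : π0 ^ (-(2 / N)) / (1 - τ) ^ 2 ≤ 3 / 2 := by
    have h5 : (9 / 10 : ℝ) ^ 2 ≤ (1 - τ) ^ 2 := pow_le_pow_left₀ (by norm_num) (by linarith) 2
    rw [div_le_iff₀ (by linarith [show (0 : ℝ) < (9 / 10) ^ 2 by norm_num])]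
    linarith
  have h4 : τ / π0 ^ 2 ≤ 1 / 2 := by
    have h5 : τ / π0 ^ 2 = 2 * Real.exp (-(20 * B - 2 * a)) := by
      rw [hτ, hπ, ← Real.exp_nat_mul, mul_div_assoc, ← Real.exp_sub]
      congr 2
      push_cast
      ring
    rw [h5]
    have h6 := hexp (20 * B - 2 * a) (by linarith)
    have h7 : 1 / (1 + (20 * B - 2 * a)) ≤ 1 / 4 := one_div_le_one_div_of_le (by norm_num) (by linarith)
    linarith
  have hLpow : L ^ (1 - ε) = Real.exp ((1 - ε) * l) := by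
    rw [Real.rpow_def_of_pos hL0, ← hl, mul_comm]
  have h5 : 1 / (c * π0) ≤ L ^ (1 - ε) := by
    have h6 : Real.exp (-((1 - ε) * l)) ≤ c * π0 := by
      have h7 : Real.exp (a - (1 - ε) * l) ≤ c := by
        refine le_trans ?_ hc
        have h8 : (4 : ℝ) ^ k / (64 * k) = Real.exp (k * Real.log 4 - Real.log (64 * k)) := by
          rw [Real.exp_sub, Real.exp_log (by positivity), Real.exp_nat_mul, Real.exp_log (by norm_num)]
        rw [h8]
        apply Real.exp_le_exp.2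
        rw [ha, e1]
        rw [e2] at h64 ⊢
        nlinarith [mul_nonneg hε.le hlQ]
      calc Real.exp (-((1 - ε) * l)) = Real.exp (a - (1 - ε) * l) * Real.exp (-a) := by
            rw [← Real.exp_add]; congr 1; ring
        _ ≤ c * π0 := by rw [hπ]; exact mul_le_mul_of_nonneg_right h7 (Real.exp_pos _).le
    rw [hLpow]
    have h8 : 0 < c * π0 := lt_of_lt_of_le (Real.exp_pos _) h6
    rw [Real.exp_neg] at h6
    rw [one_div]
    exact inv_le_of_inv_le₀ (Real.exp_pos _) h6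
  have h6 : π0 ^ (-(2 / N)) / (1 - τ) ^ 2 + τ / π0 ^ 2 + 1 / (c * π0) ≤ L ^ (1 - ε / 2) := by
    have h7 : 1 ≤ L ^ (1 - ε) := Real.one_le_rpow hL (by linarith)
    have h8 : L ^ (1 - ε / 2) = L ^ (1 - ε) * L ^ (ε / 2) := by
      rw [← Real.rpow_add hL0]; congr 1; ring
    rw [h8]
    nlinarith
  have hc0 : 0 < c := lt_of_lt_of_le (by positivity) hc
  rw [Real.rpow_neg hL0.le, ← one_div]
  apply one_div_le_one_div_of_le _ h6
  have : 0 < 1 - τ := by linarith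
  positivity

/-- The elements of a class in `(X', X]`. -/
def wd (X' X q a : ℕ) : Finset ℕ := cls X q a \ cls X' q a

theorem sm_wd (S : Set ℕ) (σ : ℝ) {X' X : ℕ} (h : X' ≤ X) (q a : ℕ) :
    sm S (fun n => σ * Real.log n) (wd X' X q a) = σ * (psi S X q a - psi S X' q a) := by
  have h1 := sum_sdiff (f := fun n : ℕ => Real.log (n : ℝ) * ind S n) (cls_mono h q a)
  have h2 : sm S (fun n => σ * Real.log n) (wd X' X q a) = σ * ∑ n ∈ cls X q a \ cls X' q a, Real.log n * ind S n := by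
    unfold sm wd
    rw [mul_sum]
    exact sum_congr rfl fun n _ => by ring
  rw [h2]
  unfold psi sm
  rw [← h1]
  ring

theorem t2x : S_T2C → S_SM2 → S_CH → S_RT → S_ID → S_T2X := by
  intro hT2C hSM2 hCH hRT hID Q hQ ε hε hε1
  obtain ⟨R0, hR0⟩ := hT2C Q hQ ε hε hε1
  refine ⟨R0, fun R hR => ?_⟩
  obtain ⟨η, hη, hev⟩ := hR0 R hR
  filter_upwards [hev, t2x_det hQ hε hε1 hη, k_ev hε (hID Q hQ)] with X hX hdet hid hdvd k hk1 hk2 Ω _ μ _ A hA σ hσ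
  obtain ⟨hidx, hcard, hdep⟩ := hid k hk1
  obtain ⟨B, hB⟩ : ∃ B, B = Real.log ((Q : ℝ) * 2 ^ k) + Real.log (Real.log X) := ⟨_, rfl⟩
  obtain ⟨hX2, hk6, hB1, hL1, hl0, hs1, hs2, hs3, hs4⟩ := hdet k hk1 hk2 B hB
  have hX0 : (0 : ℝ) < X := by exact_mod_cast (by omega : 0 < X)
  have hX1 : (1 : ℝ) ≤ X := by exact_mod_cast (by omega : 1 ≤ X)
  have hQ0 : (0 : ℝ) < Q := by exact_mod_cast hQ
  have hQ1 : (1 : ℝ) ≤ Q := by exact_mod_cast hQ
  have hk0 : (0 : ℝ) < k := by exact_mod_cast (by omega : 0 < k)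
  have hqq := qq_pos hQ
  obtain ⟨X', hX'⟩ : ∃ X', X' = X / 2 ^ R := ⟨_, rfl⟩
  have hX'X : X' ≤ X := by rw [hX']; exact Nat.div_le_self _ _
  obtain ⟨Λ, hΛ⟩ : ∃ Λ : ℝ, Λ = qq Q * (64 * X / ((2 : ℝ) ^ k) ^ 2 + 1) := ⟨_, rfl⟩
  have hΛ0 : 0 < Λ := by rw [hΛ]; positivity
  obtain ⟨Δ, hΔ⟩ : ∃ Δ, Δ = 40 * B * Real.log X + 10 * √(B * Real.log X * Λ) := ⟨_, rfl⟩
  have hΔ0 : 0 < Δ := by
    rw [hΔ]
    have := Real.sqrt_nonneg (B * Real.log X * Λ)
    have h2 : 0 < B * Real.log X := by positivity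
    linarith
  obtain ⟨N, hN⟩ : ∃ N : ℕ, N = ⌈40 * B⌉₊ := ⟨_, rfl⟩
  have hN1 : 40 * B ≤ N := by rw [hN]; exact Nat.le_ceil _
  have hN2 : (N : ℝ) ≤ 41 * B := by
    have := Nat.ceil_lt_add_one (show 0 ≤ 40 * B by linarith)
    rw [hN]
    linarith
  have hN3 : 1 ≤ N := by
    have : (1 : ℝ) ≤ N := by linarith
    exact_mod_cast this
  obtain ⟨τ, hτ⟩ : ∃ τ, τ = 2 * Real.exp (-(20 * B)) := ⟨_, rfl⟩
  obtain ⟨π0, hπ⟩ : ∃ π0, π0 = Real.exp (-((1 - ε) * (2 * Real.log ((Q : ℝ) * 2 ^ k) + Real.log (Real.log X)))) :=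
    ⟨_, rfl⟩
  have hτ12 : τ ≤ 1 / 2 := by
    rw [hτ]
    have h5 := Real.add_one_le_exp (20 * B)
    have h6 : Real.exp (-(20 * B)) ≤ 1 / 21 := by
      rw [Real.exp_neg, ← one_div]
      exact one_div_le_one_div_of_le (by norm_num) (by linarith)
    linarith
  have hlQk : 0 ≤ Real.log ((Q : ℝ) * 2 ^ k) := by
    apply Real.log_nonneg
    have : (1 : ℝ) ≤ 2 ^ k := one_le_pow₀ (by norm_num)
    nlinarith
  have hne : (idx Q k).Nonempty := by
    rw [← card_pos]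
    have h1 : (0 : ℝ) < (idx Q k).card := lt_of_lt_of_le (by positivity) hcard
    exact_mod_cast h1
  -- facts for the indices
  have hfac : ∀ i ∈ idx Q k, 1 ≤ Q * i.1 ∧ ((Q * i.1 : ℕ) : ℝ) ≤ Q * 2 ^ k ∧ (Q : ℝ) * 2 ^ k / 8 ≤ (Q * i.1 : ℕ) ∧
      Nat.gcd (1 + Q * i.2) (Nat.gcd (Q * i.1) Q) = 1 := by
    intro i hi
    obtain ⟨h1, h2, h3, h4, h5⟩ := hidx i hi
    have h6 : 0 < Q * i.1 := by omega
    refine ⟨h6, ?_, ?_, ?_⟩
    · push_cast
      exact mul_le_mul_of_nonneg_left h5 hQ0.le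
    · push_cast
      rw [mul_div_assoc]
      exact mul_le_mul_of_nonneg_left h4.le hQ0.le
    · exact Nat.Coprime.coprime_dvd_right (Nat.gcd_dvd_left _ _) h2
  have hmain := hSM2 Ω μ (level Q) A hA (ℕ × ℕ) (idx Q k) (fun i => wd X' X (Q * i.1) (1 + Q * i.2))
    (fun n => σ * Real.log n)
    (fun i => (1 - ε) * dv Q X (Q * i.1) + σ * (kap Q (Q * i.1) * (((X : ℝ) - X') / (Q * i.1 : ℕ))))
    (fun i => η * dv Q X (Q * i.1)) Δ τ π0 N hne hΔ0.le (by rw [hτ]; positivity) hτ12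
    (by rw [hπ]; exact Real.exp_pos _)
    (by
      rw [hπ]
      apply Real.exp_le_one_iff.2
      apply neg_nonpos.2
      apply mul_nonneg <;> linarith) hN3 ?_ ?_ ?_
  · refine le_trans ?_ (hmain.trans (measureReal_mono ?_))
    · exact t2x_fin hQ hε hε1 hL1 rfl hl0 (by omega) hB hB1 hcard hs3 hs4 hτ hπ hN1
    · rintro ω ⟨i, hi, h1⟩
      refine ⟨i, hi, ?_⟩
      rw [sm_wd _ _ hX'X] at h1
      unfold incr
      rw [← hX']
      linarith
  · intro i hi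
    obtain ⟨h1, h2, h3, h4⟩ := hfac i hi
    have hq0 : (0 : ℝ) < (Q * i.1 : ℕ) := by exact_mod_cast h1
    refine t2x_size hQ hη hX0 hL1 hB1 (P := 2 ^ k) (by positivity) hs1 hs2 (Nat.cast_nonneg _) hN2
      (Real.sqrt_nonneg _) ?_ hΛ hΔ
    unfold dv
    have h5 : B ≤ 2 * Real.log ((Q * i.1 : ℕ) : ℝ) + Real.log (Real.log X) := by
      have h6 : Real.log ((Q : ℝ) * 2 ^ k / 8) ≤ Real.log ((Q * i.1 : ℕ) : ℝ) := Real.log_le_log (by positivity) h3
      rw [Real.log_div (by positivity) (by norm_num)] at h6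
      have h7 : Real.log (8 : ℝ) = 3 * Real.log 2 := by
        rw [show (8 : ℝ) = 2 ^ 3 by norm_num, Real.log_pow]; norm_num
      have h8 : 6 * Real.log 2 ≤ Real.log ((Q : ℝ) * 2 ^ k) := by
        rw [show 6 * Real.log 2 = Real.log (2 ^ 6) by rw [Real.log_pow]; norm_num]
        apply Real.log_le_log (by norm_num)
        have h9 : (2 : ℝ) ^ 6 ≤ 2 ^ k := pow_le_pow_right₀ (by norm_num) hk6
        nlinarith
      rw [hB]
      linarith
    have hk1' := one_le_kap hQ (Q * i.1)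
    have h6 : (X : ℝ) / (Q * 2 ^ k) ≤ kap Q (Q * i.1) * ((X : ℝ) / (Q * i.1 : ℕ)) := by
      have h7 : (X : ℝ) / (Q * 2 ^ k) ≤ (X : ℝ) / (Q * i.1 : ℕ) := div_le_div_of_nonneg_left hX0.le hq0 h2
      have h8 : (0 : ℝ) ≤ (X : ℝ) / (Q * i.1 : ℕ) := by positivity
      nlinarith
    have h7 : 0 ≤ kap Q (Q * i.1) * ((X : ℝ) / (Q * i.1 : ℕ)) := le_trans (by positivity) h6
    rw [Real.sq_sqrt (mul_nonneg (mul_nonneg (by linarith) (by linarith)) (by linarith))]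
    have h8 : 2 * ((X : ℝ) / (Q * 2 ^ k)) * Real.log X ≤
        2 * (kap Q (Q * i.1) * ((X : ℝ) / (Q * i.1 : ℕ))) * Real.log X :=
      mul_le_mul_of_nonneg_right (by linarith) (by linarith)
    exact mul_le_mul h8 h5 (by linarith) (mul_nonneg (by linarith) (by linarith))
  · intro i hi
    obtain ⟨h1, h2, h3, h4⟩ := hfac i hi
    have hq0 : (0 : ℝ) < (Q * i.1 : ℕ) := by exact_mod_cast h1
    have h5 := hX hdvd (Q * i.1) (1 + Q * i.2) h1 (h2.trans hk2) h4 Ω μ A hA σ hσ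
    refine le_trans ?_ (h5.trans (measureReal_mono ?_))
    · rw [hπ]
      apply Real.exp_le_exp.2
      apply neg_le_neg
      apply mul_le_mul_of_nonneg_left _ (by linarith)
      have h6 := Real.log_le_log hq0 h2
      linarith
    · intro ω hω
      have h6 : (1 - ε + η) * dv Q X (Q * i.1) ≤ σ * incr (A ω) Q (X / 2 ^ R) X (Q * i.1) (1 + Q * i.2) := hω
      show _ ≤ sm (A ω) (fun n => σ * Real.log n) (wd X' X (Q * i.1) (1 + Q * i.2))
      rw [sm_wd _ _ hX'X]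
      unfold incr at h6
      rw [← hX'] at h6
      linarith
  · intro i hi j hj hij
    obtain ⟨C, hC⟩ : ∃ C, C = wd X' X (Q * i.1) (1 + Q * i.2) ∩ wd X' X (Q * j.1) (1 + Q * j.2) := ⟨_, rfl⟩
    refine ⟨σ * ∑ n ∈ C, Real.log n * level Q n, ?_⟩
    show μ.real {ω | Δ < |sm (A ω) (fun n => σ * Real.log n)
      (wd X' X (Q * i.1) (1 + Q * i.2) ∩ wd X' X (Q * j.1) (1 + Q * j.2)) - σ * ∑ n ∈ C, Real.log n * level Q n|} ≤ τ
    rw [← hC]
    have hσ1 : |σ| = 1 := by rcases hσ with h | h <;> rw [h] <;> norm_num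
    have e1 : ∀ ω, |sm (A ω) (fun n => σ * Real.log n) C - σ * ∑ n ∈ C, Real.log n * level Q n| =
        |∑ n ∈ C, Real.log n * (ind (A ω) n - level Q n)| := by
      intro ω
      have e2 : sm (A ω) (fun n => σ * Real.log n) C - σ * ∑ n ∈ C, Real.log n * level Q n =
          σ * ∑ n ∈ C, Real.log n * (ind (A ω) n - level Q n) := by
        unfold sm
        rw [mul_sum, mul_sum, ← sum_sub_distrib]
        exact sum_congr rfl fun n _ => by ring
      rw [e2, abs_mul, hσ1, one_mul]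
    simp only [e1]
    have hsub : C ⊆ win Q X i ∩ win Q X j := by
      rw [hC]
      exact inter_subset_inter sdiff_subset sdiff_subset
    have hcC : (C.card : ℝ) ≤ 64 * X / ((2 : ℝ) ^ k) ^ 2 + 1 := by
      have h1 : (C.card : ℝ) ≤ ((win Q X i ∩ win Q X j).card : ℝ) := by exact_mod_cast card_le_card hsub
      have h2 := (hdep X (by omega)).2 i hi j hj hij
      refine h1.trans (h2.trans ?_)
      have h3 := (hidx i hi).2.2.2.1
      have h4 := (hidx j hj).2.2.2.1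
      have h5 : ((2 : ℝ) ^ k) ^ 2 / 64 ≤ (Q : ℝ) * i.1 * j.1 := by
        have h6 : ((2 : ℝ) ^ k / 8) * (2 ^ k / 8) ≤ (i.1 : ℝ) * j.1 :=
          mul_le_mul h3.le h4.le (by positivity) (by positivity)
        have h7 : (0 : ℝ) ≤ (i.1 : ℝ) * j.1 := by positivity
        calc ((2 : ℝ) ^ k) ^ 2 / 64 = ((2 : ℝ) ^ k / 8) * (2 ^ k / 8) := by ring
          _ ≤ (i.1 : ℝ) * j.1 := h6
          _ ≤ (Q : ℝ) * ((i.1 : ℝ) * j.1) := by nlinarith
          _ = _ := by ring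
      have h6 : (X : ℝ) / (Q * i.1 * j.1) ≤ X / (((2 : ℝ) ^ k) ^ 2 / 64) :=
        div_le_div_of_nonneg_left hX0.le (by positivity) h5
      have h7 : (X : ℝ) / (((2 : ℝ) ^ k) ^ 2 / 64) = 64 * X / ((2 : ℝ) ^ k) ^ 2 := by
        field_simp
      linarith
    rw [hτ]
    refine dev2 hCH hRT hQ hA hX2 (fun n hn => ?_) ?_ hΛ0 hΔ0 (t2x_dev hL1 hB1 hΛ0 hΔ)
    · have h1 := mem_of_mem_inter_left (hsub hn)
      unfold win cls at h1
      exact Finset.mem_Icc.1 (Finset.mem_filter.1 h1).1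
    · rw [hΛ]
      exact mul_le_mul_of_nonneg_left hcC hqq.le

end Pool.Agent.Q112.ML
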